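import Pool.Agent.D0H90.WA.Dich

/-!
The dichotomy for pairs whose interior is very affine.
-/

set_option autoImplicit false
set_option linter.unusedSectionVars false

open FF Pool.Agent.W602.GT Pool.Agent.W603.LV Pool.Agent.TH122.AB Pool.Agent.TH585.SV
open Pool.Agent.Y172 Pool.Agent.Y191

namespace Pool.Agent.D0H90.WA

section

variable {k K : Type} [Field k] [CharZero k] [Field K] [Algebra k K]
variable {F M : IntermediateField k K} {r l : ℕ} {z m : Fin r → K} {u : Fin l → K}
  {H : Fin l → Derivation k K K} {c : Fin r → Fin l → ℤ} {aa : Fin r → Fin r → ℤ}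
  {bb : Fin l → Fin r → ℤ}

theorem Str.basis (st : Str F M z m u H c aa bb) : IsTranscendenceBasis M u :=
  basis_of_kill st.ind fun D hD hDu => by
    have h2 : IntermediateField.adjoin k ((M : Set K) ∪ Set.range u) ≤ consts D := by
      rw [IntermediateField.adjoin_le_iff]
      rintro y (hy | ⟨j, rfl⟩)
      · exact hD y hy
      · exact hDu j
    rw [st.top] at h2
    ext y
    exact h2 (x := y) trivial

theorem Str.trM (st : Str F M z m u H c aa bb) : Algebra.trdeg k M = Algebra.trdeg k F := by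
  apply le_antisymm
  · rw [← st.tr, ← trdeg_acl rfl]
    exact trdeg_le_of_injective (IntermediateField.inclusion st.ML)
      (IntermediateField.inclusion st.ML).toRingHom.injective
  · exact trdeg_le_of_injective (IntermediateField.inclusion st.FM)
      (IntermediateField.inclusion st.FM).toRingHom.injective

theorem Str.dim (st : Str F M z m u H c aa bb) {n p : ℕ} (hn : Algebra.trdeg k K = n)
    (hd : Algebra.trdeg k F = p) : n = p + l := by
  have h1 := st.basis.cardinalMk_eq_trdeg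
  have h2 := trdeg_add_eq k M (A := K)
  rw [Cardinal.mk_fin] at h1
  rw [st.trM, hd, hn, ← h1] at h2
  exact_mod_cast h2.symm

/-- **The places of the irreducible polynomials** which are not variables are divisors on the very
affine variety. -/
theorem Str.places (st : Str F M z m u H c aa bb) {n : ℕ} (hn : Algebra.trdeg k K = n)
    {g : MvPolynomial (Fin l) M} (hg : Irreducible g) (hgv : ¬ IsVar g) :
    ∃ Q : Place k K, Adic Q u g ∧ (∀ j, Q.ord (z j) = 0) ∧ ∃ a : Fin (n - 1) → Fin r → ℤ,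
      ∀ G : MvPolynomial (Fin (n - 1)) k, G ≠ 0 →
        MvPolynomial.aeval (fun i => mono z (a i)) G ≠ 0 ∧
        Q.ord (MvPolynomial.aeval (fun i => mono z (a i)) G) = 0 := by
  classical
  obtain ⟨μ, w, hwm, hwi, hwk⟩ := pick hn (⊥ : IntermediateField k K) (Set.range m)
  have hwM : ∀ i, w i ∈ M := by
    intro i
    obtain ⟨j, hj⟩ := hwm i
    rw [← hj]
    exact st.mM j
  have hMw : M = acl k (Set.range w) := by
    apply le_antisymm
    · intro y hy
      by_contra hcon
      obtain ⟨E, hE1, hE2⟩ := exists_der_ne (acl_closed (Set.range w)) hcon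
      have h1 : ∀ x ∈ Set.range m, E x = 0 := hwk E (fun x hx => by
        rw [IntermediateField.mem_bot] at hx
        obtain ⟨c, rfl⟩ := hx
        exact E.map_algebraMap c) (fun i => hE1 _ (subset_acl _ ⟨i, rfl⟩))
      have h2 : Kills E (acl k (Set.range m)) := kills_acl h1
      have h3 := h2 y (st.ML hy)
      rw [hE2] at h3
      exact one_ne_zero h3
    · refine acl_le st.closed ?_
      rintro y ⟨i, rfl⟩
      exact hwM i
  have huw : AlgebraicIndependent k (Sum.elim u w) := by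
    have h1 := tower (bot_le : ⊥ ≤ M) hwi hwM st.ind
    exact h1.restrictScalars (R := k) (algebraMap k (⊥ : IntermediateField k K)).injective
  have hnμ := card_coord hn (full_coord hMw huw st.top)
  obtain ⟨Q, hQ, v, hv, hvQ⟩ := adic_div (gens_of_top st.ind st.top) hg hwM huw hnμ
  have hQM := hQ.triv
  have hQu : ∀ j, Q.ord (u j) = 0 := by
    intro j
    have h1 := (hQ (MvPolynomial.X j) (MvPolynomial.X_ne_zero j)).2
    rw [MvPolynomial.aeval_X] at h1
    exact h1.2 fun h => hgv (isVar_of_dvd hg h)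
  have hmon : ∀ i, ∃ a : Fin r → ℤ, v i = mono z a := by
    intro i
    rcases hv i with ⟨j, hj⟩ | ⟨a, ha⟩
    · exact ⟨bb j, by rw [hj, st.ub]⟩
    · obtain ⟨j, hj⟩ := hwm a
      exact ⟨aa j, by rw [ha, ← hj, st.ma]⟩
  choose a ha using hmon
  refine ⟨Q, hQ, fun j => ?_, a, fun G hG => ?_⟩
  · rw [st.zc j, Q.ord_mul (st.m0 j) (mono_ne st.u0 _), hQM _ (st.mM j) (st.m0 j), mono,
      Pool.Agent.W619.PQ.ord_prod _ Q _ fun i _ => zpow_ne_zero _ (st.u0 i), zero_add]
    exact Finset.sum_eq_zero fun i _ => by rw [Q.ord_zpow, hQu, mul_zero]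
  · have h1 : (fun i => mono z (a i)) = v := funext fun i => (ha i).symm
    rw [h1]
    exact hvQ G hG

end

section

variable {K : Type} [Field K] [Algebra ℂ K] {N : ℕ} {y : Fin (N + 1) → K} {n : ℕ}

/-- **The pseudo-effective case.** -/
theorem psef_eq {Δ : Place ℂ K → ℚ} {p l r : ℕ}
    (hy : NormalModel y) (hn : Algebra.trdeg ℂ K = n) (hΔ : Effective y Δ)
    (hLC : LogCanonical y n Δ) {F M : IntermediateField ℂ K} {z m : Fin r → K}
    {u : Fin l → K} {H : Fin l → Derivation ℂ K K} {c : Fin r → Fin l → ℤ}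
    {aa : Fin r → Fin r → ℤ} {bb : Fin l → Fin r → ℤ}
    (st : Str F M z m u H c aa bb)
    (hd : Algebra.trdeg ℂ F = p)
    (hQ : ∀ g : MvPolynomial (Fin l) M, Irreducible g → ¬ IsVar g →
      ∃ Q, Adic Q u g ∧ NonnegDisc y n Δ Q)
    (hver : ∀ P, IsPrimeDivisor y P → (∃ a, Invariant ℂ z a ∧ P.ord (mono z a) ≠ 0) →
      ∃ e : ℕ, (∀ f ∈ F, f ≠ 0 → (e : ℤ) ∣ P.ord f) ∧ (1 - Δ P) * (p + 2) < e)
    (hhor : ∀ P, IsPrimeDivisor y P → (∀ f ∈ F, f ≠ 0 → P.ord f = 0) →
      ¬ LogReg F l z P → 1 ≤ Δ P) :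
    kodairaDim y n Δ = (p : WithBot ℕ) ∧
      ∀ A, Effective y A → Integral y A → numericalDim y n Δ A = (p : EReal) := by
  classical
  have hnl := st.dim hn hd
  obtain ⟨D, hD, hDM, hDu⟩ := exists_adapted hn st.closed st.ind st.top
  have hup : ∀ A, Effective y A → ∃ C : ℕ, ∀ m : ℕ, 1 ≤ m → ∀ (r : ℕ) (f : Fin r → K),
      LinearIndependent ℂ f → (∀ i, ∃ ω, Y172.IsSection y n m (m • Δ + A) ω ∧ ω D = f i) →
      r ≤ C * m ^ p := by
    intro A hA
    obtain ⟨p0, b, hp0, hlau⟩ := lau_bound hy hn hLC st.closed st.ind st.top hQ hD hDM hDu hA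
    exact upper_lau hy hn hΔ st.closed st.ind st.top hA hp0 hlau hnl
  -- the coefficients
  let X : Set (Place ℂ K) := {P | IsPrimeDivisor y P}
  obtain ⟨tr, htr⟩ : ∃ tr : Place ℂ K → Prop, ∀ P, tr P ↔
      ∀ f ∈ F, f ≠ 0 → P.ord f = 0 := ⟨_, fun _ => Iff.rfl⟩
  let δ₁ : Place ℂ K → ℝ := fun P => if tr P then 0 else (Δ P : ℝ)
  let δ₂ : Place ℂ K → ℝ := fun P => if tr P then (Δ P : ℝ) else 0
  have hΔ0 : ∀ P ∈ X, (0 : ℝ) ≤ Δ P := fun P hP => by exact_mod_cast hΔ.1 P hP
  have hδ₁ : ∀ P ∈ X, 0 ≤ δ₁ P := by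
    intro P hP
    change 0 ≤ if tr P then 0 else (Δ P : ℝ)
    split_ifs
    · exact le_rfl
    · exact hΔ0 P hP
  have hδ : ∀ P ∈ X, δ₁ P + δ₂ P ≤ Δ P := by
    intro P _
    change (if tr P then 0 else (Δ P : ℝ)) + (if tr P then (Δ P : ℝ) else 0) ≤ Δ P
    split_ifs <;> simp
  have hHF : ∀ j, Kills (H j) F := fun j f hf => st.hk j f (st.FM hf)
  have hmF : IntermediateField.adjoin ℂ (Set.range m) ≤ F := by
    rw [IntermediateField.adjoin_le_iff]
    rintro _ ⟨j, rfl⟩
    exact st.mF j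
  -- the sections
  have hkod : KodairaGe n {P | IsPrimeDivisor y P} (fun P => (Δ P : ℝ)) (p + 0) := by
    refine torus_hb hn hΔ hd hnl st.m0 st.mF (st.tr.trans hd) st.nt (fun P hP => ?_)
      (δ₁ := δ₁) (δ₂ := δ₂) hδ (fun P _ hP => if_neg fun h => hP ((htr P).1 h)) hδ₁
      (m1 := 1) one_pos
      (θ := fun _ G => (lmat u fun i => (G i).restrictScalars ℂ).det ^ 1 * 1) (fun _ => ?_) ?_
    · rintro ⟨i, hi⟩
      obtain ⟨e, he, hlt⟩ := hver P hP ⟨aa i, st.inv i, by rw [← st.ma]; exact hi⟩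
      exact ⟨e, fun f hf hf0 => he f (hmF hf) hf0, hlt⟩
    · refine ⟨pluri_restrict (pluri_lmat u 1 1) _, fun P hP _ G hG => ?_⟩
      obtain ⟨G', hG'⟩ : ∃ G' : Fin l → Derivation ℂ K K, G' = fun i => (G i).restrictScalars ℂ :=
        ⟨_, rfl⟩
      have hGF : ∀ i, ∀ f ∈ F, G' i f = 0 := by
        intro i f hf
        rw [hG']
        exact (G i).map_algebraMap (⟨f, hf⟩ : F)
      have hGr : ∀ i, DerReg P (G' i) := by
        intro i f hf
        rw [hG']
        exact hG i f hf
      simp only [← hG', pow_one, mul_one]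
      have hX := hΔ0 P hP
      by_cases ht : tr P
      · have h2 : δ₂ P = Δ P := if_pos ht
        rw [h2]
        have htF := (htr P).1 ht
        by_cases hreg : LogReg F l z P
        · have h3 := hreg bb G' hGF hGr
          have h4 : (Matrix.of fun i j => G' i (mono z (bb j)) / mono z (bb j) :
              Matrix (Fin l) (Fin l) K) = lmat u G' := by
            ext i j
            rw [Matrix.of_apply, ← st.ub]
            rfl
          rw [h4] at h3
          rcases h3 with h3 | h3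
          · exact Or.inl h3
          · right
            have h5 : ((0 : ℤ) : ℝ) ≤ (P.ord (lmat u G').det : ℝ) := by exact_mod_cast h3
            push_cast at h5 ⊢
            linarith
        · have h3 : (1 : ℝ) ≤ Δ P := by exact_mod_cast hhor P hP htF hreg
          have h4 : Ge P (-1) (lmat u G').det := det_log G' hGr _ fun _ => st.u0 _
          rcases h4 with h4 | h4
          · exact Or.inl h4
          · right
            have h5 : ((-1 : ℤ) : ℝ) ≤ (P.ord (lmat u G').det : ℝ) := by exact_mod_cast h4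
            push_cast at h5 ⊢
            linarith
      · have h2 : δ₂ P = 0 := if_neg ht
        rw [h2]
        have htF : ¬ ∀ f ∈ F, f ≠ 0 → P.ord f = 0 := fun h => ht ((htr P).2 h)
        have h3 : Ge P 0 (lmat u G').det := by
          refine ge_det P _ 0 (fun _ _ => 0) (fun i j => ?_) fun σ => by simp
          change Ge P 0 (G' i (u j) / u j)
          exact derLog_of_nontrivial (hGF i) (hGr i) htF _
        rcases h3 with h4 | h4
        · exact Or.inl h4
        · right
          have h5 : ((0 : ℤ) : ℝ) ≤ (P.ord (lmat u G').det : ℝ) := by exact_mod_cast h4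
          push_cast at h5 ⊢
          linarith
    · refine ⟨fun i => Y172.liftD (H i) F (hHF i), ?_, ?_⟩
      · have h3 : (fun i => (Y172.liftD (H i) F (hHF i)).restrictScalars ℂ) = H := by
          funext i
          ext f
          rfl
        simp only [h3]
        have h4 : lmat u H = 1 := by
          ext i j
          simp only [lmat, Matrix.of_apply]
          rw [st.hu, Matrix.one_apply]
          split_ifs
          · exact div_self (st.u0 _)
          · exact zero_div _
        rw [h4, Matrix.det_one, one_pow, one_mul]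
        exact one_ne_zero
      · exact (algebraicIndependent_empty_type_iff).2 (algebraMap F K).injective
  obtain ⟨m0, hm0, ω, hω, E', h4, h5⟩ := hkod
  exact dims hΔ hD hup hm0 (ω := ω) (fun j => ⟨(hω j).1, fun P hP G hG => by
    rcases (hω j).2 P hP (hP.divisorial hy hn) G hG with h6 | h6
    · exact Or.inl h6
    · right
      have e1 : (m0 • Δ) P = m0 * Δ P := by rw [Pi.smul_apply, nsmul_eq_mul]
      rw [e1]
      have h7 : ((-(m0 * Δ P) : ℚ) : ℝ) ≤ ((P.ord (ω j G) : ℚ) : ℝ) := by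
        push_cast
        exact h6
      exact_mod_cast h7⟩) h4 h5

/-- **The dichotomy.** -/
theorem va_dich {Δ : Place ℂ K → ℚ} {p s r : ℕ}
    (hy : NormalModel y) (hn : Algebra.trdeg ℂ K = n) (hΔ : Effective y Δ)
    (hLC : LogCanonical y n Δ) {z : Fin r → K} (hz : ∀ j, z j ≠ 0)
    (htop : IntermediateField.adjoin ℂ (Set.range z) = ⊤) {F : IntermediateField ℂ K}
    (hF : F = IntermediateField.adjoin ℂ {w | ∃ a, Invariant ℂ z a ∧ w = mono z a})
    (hd : Algebra.trdeg ℂ F = p) (hs : n = p + s)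
    (hint : ∀ Q : Place ℂ K, (∀ j, Q.ord (z j) = 0) → (∃ a : Fin (n - 1) → Fin r → ℤ,
      ∀ G : MvPolynomial (Fin (n - 1)) ℂ, G ≠ 0 →
        MvPolynomial.aeval (fun i => mono z (a i)) G ≠ 0 ∧
        Q.ord (MvPolynomial.aeval (fun i => mono z (a i)) G) = 0) → NonnegDisc y n Δ Q) :
    ((∀ P, IsPrimeDivisor y P → (∀ f ∈ F, f ≠ 0 → P.ord f = 0) → ¬ LogReg F s z P → 1 ≤ Δ P) →
      (∀ P, IsPrimeDivisor y P → (∃ a, Invariant ℂ z a ∧ P.ord (mono z a) ≠ 0) →
        ∃ e : ℕ, (∀ f ∈ F, f ≠ 0 → (e : ℤ) ∣ P.ord f) ∧ (1 - Δ P) * (p + 2) < e) →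
      kodairaDim y n Δ = (p : WithBot ℕ) ∧
        ∀ A, Effective y A → Integral y A → numericalDim y n Δ A = (p : EReal)) ∧
    ((∃ P, IsPrimeDivisor y P ∧ (∀ f ∈ F, f ≠ 0 → P.ord f = 0) ∧ ¬ LogReg F s z P ∧ Δ P < 1) →
      kodairaDim y n Δ = ⊥ ∧
        ∀ A, Effective y A → Integral y A → numericalDim y n Δ A = ⊥) := by
  classical
  obtain ⟨l, M, m, u, H, c, aa, bb, st⟩ := exists_str hn hz htop hF hd
  have hnl := st.dim hn hd
  obtain rfl : l = s := by omega
  have hQ : ∀ g : MvPolynomial (Fin l) M, Irreducible g → ¬ IsVar g →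
      ∃ Q, Adic Q u g ∧ NonnegDisc y n Δ Q := by
    intro g hg hgv
    obtain ⟨Q, h1, h2, h3⟩ := st.places hn hg hgv
    exact ⟨Q, h1, hint Q h2 h3⟩
  constructor
  · intro hhor hver
    exact psef_eq hy hn hΔ hLC st hd hQ hver hhor
  · rintro ⟨P, hP, hPF, hpole, hlt⟩
    exact dims_bot fun A hA => not_psef hy hn hLC hz st hQ hP hPF hpole hlt hA

end

end Pool.Agent.D0H90.WA
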