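import Pool.Agent.Y172.Bas

/-!
The forms along the fibres, with boundary divisors along which the logarithmic forms are regular
(variants of `Gs.low` and `lower` of `Pool.Agent.Y172`).
-/

set_option autoImplicit false
set_option linter.unusedSectionVars false

open FF Pool.Agent.W602.GT Pool.Agent.W603.LV Pool.Agent.TH122.AB Pool.Agent.Y172

namespace Pool.Agent.D0H90.WA

section

variable {k K : Type} [Field k] [CharZero k] [Field K] [Algebra k K]
variable {F M M1 : IntermediateField k K} {r e l l' ρ : ℕ} {t : Fin r → K} {J : Fin e → Fin r}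
  {D : Fin e → Derivation k K K} {u : Fin l → K} {H : Fin l → Derivation k K K}
  {B : MvPolynomial (Fin l) M → Prop} {x : Fin ρ → K} {u' : Fin l' → K}

/-- The logarithmic forms `dt/t ∧ ... ∧ dt/t` of degree `e` along the fibres are regular at `P`. -/
def Soft (F : IntermediateField k K) (e : ℕ) (t : Fin r → K) (P : Place k K) : Prop :=
  ∀ (T : Fin e → Fin r) (G : Fin e → Derivation k K K), (∀ i, ∀ f ∈ F, G i f = 0) →
    (∀ i, DerReg P (G i)) →
    P.Reg (Matrix.of fun i j => G i (t (T j)) / t (T j) : Matrix (Fin e) (Fin e) K).det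

theorem Soft.ge {P : Place k K} (h : Soft F e t P) {G : Fin e → Derivation k K K}
    (hG : ∀ i, Kills (G i) F) (hGr : ∀ i, DerReg P (G i)) (T : Fin e → Fin r) :
    Ge P 0 (lmat (fun a => t (T a)) G).det :=
  h T G hG hGr

/-- **The products of the forms with the terms.** -/
theorem low2 (gs : Gs F M t J D u H) {X : Set (Place k K)} {δ : Place k K → ℝ}
    (hδ0 : ∀ P ∈ X, 0 ≤ δ P) (hBd : ∀ P ∈ X, Bd F t P → 1 ≤ δ P ∨ (0 < δ P ∧ Soft F e t P))
    {g : MvPolynomial (Fin l) M} (hg : Irreducible g) (hgX : ∀ P ∈ X, Adic P u g → 0 < δ P)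
    {a : Fin l →₀ ℕ} (ha : a ∈ g.support)
    (hfin : {P | P ∈ X ∧ P.ord (trm u g a / MvPolynomial.aeval u g) ≠ 0}.Finite) :
    ∃ m0 : ℕ, ∀ m, m0 ≤ m → ∀ P ∈ X, ∀ G : Fin e → Derivation k K K, (∀ i, Kills (G i) F) →
      (∀ i, DerReg P (G i)) → ∀ T : Fin e → Fin r,
      (lmat (fun a => t (T a)) G).det ^ m * (trm u g a / MvPolynomial.aeval u g) = 0 ∨
        -(m * δ P) ≤ (P.ord ((lmat (fun a => t (T a)) G).det ^ m *
          (trm u g a / MvPolynomial.aeval u g)) : ℝ) := by
  classical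
  obtain ⟨x, hx⟩ : ∃ x, x = trm u g a / MvPolynomial.aeval u g := ⟨_, rfl⟩
  rw [← hx] at hfin ⊢
  -- the bound for the poles
  obtain ⟨m0, hm0⟩ : ∃ m0 : ℕ, ∀ P ∈ X, Ge P (-(m0 : ℤ)) x ∧
      (0 < δ P → ∀ m : ℕ, m0 ≤ m → -(m * δ P) ≤ (P.ord x : ℝ)) := by
    have h1 : ∀ P : Place k K, ∃ mP : ℕ, Ge P (-(mP : ℤ)) x ∧
        (0 < δ P → ∀ m : ℕ, mP ≤ m → -(m * δ P) ≤ (P.ord x : ℝ)) := by
      intro P
      by_cases hδ : 0 < δ P
      · obtain ⟨mP, hmP⟩ := exists_nat_ge (|(P.ord x : ℝ)| / δ P)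
        have h2 : ∀ m : ℕ, mP ≤ m → -(m * δ P) ≤ (P.ord x : ℝ) := by
          intro m hm
          have h3 : |(P.ord x : ℝ)| ≤ m * δ P := by
            rw [← div_le_iff₀ hδ]
            exact hmP.trans (by exact_mod_cast hm)
          have h4 := neg_abs_le (P.ord x : ℝ)
          linarith
        refine ⟨max mP (P.ord x).natAbs, Or.inr ?_, fun _ m hm => h2 m ((le_max_left _ _).trans hm)⟩
        have h3 := le_max_right mP (P.ord x).natAbs
        omega
      · exact ⟨(P.ord x).natAbs, Or.inr (by omega), fun h => absurd h hδ⟩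
    choose mP h2 h3 using h1
    refine ⟨∑ P ∈ hfin.toFinset, mP P, fun P hP => ?_⟩
    by_cases hPx : P.ord x = 0
    · refine ⟨Or.inr (by rw [hPx]; omega), fun hδ m _ => ?_⟩
      rw [hPx]
      have : (0 : ℝ) ≤ m * δ P := by positivity
      simpa using this
    · have h4 : P ∈ hfin.toFinset := by
        rw [Set.Finite.mem_toFinset]
        exact ⟨hP, hPx⟩
      have h5 : mP P ≤ ∑ P ∈ hfin.toFinset, mP P :=
        Finset.single_le_sum (fun _ _ => Nat.zero_le _) h4
      exact ⟨(h2 P).mono (by omega), fun hδ m hm => h3 P hδ m (h5.trans hm)⟩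
  refine ⟨m0, fun m hm P hP G hG hGr T => ?_⟩
  obtain ⟨b, hb⟩ : ∃ b, b = (lmat (fun a => t (T a)) G).det := ⟨_, rfl⟩
  rw [← hb]
  obtain ⟨hm1, hm2⟩ := hm0 P hP
  have hδP := hδ0 P hP
  have hmδ : 0 ≤ m * δ P := by positivity
  have key : ∀ N : ℤ, Ge P N (b ^ m * x) → -(m * δ P) ≤ (N : ℝ) →
      b ^ m * x = 0 ∨ -(m * δ P) ≤ (P.ord (b ^ m * x) : ℝ) := by
    intro N hN hN'
    rcases hN with h | h
    · exact Or.inl h
    · exact Or.inr (hN'.trans (by exact_mod_cast h))
  have key2 : 0 < δ P → Ge P 0 b →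
      b ^ m * x = 0 ∨ -(m * δ P) ≤ (P.ord (b ^ m * x) : ℝ) := by
    intro hδ h0
    have h1 := hm2 hδ m hm
    by_cases hx0 : x = 0
    · left
      rw [hx0, mul_zero]
    by_cases hb0 : b ^ m = 0
    · left
      rw [hb0, zero_mul]
    right
    rw [P.ord_mul hb0 hx0]
    have h2 := (h0.pow m).resolve_left hb0
    rw [mul_zero] at h2
    push_cast
    have h3 : (0 : ℝ) ≤ (P.ord (b ^ m) : ℝ) := by exact_mod_cast h2
    linarith
  by_cases hPB : Bd F t P
  · rcases hBd P hP hPB with hδ1 | ⟨hδ1, hs⟩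
    · have hmδ1 : -(m * δ P) ≤ ((-(m : ℤ) : ℤ) : ℝ) := by
        push_cast
        nlinarith
      rcases gs.rat_bd hG hGr ha with h | h
      · rw [← hx] at h
        have h1 := ((beta_ge' gs.ht hGr T).pow m).mul h
        rw [← hb] at h1
        exact key _ h1 (by push_cast at hmδ1 ⊢; linarith)
      · have h1 := ((h T).pow m).mul hm1
        rw [← hb] at h1
        refine key _ h1 ?_
        refine hmδ1.trans ?_
        have : -(m : ℤ) ≤ m * 0 + -(m0 : ℤ) := by omega
        exact_mod_cast this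
    · have h0 := hs.ge hG hGr T
      rw [← hb] at h0
      exact key2 hδ1 h0
  · have h0 := beta_ge gs.ht hPB hG hGr T
    rw [← hb] at h0
    rcases gs.rat_int hPB hG hGr hg ha with h | h | h
    · rw [← hx] at h
      have h1 := (h0.pow m).mul h
      refine key _ h1 ?_
      push_cast
      linarith
    · have h1 := h T
      rw [← hb] at h1
      have h2 := (h1.pow m).mul hm1
      refine key _ h2 ?_
      have : (0 : ℤ) ≤ m * 1 + -(m0 : ℤ) := by omega
      have h3 : (0 : ℝ) ≤ ((m * 1 + -(m0 : ℤ) : ℤ) : ℝ) := by exact_mod_cast this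
      linarith
    · exact key2 (hgX P hP h) h0

/-- **Sections along the fibres.** -/
theorem lower2 (gs : Gs F M t J D u H) (fb : Fb M M1 u B x u')
    {X : Set (Place k K)} {δ : Place k K → ℝ}
    (hδ0 : ∀ P ∈ X, 0 ≤ δ P) (hBd : ∀ P ∈ X, Bd F t P → 1 ≤ δ P ∨ (0 < δ P ∧ Soft F e t P))
    (hB : ∀ g, B g → Irreducible g ∧ ∀ P ∈ X, Adic P u g → 0 < δ P)
    (hfin : ∀ f : K, f ≠ 0 → {P | P ∈ X ∧ P.ord f ≠ 0}.Finite)
    {μ : ℕ} {c : Fin μ → K} (hc : ∀ b, ∃ i j, c b = D i (t j) / t j)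
    (hxc : AlgebraicIndependent F (Sum.elim x c)) :
    ∃ m : ℕ, 0 < m ∧ ∃ θ : Fin (ρ + μ + 1) → (Fin e → Derivation k K K) → K,
      (∀ b, IsPluri m (θ b)) ∧
      (∀ b, ∀ P ∈ X, ∀ G : Fin e → Derivation k K K, (∀ i, Kills (G i) F) →
        (∀ i, DerReg P (G i)) → θ b G = 0 ∨ -(m * δ P) ≤ (P.ord (θ b G) : ℝ)) ∧
      θ 0 D ≠ 0 ∧ AlgebraicIndependent F (fun i : Fin (ρ + μ) => θ i.succ D / θ 0 D) := by
  classical
  choose g hg a ha hx using fb.xT
  choose i j hij using hc
  have hgu : ∀ b, MvPolynomial.aeval u (g b) ≠ 0 := by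
    intro b h
    have h1 := (injective_iff_map_eq_zero _).1 gs.ind (g b) h
    have h2 := ha b
    rw [h1] at h2
    simp at h2
  have hlow := fun b => low2 gs hδ0 hBd (hB _ (hg b)).1 (hB _ (hg b)).2 (ha b)
    (hfin _ (div_ne_zero (trm_ne gs.u_ne (ha b)) (hgu b)))
  choose m0 hm0 using hlow
  obtain ⟨m, hm⟩ : ∃ m, m = 1 + ∑ b, m0 b := ⟨_, rfl⟩
  have hmb : ∀ b, m0 b ≤ m := fun b => by
    have := Finset.single_le_sum (f := m0) (fun _ _ => Nat.zero_le _) (Finset.mem_univ b)
    omega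
  -- powers of the forms
  have hpow : ∀ T : Fin e → Fin r, ∀ P ∈ X, ∀ G : Fin e → Derivation k K K,
      (∀ i, Kills (G i) F) → (∀ i, DerReg P (G i)) →
      (lmat (fun a => t (T a)) G).det ^ m = 0 ∨
        -(m * δ P) ≤ (P.ord ((lmat (fun a => t (T a)) G).det ^ m) : ℝ) := by
    intro T P hP G hG hGr
    have hδP := hδ0 P hP
    have hmδ : 0 ≤ m * δ P := by positivity
    have key : Ge P 0 (lmat (fun a => t (T a)) G).det →
        (lmat (fun a => t (T a)) G).det ^ m = 0 ∨
        -(m * δ P) ≤ (P.ord ((lmat (fun a => t (T a)) G).det ^ m) : ℝ) := by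
      intro h0
      rcases h0.pow m with h | h
      · exact Or.inl h
      · right
        have h1 : ((m * (0 : ℤ) : ℤ) : ℝ) ≤
            (P.ord ((lmat (fun a => t (T a)) G).det ^ m) : ℝ) := by exact_mod_cast h
        push_cast at h1
        linarith
    by_cases hPB : Bd F t P
    · rcases hBd P hP hPB with hδ1 | ⟨_, hs⟩
      · rcases (beta_ge' gs.ht hGr T).pow m with h | h
        · exact Or.inl h
        · right
          have h1 : ((m * (-1 : ℤ) : ℤ) : ℝ) ≤
              (P.ord ((lmat (fun a => t (T a)) G).det ^ m) : ℝ) := by exact_mod_cast h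
          push_cast at h1
          nlinarith
      · exact key (hs.ge hG hGr T)
    · exact key (beta_ge gs.ht hPB hG hGr T)
  let ψ : Fin ρ ⊕ Fin μ → (Fin e → Derivation k K K) → K := Sum.elim
    (fun b G => (lmat (fun a => t (J a)) G).det ^ m * x b)
    fun b G => (lmat (fun a => t (Function.update J (i b) (j b) a)) G).det ^ m * 1
  let θ : Fin (ρ + μ + 1) → (Fin e → Derivation k K K) → K :=
    Fin.cons (fun G => (lmat (fun a => t (J a)) G).det ^ m * 1) fun s => ψ (finSumFinEquiv.symm s)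
  have hθ0 : θ 0 = fun G => (lmat (fun a => t (J a)) G).det ^ m * 1 := rfl
  have hθs : ∀ s : Fin (ρ + μ), θ s.succ = ψ (finSumFinEquiv.symm s) := fun s => rfl
  refine ⟨m, by omega, θ, ?_, ?_, ?_, ?_⟩
  · intro b
    refine Fin.cases ?_ (fun s => ?_) b
    · rw [hθ0]
      exact pluri_lmat _ m 1
    · rw [hθs]
      rcases finSumFinEquiv.symm s with b | b
      · exact pluri_lmat _ m _
      · exact pluri_lmat _ m _
  · intro b
    refine Fin.cases ?_ (fun s => ?_) b
    · rw [hθ0]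
      intro P hP G hG hGr
      simp only [mul_one]
      exact hpow _ P hP G hG hGr
    · rw [hθs]
      rcases finSumFinEquiv.symm s with b | b
      · intro P hP G hG hGr
        change (lmat (fun a => t (J a)) G).det ^ m * x b = 0 ∨ -(m * δ P) ≤
          (P.ord ((lmat (fun a => t (J a)) G).det ^ m * x b) : ℝ)
        rw [hx b]
        exact hm0 b m (hmb b) P hP G hG hGr J
      · intro P hP G hG hGr
        change (lmat (fun a => t (Function.update J (i b) (j b) a)) G).det ^ m * 1 = 0 ∨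
          -(m * δ P) ≤ (P.ord
            ((lmat (fun a => t (Function.update J (i b) (j b) a)) G).det ^ m * 1) : ℝ)
        rw [mul_one]
        exact hpow _ P hP G hG hGr
  · rw [hθ0]
    simp only [gs.det_self, one_pow, mul_one]
    exact one_ne_zero
  · have h1 : (fun s : Fin (ρ + μ) => θ s.succ D / θ 0 D) =
        (fun v : Fin ρ ⊕ Fin μ => Sum.elim x c v ^ (Sum.elim (fun _ => 1) (fun _ => m) v : ℕ)) ∘
          finSumFinEquiv.symm := by
      funext s
      have h2 : θ 0 D = 1 := by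
        rw [hθ0]
        simp only [gs.det_self, one_pow, mul_one]
      rw [h2, div_one, hθs, Function.comp_apply]
      rcases finSumFinEquiv.symm s with b | b
      · change (lmat (fun a => t (J a)) D).det ^ m * x b = x b ^ 1
        rw [gs.det_self, one_pow, one_mul, pow_one]
      · change (lmat (fun a => t (Function.update J (i b) (j b) a)) D).det ^ m * 1 = c b ^ m
        rw [gs.det_update, mul_one, hij b]
    rw [h1]
    refine (indep_pow hxc ?_).comp _ finSumFinEquiv.symm.injective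
    rintro (b | b)
    · exact one_ne_zero
    · change m ≠ 0
      omega

end

end Pool.Agent.D0H90.WA
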