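import Pool.Agent.D0H90.WA.Str

/-!
Sections on pairs whose interior is very affine: places of irreducible polynomials, and the bounds
for the exponents.
-/

set_option autoImplicit false
set_option linter.unusedSectionVars false

open FF Pool.Agent.W602.GT Pool.Agent.W603.LV Pool.Agent.TH122.AB
open Pool.Agent.Y172

namespace Pool.Agent.D0H90.WA

section

variable {k K : Type} [Field k] [CharZero k] [Field K] [Algebra k K]
variable {M : IntermediateField k K} {l : ℕ} {u : Fin l → K}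

/-- **The place of an irreducible polynomial**, with coordinates on its residue field. -/
theorem adic_div {n : ℕ} (hG : Gens (k := M) u) {g : MvPolynomial (Fin l) M} (hg : Irreducible g)
    {κ : ℕ} {w : Fin κ → K} (hwM : ∀ i, w i ∈ M)
    (huw : AlgebraicIndependent k (Sum.elim u w)) (hn : n = κ + l) :
    ∃ Q : Place k K, Adic Q u g ∧ ∃ v : Fin (n - 1) → K,
      (∀ i, (∃ j, v i = u j) ∨ ∃ a, v i = w a) ∧
      ∀ F : MvPolynomial (Fin (n - 1)) k, F ≠ 0 → MvPolynomial.aeval v F ≠ 0 ∧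
        Q.ord (MvPolynomial.aeval v F) = 0 := by
  classical
  obtain ⟨Q, -, hQ⟩ := exists_adic hG hg
  obtain ⟨j, hj, -⟩ := exists_pderiv hg
  have hdeg : MvPolynomial.degreeOf j g ≠ 0 := by
    intro h4
    apply hj
    ext m
    rw [MvPolynomial.coeff_pderiv, MvPolynomial.coeff_zero]
    have h5 : MvPolynomial.coeff (m + Finsupp.single j 1) g = 0 := by
      by_contra h6
      have h7 := MvPolynomial.monomial_le_degreeOf j (MvPolynomial.mem_support_iff.2 h6)
      rw [h4] at h7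
      simp at h7
    rw [h5, zero_mul]
  have hl : 0 < l := Nat.pos_of_ne_zero fun h => by
    subst h
    exact j.elim0
  have hcard : Fintype.card (Fin (n - 1)) = Fintype.card ({i : Fin l // i ≠ j} ⊕ Fin κ) := by
    rw [Fintype.card_fin, Fintype.card_sum, Fintype.card_fin]
    have h1 : Fintype.card {i : Fin l // i ≠ j} = l - 1 := by
      rw [Fintype.card_subtype_compl]
      simp
    rw [h1]
    omega
  let e := Fintype.equivOfCardEq hcard
  let v' : {i : Fin l // i ≠ j} ⊕ Fin κ → K := Sum.elim (fun i => u i) w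
  have hw : AlgebraicIndependent k v' := by
    have h1 := huw.comp (Sum.map (Subtype.val : {i : Fin l // i ≠ j} → Fin l) id)
      (Function.Injective.sumMap Subtype.val_injective Function.injective_id)
    convert h1 using 1
    funext s
    rcases s with i | i <;> rfl
  refine ⟨dropP M Q, hQ, fun i => v' (e i), fun i => ?_, fun F hF => ?_⟩
  · change (∃ j, v' (e i) = u j) ∨ ∃ a, v' (e i) = w a
    rcases h : e i with a | a
    · exact Or.inl ⟨a, rfl⟩
    · exact Or.inr ⟨a, rfl⟩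
  have hind := hw.comp e e.injective
  have h0 : MvPolynomial.aeval (fun i => v' (e i)) F ≠ 0 := fun h =>
    hF ((injective_iff_map_eq_zero _).1 hind F h)
  refine ⟨h0, ?_⟩
  -- a polynomial which does not contain the variable
  let G : MvPolynomial {i : Fin l // i ≠ j} M := MvPolynomial.aeval
    (fun i => (Sum.elim (fun i => MvPolynomial.X i) fun a => MvPolynomial.C (⟨w a, hwM a⟩ : M) :
      {i : Fin l // i ≠ j} ⊕ Fin κ → MvPolynomial {i : Fin l // i ≠ j} M) (e i)) F
  have hG1 : MvPolynomial.aeval u (MvPolynomial.rename Subtype.val G) =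
      MvPolynomial.aeval (fun i => v' (e i)) F := by
    rw [aeval_rename_val]
    have h1 : ((MvPolynomial.aeval (fun i : {i : Fin l // i ≠ j} => u i) :
        MvPolynomial {i : Fin l // i ≠ j} M →ₐ[M] K).restrictScalars k).comp
        (MvPolynomial.aeval (fun i => (Sum.elim (fun i => MvPolynomial.X i)
          fun a => MvPolynomial.C (⟨w a, hwM a⟩ : M) :
          {i : Fin l // i ≠ j} ⊕ Fin κ → MvPolynomial {i : Fin l // i ≠ j} M) (e i))) =
        MvPolynomial.aeval fun i => v' (e i) := by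
      apply MvPolynomial.algHom_ext
      intro i
      rw [AlgHom.comp_apply, MvPolynomial.aeval_X, MvPolynomial.aeval_X, AlgHom.restrictScalars_apply]
      rcases e i with a | a
      · simp [v']
      · simp only [Sum.elim_inr, v']
        rw [MvPolynomial.aeval_C]
        rfl
    exact congrArg (fun φ => φ F) h1
  have hG0 : MvPolynomial.rename (Subtype.val : {i : Fin l // i ≠ j} → Fin l) G ≠ 0 := by
    intro h
    rw [h, map_zero] at hG1
    exact h0 hG1.symm
  change Q.ord _ = 0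
  rw [← hG1, (hQ _ hG0).2]
  rintro ⟨T, hT⟩
  have hT0 : T ≠ 0 := by
    rintro rfl
    apply hG0
    rw [hT, mul_zero]
  have h2 : MvPolynomial.degreeOf j (MvPolynomial.rename Subtype.val G) = 0 := by
    rw [MvPolynomial.degreeOf_eq_sup, ← Nat.bot_eq_zero, Finset.sup_eq_bot_iff]
    intro b hb
    have h3 := MvPolynomial.coeff_rename_ne_zero _ _ _ (MvPolynomial.mem_support_iff.1 hb)
    obtain ⟨b', hb', -⟩ := h3
    rw [← hb']
    rw [Finsupp.mapDomain_of_notMem_range]
    · rfl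
    · rintro ⟨i, hi⟩
      exact i.2 hi
  have h3 := congrArg (MvPolynomial.degreeOf j) hT
  rw [h2, MvPolynomial.degreeOf_mul_eq hg.ne_zero hT0] at h3
  omega

/-- the polynomial is a variable, up to a constant -/
def IsVar (g : MvPolynomial (Fin l) M) : Prop :=
  ∃ (j : Fin l) (c : M), c ≠ 0 ∧ g = MvPolynomial.C c * MvPolynomial.X j

omit [CharZero k] in
theorem isVar_of_dvd {g : MvPolynomial (Fin l) M} (hg : Irreducible g) {j : Fin l}
    (h : g ∣ MvPolynomial.X j) : IsVar g := by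
  obtain ⟨q, hq⟩ := h
  have hX : Irreducible (MvPolynomial.X j : MvPolynomial (Fin l) M) :=
    MvPolynomial.X_prime.irreducible
  have hu := (hX.isUnit_or_isUnit hq).resolve_left hg.not_isUnit
  rw [MvPolynomial.isUnit_iff_eq_C_of_isReduced] at hu
  obtain ⟨c, hc, rfl⟩ := hu
  have hc0 : c ≠ 0 := hc.ne_zero
  refine ⟨j, c⁻¹, inv_ne_zero hc0, ?_⟩
  rw [hq, mul_comm g, ← mul_assoc, ← map_mul, inv_mul_cancel₀ hc0, map_one, one_mul]

/-- the trivial fibration structure -/
theorem fb_triv (hM : Closed M) (hind : AlgebraicIndependent M u)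
    (htop : IntermediateField.adjoin k ((M : Set K) ∪ Set.range u) = ⊤) :
    Fb M M u IsVar (Fin.elim0 : Fin 0 → K) u := by
  classical
  have hu0 : ∀ j, u j ≠ 0 := fun j => hind.ne_zero j
  refine ⟨?_, fun i => i.elim0, ?_, fun D h _ => h, fun j => ⟨Pi.single j 1, (mono_single u j).symm⟩,
    fun i => ⟨1, one_mem _, Pi.single i 1, by rw [mono_single, one_mul]⟩, hind, htop⟩
  · apply le_antisymm
    · exact fun y hy => subset_acl _ (Or.inl hy)
    · refine acl_le hM ?_
      rintro y (hy | ⟨g, ⟨j, c, hc, rfl⟩, a, ha, rfl⟩)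
      · exact hy
      · have h1 : (MvPolynomial.C c * MvPolynomial.X j : MvPolynomial (Fin l) M) =
            MvPolynomial.monomial (Finsupp.single j 1) c := by
          rw [MvPolynomial.X, MvPolynomial.C_mul_monomial, mul_one]
        have h2 : MvPolynomial.aeval u (MvPolynomial.C c * MvPolynomial.X j) =
            trm u (MvPolynomial.C c * MvPolynomial.X j) a := by
          rw [aeval_eq]
          have h3 : (MvPolynomial.C c * MvPolynomial.X j : MvPolynomial (Fin l) M).support =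
              {a} := by
            rw [h1, MvPolynomial.support_monomial, if_neg hc] at ha ⊢
            rw [Finset.mem_singleton.1 ha]
          rw [h3, Finset.sum_singleton]
        rw [h2, div_self (trm_ne hu0 ha)]
        exact one_mem _
  · exact (algebraicIndependent_empty_type_iff).2 (algebraMap M K).injective

end

section

variable {K : Type} [Field K] [Algebra ℂ K] {N : ℕ} {y : Fin (N + 1) → K} {n : ℕ}

/-- The discrepancy of the place `Q` with respect to the pair `(X, Δ)` is nonnegative: some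
`r`-canonical form which generates `r (K_X + Δ)` at the centre of `Q` on `X` is regular along `Q`. -/
def NonnegDisc (y : Fin (N + 1) → K) (n : ℕ) (Δ : Place ℂ K → ℚ) (Q : Place ℂ K) : Prop :=
  ∃ r : ℕ, 0 < r ∧ ∃ η : (Fin n → Derivation ℂ K K) → K,
    IsPluri r η ∧ (∀ P, IsPrimeDivisor y P → Through y P Q → OrdEq P η (-(r * Δ P))) ∧
      OrdGe Q η 0

/-- **The order of a section on regular vector fields** at a place of nonnegative discrepancy. -/
theorem can_bound (hy : NormalModel y) {Δ A : Place ℂ K → ℚ} {Q : Place ℂ K}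
    (hQ : NonnegDisc y n Δ Q)
    {D : Fin n → Derivation ℂ K K} (hD : IsFrame D) (hDreg : ∀ i, DerReg Q (D i))
    {j : Fin (N + 1)} (hj : Centred y j Q) {s : K} (hs : s ∈ chart y j) (hs0 : s ≠ 0)
    (hsP : ∀ P, IsPrimeDivisor y P → Centred y j P → A P ≠ 0 → (⌈A P⌉₊ : ℤ) ≤ P.ord s) (m : ℕ)
    {ω : (Fin n → Derivation ℂ K K) → K} (hω : IsSection y n m (m • Δ + A) ω) :
    Ge Q (-(Q.ord s)) (ω D) := by
  classical
  obtain ⟨r, hr, η, hη, hηP, hηQ⟩ := hQ
  have hηD : η D ≠ 0 := by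
    intro h
    obtain ⟨P, hP, hPQ⟩ := exists_through hy Q
    obtain ⟨-, E, -, hE0, -⟩ := hηP P hP hPQ
    have h1 := pluri_zero hD hη h
    rw [h1] at hE0
    exact hE0 rfl
  have hηo : 0 ≤ Q.ord (η D) := by
    have := (hηQ D hDreg).resolve_left hηD
    exact_mod_cast this
  by_cases hωD : ω D = 0
  · exact Or.inl hωD
  right
  obtain ⟨F, hF⟩ : ∃ F, F = ω D ^ r * s ^ r / η D ^ m := ⟨_, rfl⟩
  have h1 : ω D ^ r ≠ 0 := pow_ne_zero _ hωD
  have h2 : s ^ r ≠ 0 := pow_ne_zero _ hs0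
  have h3 : η D ^ m ≠ 0 := pow_ne_zero _ hηD
  have hF0 : F ≠ 0 := by
    rw [hF]
    exact div_ne_zero (mul_ne_zero h1 h2) h3
  have hFreg : F ∈ localRing y Q := by
    refine mem_localRing_of_reg hy fun P hP hPQ => ?_
    have hPc := hPQ.centred hj
    obtain ⟨-, E, hE, hE0, hEo⟩ := hηP P hP hPQ
    choose C hC using fun i => hD (E i)
    have e1 : E = fun i => ∑ j, Matrix.of C i j • D j := funext hC
    have hE1 : η E = (Matrix.of C).det ^ r * η D := by
      conv_lhs => rw [e1]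
      exact hη _ _
    have hE2 : ω E = (Matrix.of C).det ^ m * ω D := by
      conv_lhs => rw [e1]
      exact hω.1 _ _
    obtain ⟨c, hc⟩ : ∃ c, c = (Matrix.of C).det := ⟨_, rfl⟩
    rw [← hc] at hE1 hE2
    have hc0 : c ≠ 0 := by
      rintro rfl
      rw [zero_pow hr.ne', zero_mul] at hE1
      exact hE0 hE1
    have hωE : ω E ≠ 0 := by
      rw [hE2]
      exact mul_ne_zero (pow_ne_zero _ hc0) hωD
    have hF' : F = ω E ^ r * s ^ r / η E ^ m := by
      rw [hF, hE1, hE2, mul_pow, mul_pow, ← pow_mul, ← pow_mul, mul_comm r m]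
      have h4 : c ^ (m * r) ≠ 0 := pow_ne_zero _ hc0
      field_simp
    have h4 : -((m • Δ + A) P) ≤ (P.ord (ω E) : ℚ) :=
      ((hω.2 P hP E hE).resolve_left hωE)
    have h5 : A P ≤ (P.ord s : ℚ) := by
      by_cases hAP : A P = 0
      · rw [hAP]
        have := (P.reg_iff hs0).1 (hPc.reg s hs)
        exact_mod_cast this
      · have h6 := hsP P hP hPc hAP
        have h7 : A P ≤ (⌈A P⌉₊ : ℚ) := Nat.le_ceil _
        exact h7.trans (by exact_mod_cast h6)
    rw [P.reg_iff hF0, hF', P.ord_div (mul_ne_zero (pow_ne_zero _ hωE) h2) (pow_ne_zero _ hE0),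
      P.ord_mul (pow_ne_zero _ hωE) h2, P.ord_pow, P.ord_pow, P.ord_pow]
    have h6 : (0 : ℚ) ≤ (r * P.ord (ω E) + r * P.ord s - m * P.ord (η E) : ℚ) := by
      rw [hEo]
      have e : (m • Δ + A) P = m * Δ P + A P := by
        rw [Pi.add_apply, Pi.smul_apply, nsmul_eq_mul]
      rw [e] at h4
      have hr' : (0 : ℚ) < r := by exact_mod_cast hr
      nlinarith
    exact_mod_cast h6
  have h4 := (Q.reg_iff hF0).1 (localRing_reg hFreg)
  rw [hF, Q.ord_div (mul_ne_zero h1 h2) h3, Q.ord_mul h1 h2, Q.ord_pow, Q.ord_pow,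
    Q.ord_pow] at h4
  have h5 : 0 ≤ (r : ℤ) * (Q.ord (ω D) + Q.ord s) := by
    have h6 : 0 ≤ (m : ℤ) * Q.ord (η D) := mul_nonneg (Int.natCast_nonneg m) hηo
    linarith
  have h6 : 0 ≤ Q.ord (ω D) + Q.ord s := by
    by_contra hcon
    push Not at hcon
    have hr' : (0 : ℤ) < r := by exact_mod_cast hr
    nlinarith
  omega

/-- **Sections are Laurent polynomials with bounded exponents.** -/
theorem lau_bound (hy : NormalModel y) (hn : Algebra.trdeg ℂ K = n) {Δ : Place ℂ K → ℚ}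
    (hLC : LogCanonical y n Δ) {M : IntermediateField ℂ K} (hM : Closed M) {l : ℕ}
    {u : Fin l → K} (hu : AlgebraicIndependent M u)
    (htop : IntermediateField.adjoin ℂ ((M : Set K) ∪ Set.range u) = ⊤)
    (hQ : ∀ g : MvPolynomial (Fin l) M, Irreducible g → ¬ IsVar g →
      ∃ Q, Adic Q u g ∧ NonnegDisc y n Δ Q)
    {D : Fin n → Derivation ℂ K K} (hD : IsFrame D) (hDM : ∀ i, ∀ x ∈ M, D i x ∈ M)
    (hDu : ∀ i j, ∃ γ ∈ M, D i (u j) = γ * u j) {A : Place ℂ K → ℚ} (hA : Effective y A) :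
    ∃ (p0 : MvPolynomial (Fin l) M) (b : ℕ), p0 ≠ 0 ∧ ∀ m : ℕ, 1 ≤ m → ∀ ω,
      IsSection y n m (m • Δ + A) ω → ∃ c : (Fin l → ℤ) →₀ M,
        ω D * MvPolynomial.aeval u p0 = (c.sum fun a m => (m : K) * mono u a) ∧
          ∀ a ∈ c.support, ∀ j, -(b : ℤ) ≤ a j ∧ a j ≤ b := by
  classical
  have hess := hy.ess
  have hG := gens_of_top hu htop
  have hu0 : ∀ j, u j ≠ 0 := fun j => hu.ne_zero j
  have fb := fb_triv hM hu htop
  -- the coordinates
  obtain ⟨κ, z, hzM, hz, hMz, hext⟩ := exists_coord hn hM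
  have hb := full_coord hMz (hext l u hu) htop
  have hnκ := card_coord hn hb
  -- the places at the ends of the fibres
  have hplace := fun (j : Fin l) (ε : ℤ) (hε : ε * ε = 1) =>
    place_eps (n := n) (κ := κ) hu htop hzM hext hnκ j hε
  have hbd : ∀ (j : Fin l) (ε : ℤ), ε * ε = 1 → ∃ Q : Place ℂ K,
      (∀ m ∈ M, m ≠ 0 → Q.ord m = 0) ∧ (∀ a : Fin l → ℤ, Q.ord (mono u a) = -(ε * a j)) ∧
      (∀ D : Derivation ℂ K K, (∀ x ∈ M, D x ∈ M) → (∀ i, ∃ γ ∈ M, D (u i) = γ * u i) →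
        DerLog Q D) ∧ ∃ b : ℕ, ∀ m : ℕ, 1 ≤ m → ∀ ω, IsSection y n m (m • Δ + A) ω →
          Ge Q (-(b : ℤ)) (ω D) := by
    intro j ε hε
    obtain ⟨Q, h1, h2, h3, h4⟩ := hplace j ε hε
    exact ⟨Q, h1, h2, h4, lc_bound hy hn hLC hA h3 hD fun i => h4 (D i) (hDM i) (hDu i)⟩
  choose Qp hQp1 hQp2 hQp3 bp hbp using fun j => hbd j 1 (by norm_num)
  choose Qm hQm1 hQm2 hQm3 bm hbm using fun j => hbd j (-1) (by norm_num)
  -- the functions with high orders in the charts
  have hhigh : ∀ j : Fin (N + 1), ∃ s : K, s ≠ 0 ∧ (y j ≠ 0 → s ∈ chart y j) ∧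
      ∀ P, IsPrimeDivisor y P → Centred y j P → A P ≠ 0 → (⌈A P⌉₊ : ℤ) ≤ P.ord s := by
    intro j
    obtain ⟨s, hs, hs0, hsP⟩ := exists_high (y := y) (j := j)
      (S := {P | IsPrimeDivisor y P ∧ Centred y j P ∧ A P ≠ 0})
      (hA.2.subset (by
        rintro P ⟨h1, -, h2⟩
        exact ⟨h1, h2⟩)) (fun P hP => hP.2.1) (fun P hP => hP.1) (fun P => ⌈A P⌉₊)
    exact ⟨s, hs0, fun _ => hs, fun P h1 h2 h3 => hsP P ⟨h1, h2, h3⟩⟩
  choose s hs0 hsc hsP using hhigh
  choose As Cs hCs hsA using fun j => hG.gen (s j)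
  have hAs : ∀ j, As j ≠ 0 := by
    intro j h
    have h1 := hsA j
    rw [h, map_zero, zero_div] at h1
    exact hs0 j h1
  obtain ⟨p0, hp0⟩ : ∃ p0, p0 = ∏ j, As j := ⟨_, rfl⟩
  have hp00 : p0 ≠ 0 := by
    rw [hp0]
    exact Finset.prod_ne_zero_iff.2 fun j _ => hAs j
  have hp0u := hG.ne hp00
  have hp0Q : ∀ (g : MvPolynomial (Fin l) M) (Q : Place ℂ K), Adic Q u g → ∀ j,
      Q.ord (s j) ≤ Q.ord (MvPolynomial.aeval u p0) := by
    intro g Q hQg j
    have h1 : As j ∣ p0 := by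
      rw [hp0]
      exact Finset.dvd_prod_of_mem _ (Finset.mem_univ j)
    obtain ⟨q, hq⟩ := h1
    have hq0 : q ≠ 0 := by
      rintro rfl
      rw [mul_zero] at hq
      exact hp00 hq
    have h2 := (hQg q hq0).1
    have h3 := (hQg _ (hCs j)).1
    rw [hq, map_mul, Q.ord_mul (hG.ne (hAs j)) (hG.ne hq0), hsA j,
      Q.ord_div (hG.ne (hAs j)) (hG.ne (hCs j))]
    omega
  -- the bound for the exponents
  obtain ⟨b, hbdef⟩ : ∃ b : ℕ, b = ∑ j, (bp j + (Qp j |>.ord (MvPolynomial.aeval u p0)).natAbs) +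
      ∑ j, (bm j + (Qm j |>.ord (MvPolynomial.aeval u p0)).natAbs) := ⟨_, rfl⟩
  have hbp' : ∀ j, bp j + (Qp j |>.ord (MvPolynomial.aeval u p0)).natAbs ≤ b := by
    intro j
    have := Finset.single_le_sum (f := fun j => bp j +
      (Qp j |>.ord (MvPolynomial.aeval u p0)).natAbs) (fun _ _ => Nat.zero_le _)
      (Finset.mem_univ j)
    omega
  have hbm' : ∀ j, bm j + (Qm j |>.ord (MvPolynomial.aeval u p0)).natAbs ≤ b := by
    intro j
    have := Finset.single_le_sum (f := fun j => bm j +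
      (Qm j |>.ord (MvPolynomial.aeval u p0)).natAbs) (fun _ _ => Nat.zero_le _)
      (Finset.mem_univ j)
    omega
  have hshift : ∀ (Q : Place ℂ K) (b' : ℕ) (f : K), b' + (Q.ord (MvPolynomial.aeval u p0)).natAbs ≤ b →
      Ge Q (-(b' : ℤ)) f → Ge Q (-(b : ℤ)) (f * MvPolynomial.aeval u p0) := by
    intro Q b' f h1 h2
    have h3 := h2.mul (ge_ord Q (MvPolynomial.aeval u p0))
    exact h3.mono (by omega)
  refine ⟨p0, b, hp00, fun m hm ω hω => ?_⟩
  by_cases hf0 : ω D = 0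
  · refine ⟨0, by rw [hf0, zero_mul, Finsupp.sum_zero_index], fun a ha => ?_⟩
    simp at ha
  have hF0 : ω D * MvPolynomial.aeval u p0 ≠ 0 := mul_ne_zero hf0 hp0u
  obtain ⟨A', C', hC'0, hC'B, hC'⟩ := denom hG hF0 (B := IsVar) fun g hg hBg => by
    obtain ⟨Q, hQg, hQd⟩ := hQ g hg hBg
    refine ⟨Q, hQg, ?_⟩
    obtain ⟨j, hj⟩ := exists_centred hy Q
    have h1 := (can_bound hy hQd hD (fun i => hQg.derReg hG hg (hDM i) (hDu i)) hj
      (hsc j hj.1) (hs0 j) (hsP j) m hω).resolve_left hf0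
    have h2 := hp0Q g Q hQg j
    rw [Q.reg_iff hF0, Q.ord_mul hf0 hp0u]
    omega
  have hlau := fb.lau_of_denom hu hC'0 hC'B hC'
  obtain ⟨c, hc⟩ := (Finsupp.mem_span_range_iff_exists_finsupp).1 hlau
  have hc' : ω D * MvPolynomial.aeval u p0 = c.sum fun a m => (m : K) * mono u a := by
    rw [← hc]
    rfl
  refine ⟨c, hc', fun a ha j => ?_⟩
  have h1 := lau_terms hu hc' (hQp1 j) (hQp2 j) (hQp3 j) (N := (b : ℤ))
    (hshift _ _ _ (hbp' j) (hbp j m hm ω hω)) ha
  have h2 := lau_terms hu hc' (hQm1 j) (hQm2 j) (hQm3 j) (N := (b : ℤ))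
    (hshift _ _ _ (hbm' j) (hbm j m hm ω hω)) ha
  constructor <;> omega

/-- **The upper bound for the number of sections.** -/
theorem upper_lau (hy : NormalModel y) (hn : Algebra.trdeg ℂ K = n) {Δ : Place ℂ K → ℚ}
    (hΔ : Effective y Δ) {M : IntermediateField ℂ K} (hM : Closed M) {l : ℕ}
    {u : Fin l → K} (hu : AlgebraicIndependent M u)
    (htop : IntermediateField.adjoin ℂ ((M : Set K) ∪ Set.range u) = ⊤)
    {D : Fin n → Derivation ℂ K K} {A : Place ℂ K → ℚ} (hA : Effective y A)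
    {p0 : MvPolynomial (Fin l) M} {b : ℕ} (hp0 : p0 ≠ 0)
    (hlau : ∀ m : ℕ, 1 ≤ m → ∀ ω,
      IsSection y n m (m • Δ + A) ω → ∃ c : (Fin l → ℤ) →₀ M,
        ω D * MvPolynomial.aeval u p0 = (c.sum fun a m => (m : K) * mono u a) ∧
          ∀ a ∈ c.support, ∀ j, -(b : ℤ) ≤ a j ∧ a j ≤ b) {p : ℕ} (hp : n = p + l) :
    ∃ C : ℕ, ∀ m : ℕ, 1 ≤ m → ∀ (r : ℕ) (f : Fin r → K), LinearIndependent ℂ f →
      (∀ i, ∃ ω, IsSection y n m (m • Δ + A) ω ∧ ω D = f i) → r ≤ C * m ^ p := by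
  classical
  have hess := hy.ess
  have hG := gens_of_top hu htop
  have hu0 : ∀ j, u j ≠ 0 := fun j => hu.ne_zero j
  obtain ⟨κ, z, hzM, hz, hMz, hext⟩ := exists_coord hn hM
  have hb := full_coord hMz (hext l u hu) htop
  have hnκ := card_coord hn hb
  obtain rfl : κ = p := by omega
  let e : Fin n ≃ Fin l ⊕ Fin κ :=
    (finCongr (by omega : n = l + κ)).trans finSumFinEquiv.symm
  have hZ : IsTranscendenceBasis ℂ (fun i => Sum.elim u z (e i)) := hb.comp_equiv e
  obtain ⟨S, hS⟩ := sec_fin hy hΔ hA D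
  obtain ⟨C, hC⟩ := growth_rel (a := κ) (l := l) hZ (fd_basis hZ) S
    (fun m => {f | ∃ ω, IsSection y n m (m • Δ + A) ω ∧ ω D = f})
    (by
      intro P
      obtain ⟨C, hC⟩ := sec_all hy hΔ hA D P
      refine ⟨C, ?_⟩
      rintro m hm _ ⟨ω, hω, rfl⟩
      exact hC m hm ω hω)
    (by
      rintro P hP m hm _ ⟨ω, hω, rfl⟩
      exact hS P hP m hm ω hω)
    hu (p := MvPolynomial.aeval u p0 * mono u (fun _ => (b : ℤ)))
    (mul_ne_zero (hG.ne hp0) (mono_ne hu0 _)) hnκ (2 * b + 1)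
    (by
      rintro m hm _ ⟨ω, hω, rfl⟩
      obtain ⟨c, hc, hcb⟩ := hlau m hm ω hω
      obtain ⟨b', hb'⟩ := box_sum hu0 hc (N := b) hcb
      exact ⟨b', by rw [← mul_assoc, hb']⟩)
  exact ⟨C, fun m hm r f hf h => hC m hm r f hf fun i => h i⟩

end

end Pool.Agent.D0H90.WA
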