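import Pool.Agent.D0H90.WA.Ram
import Pool.Agent.Y191.SmallFib

/-!
Sections of `N (K_X + Δ)` from log pluricanonical forms of a base and forms along the fibres: the
Jacobian of the ratios of the forms of the base.
-/

set_option autoImplicit false
set_option linter.unusedSectionVars false

open MvPolynomial Matrix FF Pool.Agent.W603.LV Pool.Agent.W602.GT Pool.Agent.TH585.SV
open Pool.Agent.TH766.MC Pool.Agent.Y191

namespace Pool.Agent.D0H90.WA

variable {K : Type} [Field K] [Algebra ℂ K] {p s : ℕ}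

/-- a frame adapted to a transcendence basis of a subfield -/
theorem exists_frameF {F : IntermediateField ℂ K} (hK : Algebra.trdeg ℂ K = (p + s : ℕ))
    (htr : Algebra.trdeg ℂ F = p) {x : Fin p → K} (hx : AlgebraicIndependent ℂ x)
    (hxL : ∀ j, x j ∈ F) :
    ∃ (u : Fin s → K) (Dt : Fin p → Derivation ℂ K K) (Du : Fin s → Derivation ℂ K K),
      Frame x u Dt Du ∧ ∀ f ∈ F, Hz Du f := by
  classical
  obtain ⟨xL, hxL'⟩ : ∃ xL : Fin p → F, ∀ j, (xL j : K) = x j :=
    ⟨fun j => ⟨x j, hxL j⟩, fun _ => rfl⟩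
  have hindL : AlgebraicIndependent ℂ xL := by
    refine AlgebraicIndependent.of_comp F.val ?_
    have : (F.val ∘ xL) = x := funext hxL'
    rw [this]
    exact hx
  have hbasL : IsTranscendenceBasis ℂ xL := by
    refine hindL.isTranscendenceBasis_of_trdeg_le ?_ ?_
    · rw [htr]
      exact Cardinal.natCast_lt_aleph0
    · rw [htr, Cardinal.mk_fin]
  have halg : ∀ f ∈ F, IsAlgebraic (IntermediateField.adjoin ℂ (Set.range x)) f := by
    intro f hf
    have h1 := hbasL.isAlgebraic_field.isAlgebraic ⟨f, hf⟩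
    have h2 : IntermediateField.adjoin ℂ (Set.range x) =
        (IntermediateField.adjoin ℂ (Set.range xL)).map F.val := by
      rw [IntermediateField.adjoin_map]
      congr 1
      ext z
      constructor
      · rintro ⟨j, rfl⟩
        exact ⟨_, ⟨j, rfl⟩, hxL' j⟩
      · rintro ⟨_, ⟨j, rfl⟩, rfl⟩
        exact ⟨j, (hxL' j).symm⟩
    obtain ⟨G, hG0, hG⟩ := h1
    let φ : IntermediateField.adjoin ℂ (Set.range xL) →+*
        IntermediateField.adjoin ℂ (Set.range x) :=
      { toFun := fun z => ⟨F.val z, by rw [h2]; exact ⟨z, z.2, rfl⟩⟩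
        map_one' := rfl
        map_mul' := fun _ _ => rfl
        map_zero' := rfl
        map_add' := fun _ _ => rfl }
    refine ⟨G.map φ, ?_, ?_⟩
    · rwa [Ne, Polynomial.map_eq_zero]
    · have h3 : Polynomial.eval₂ (algebraMap (IntermediateField.adjoin ℂ (Set.range x)) K) f
          (G.map φ) = F.val (Polynomial.aeval (⟨f, hf⟩ : F) G) := by
        rw [Polynomial.eval₂_map, Polynomial.aeval_def]
        change _ = (F.val : F →+* K) (Polynomial.eval₂ _ _ _)
        rw [Polynomial.hom_eval₂]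
        rfl
      rw [Polynomial.aeval_def, h3, hG, map_zero]
  have htrs : Algebra.trdeg F K = s := by
    have h1 := trdeg_add_eq ℂ F (A := K)
    rw [htr, hK] at h1
    push_cast at h1
    rw [add_comm, add_comm (p : Cardinal)] at h1
    exact (Cardinal.add_right_inj_of_lt_aleph0 (Cardinal.natCast_lt_aleph0 (n := p))).mp h1
  obtain ⟨t, ht⟩ := exists_isTranscendenceBasis F K
  have h1 := ht.cardinalMk_eq_trdeg
  rw [htrs] at h1
  obtain ⟨φ⟩ : Nonempty (Fin s ≃ t) := by
    rw [← Cardinal.eq, Cardinal.mk_fin]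
    exact h1.symm
  obtain ⟨u, hu⟩ : ∃ u : Fin s → K, IsTranscendenceBasis F u :=
    ⟨fun i => (φ i : K), ht.comp_equiv φ⟩
  have h2 := hindL.sumElim_comp hu.1
  have h3 : (algebraMap F K ∘ xL) = x := funext hxL'
  rw [h3] at h2
  have h4 : AlgebraicIndependent ℂ (Sum.elim x u) := by
    have := h2.comp (Equiv.sumComm (Fin p) (Fin s)) (Equiv.injective _)
    have h5 : (Sum.elim u x) ∘ (Equiv.sumComm (Fin p) (Fin s)) = Sum.elim x u := by
      funext i
      rcases i with i | i <;> rfl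
    rwa [h5] at this
  have h6 : IsTranscendenceBasis ℂ (Sum.elim x u) := by
    refine h4.isTranscendenceBasis_of_trdeg_le ?_ ?_
    · rw [hK]
      exact Cardinal.natCast_lt_aleph0
    · rw [hK, Cardinal.mk_sum, Cardinal.mk_fin, Cardinal.mk_fin]
      push_cast
      simp
  obtain ⟨Dt, Du, Fr⟩ := exists_frame h6
  exact ⟨u, Dt, Du, Fr, fun f hf l => der_alg0 (Du l) (S := Set.range x) (by
    rintro _ ⟨j, rfl⟩
    exact Fr.ut l j) (halg f hf)⟩

/-- The behaviour at the place `P` of the forms `η` and `g j η`: they are regular, or they have at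
most logarithmic poles and `(1 - δ) ((p + 1) m + 1) ≤ τ e`, where `e` is the ramification index. -/
def Mult (P : Place ℂ K) (x : Fin p → K) (g : Fin p → K) (h : K) (m : ℕ) (δ τ : ℝ) : Prop :=
  (∀ E : Fin p → Derivation ℂ K K, (∀ i, DerReg P (E i)) →
    Ge P 0 (h * (mtx x E).det ^ m) ∧ ∀ j, Ge P 0 (g j * (h * (mtx x E).det ^ m))) ∨
  ((∀ E : Fin p → Derivation ℂ K K, (∀ i, DerReg P (E i)) →
    Ge P (-(m : ℤ)) (h * (mtx x E).det ^ m) ∧
      ∀ j, Ge P (-(m : ℤ)) (g j * (h * (mtx x E).det ^ m))) ∧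
    (∃ f ∈ IntermediateField.adjoin ℂ (Set.range g), f ≠ 0 ∧ P.ord f ≠ 0) ∧
    ∃ e : ℕ, (∀ f ∈ IntermediateField.adjoin ℂ (Set.range g), f ≠ 0 → (e : ℤ) ∣ P.ord f) ∧
      (1 - δ) * ((p + 1) * m + 1) ≤ τ * e)

/-- **The sections of the base and of the fibres.** -/
theorem base_kod {F : IntermediateField ℂ K} (hK : Algebra.trdeg ℂ K = (p + s : ℕ))
    (htr : Algebra.trdeg ℂ F = p) {x : Fin p → K} (hx : AlgebraicIndependent ℂ x)
    (hxF : ∀ j, x j ∈ F) {g : Fin p → K} (hg : AlgebraicIndependent ℂ g) (hgF : ∀ j, g j ∈ F)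
    {h : K} (hh : h ≠ 0) {m : ℕ} {τ : ℝ} (hτ : τ < 1)
    {X : Set (Place ℂ K)} {δ₁ δ₂ δ : Place ℂ K → ℝ} (hδ : ∀ P ∈ X, δ₁ P + δ₂ P ≤ δ P)
    (hδ0 : ∀ P ∈ X, 0 ≤ δ₁ P)
    (hmult : ∀ P ∈ X, Divisorial (p + s) P → Mult P x g h m (δ₁ P) τ)
    {m1 lam : ℕ} (hm1 : 0 < m1) {θ : Fin (lam + 1) → (Fin s → Derivation F K K) → K}
    (hθ : ∀ j, FibSec (p + s) m1 X δ₂ F (θ j))
    (hne : ∃ G, θ 0 G ≠ 0 ∧
      AlgebraicIndependent F (fun i : Fin lam => θ i.succ G / θ 0 G)) :
    KodairaGe (p + s) X δ (p + lam) := by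
  classical
  obtain ⟨u, Dt, Du, Fr, hHz⟩ := exists_frameF hK htr hx hxF
  -- the Jacobian
  obtain ⟨κ0, hκ0⟩ : ∃ κ0 : K, κ0 = (Matrix.of fun l j => Dt l (g j) : Matrix (Fin p) (Fin p) K).det :=
    ⟨_, rfl⟩
  have hjac : ∀ E : Fin p → Derivation ℂ K K,
      (Matrix.of fun i j => E i (g j) : Matrix (Fin p) (Fin p) K).det = (mtx x E).det * κ0 := by
    intro E
    rw [hκ0, ← Matrix.det_mul]
    congr 1
    ext i j
    rw [Matrix.mul_apply, Matrix.of_apply, Fr.eq (E i) (g j)]
    have h1 : ∑ l, E i (u l) * Du l (g j) = 0 :=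
      Finset.sum_eq_zero fun l _ => by rw [hHz _ (hgF j) l, mul_zero]
    rw [h1, add_zero]
    rfl
  have hκ0' : κ0 ≠ 0 := by
    obtain ⟨D, hD⟩ := exists_dual hg
    intro h0
    have h1 := hjac D
    rw [h0, mul_zero] at h1
    have h2 : (Matrix.of fun i j => D i (g j) : Matrix (Fin p) (Fin p) K) = 1 := by
      ext i j
      rw [Matrix.of_apply, hD, Matrix.one_apply]
    rw [h2, Matrix.det_one] at h1
    exact one_ne_zero h1
  -- the exponents
  obtain ⟨A, hA1, hA⟩ : ∃ A : ℕ, 1 ≤ A ∧ τ * (A + 1) ≤ A := by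
    obtain ⟨A, hA⟩ := exists_nat_ge (τ / (1 - τ))
    refine ⟨A + 1, by omega, ?_⟩
    have h1 : 0 < 1 - τ := by linarith
    rw [div_le_iff₀ h1] at hA
    push_cast
    nlinarith
  obtain ⟨M, hM⟩ : ∃ M : ℕ, M = A * (m * (p + 1) + 1) + m := ⟨_, rfl⟩
  have hM0 : 0 < M := by
    rw [hM]
    have : 0 < A * (m * (p + 1) + 1) := Nat.mul_pos hA1 (by omega)
    omega
  obtain ⟨w, hw⟩ : ∃ w : Fin (p + 1) → K, w = Fin.cons 1 g := ⟨_, rfl⟩
  have hw0 : w 0 = 1 := by rw [hw]; rfl
  have hws : ∀ j : Fin p, w j.succ = g j := fun j => by rw [hw]; rfl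
  have hwne : ∀ j, w j ≠ 0 := by
    intro j
    refine Fin.cases ?_ (fun j => ?_) j
    · rw [hw0]
      exact one_ne_zero
    · rw [hws]
      exact hg.ne_zero j
  have hwF : ∀ j, w j ∈ F := by
    intro j
    refine Fin.cases ?_ (fun j => ?_) j
    · rw [hw0]
      exact one_mem _
    · rw [hws]
      exact hgF j
  have hwG : ∀ j, w j ∈ IntermediateField.adjoin ℂ (Set.range g) := by
    intro j
    refine Fin.cases ?_ (fun j => ?_) j
    · rw [hw0]
      exact one_mem _
    · rw [hws]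
      exact IntermediateField.subset_adjoin ℂ _ ⟨j, rfl⟩
  have hgtr : Algebra.trdeg ℂ (IntermediateField.adjoin ℂ (Set.range g)) = p := by
    obtain ⟨gL, hgL⟩ : ∃ gL : Fin p → IntermediateField.adjoin ℂ (Set.range g),
        ∀ j, (gL j : K) = g j :=
      ⟨fun j => ⟨g j, IntermediateField.subset_adjoin ℂ _ ⟨j, rfl⟩⟩, fun _ => rfl⟩
    have h1 : AlgebraicIndependent ℂ gL := by
      refine AlgebraicIndependent.of_comp (IntermediateField.adjoin ℂ (Set.range g)).val ?_
      have : ((IntermediateField.adjoin ℂ (Set.range g)).val ∘ gL) = g := funext hgL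
      rw [this]
      exact hg
    refine le_antisymm ?_ ?_
    · have hle : IntermediateField.adjoin ℂ (Set.range g) ≤ F := by
        rw [IntermediateField.adjoin_le_iff]
        rintro _ ⟨j, rfl⟩
        exact hgF j
      rw [← htr]
      exact trdeg_le_of_injective (IntermediateField.inclusion hle)
        (IntermediateField.inclusion hle).toRingHom.injective
    · have h2 := h1.cardinalMk_le_trdeg
      rwa [Cardinal.mk_fin] at h2
  -- the identity
  have hid : ∀ E : Fin p → Derivation ℂ K K, ∀ a,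
      (mtx x E).det ^ M * ((h ^ (p + 1) * κ0) ^ A * h * w a) =
        ((h * (mtx x E).det ^ m) ^ (p + 1) * (wmat w E).det) ^ A *
          (w a * (h * (mtx x E).det ^ m)) := by
    intro E a
    have h1 : (wmat w E).det = (mtx x E).det * κ0 := by
      rw [hw, wmat_one, hjac]
    rw [h1, hM]
    ring
  -- the estimates
  have hest : ∀ P ∈ X, Divisorial (p + s) P → ∀ E : Fin p → Derivation ℂ K K,
      (∀ i, DerReg P (E i)) → ∀ a, ∃ c' : ℤ,
        Ge P c' ((mtx x E).det ^ M * ((h ^ (p + 1) * κ0) ^ A * h * w a)) ∧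
          -(M * δ₁ P) ≤ (c' : ℝ) := by
    intro P hPX hPd E hE a
    rw [hid]
    -- the function of minimal order
    obtain ⟨j0, -, hj0⟩ := Finset.exists_min_image Finset.univ (fun j => P.ord (w j))
      ⟨0, Finset.mem_univ _⟩
    obtain ⟨f, hf⟩ : ∃ f : Fin (p + 1) → K, ∀ j, f j = w j / w j0 := ⟨_, fun _ => rfl⟩
    have hfreg : ∀ j, P.Reg (f j) := by
      intro j
      right
      rw [hf, P.ord_div (hwne j) (hwne j0)]
      have := hj0 j (Finset.mem_univ _)
      omega
    have hfG : ∀ j, f j ∈ IntermediateField.adjoin ℂ (Set.range g) := fun j => by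
      rw [hf]
      exact div_mem (hwG j) (hwG j0)
    have hwf : w = fun j => w j0 * f j := by
      funext j
      rw [hf, mul_div_cancel₀ _ (hwne j0)]
    have hW : (wmat w E).det = w j0 ^ (p + 1) * (wmat f E).det := by
      conv_lhs => rw [hwf]
      exact wmat_smul f (w j0) E
    have hre : (h * (mtx x E).det ^ m) ^ (p + 1) * (wmat w E).det =
        (w j0 * (h * (mtx x E).det ^ m)) ^ (p + 1) * (wmat f E).det := by
      rw [hW]
      ring
    rw [hre]
    rcases hmult P hPX hPd with hm | ⟨hm, hnt, e, he, hle⟩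
    · have h1 := hm E hE
      have h2 : ∀ j, Ge P 0 (w j * (h * (mtx x E).det ^ m)) := by
        intro j
        refine Fin.cases ?_ (fun j => ?_) j
        · rw [hw0, one_mul]
          exact h1.1
        · rw [hws]
          exact h1.2 j
      refine ⟨0, ?_, ?_⟩
      · have h3 := ((((h2 j0).pow (p + 1)).mul (wmat_ge hfreg hE)).pow A).mul (h2 a)
        simpa using h3
      · have := hδ0 P hPX
        push_cast
        have h4 : (0 : ℝ) ≤ M * δ₁ P := by positivity
        linarith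
    · have h1 := hm E hE
      have h2 : ∀ j, Ge P (-(m : ℤ)) (w j * (h * (mtx x E).det ^ m)) := by
        intro j
        refine Fin.cases ?_ (fun j => ?_) j
        · rw [hw0, one_mul]
          exact h1.1
        · rw [hws]
          exact h1.2 j
      refine ⟨_, ((((h2 j0).pow (p + 1)).mul (wmat_ram hgtr hnt he hfG hfreg hE)).pow A).mul
        (h2 a), ?_⟩
      have h3 : (((A : ℤ) * (((p + 1 : ℕ) : ℤ) * -(m : ℤ) + ((e : ℤ) - 1)) + -(m : ℤ) : ℤ) : ℝ) =
          A * e - M := by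
        rw [hM]
        push_cast
        ring
      rw [h3]
      -- `M (1 - δ₁) ≤ A e`
      have hAr : (1 : ℝ) ≤ A := by exact_mod_cast hA1
      have hmr : (0 : ℝ) ≤ m := Nat.cast_nonneg m
      have hpr : (0 : ℝ) ≤ p := Nat.cast_nonneg p
      have her : (0 : ℝ) ≤ e := Nat.cast_nonneg e
      have hMr : (M : ℝ) = A * (m * (p + 1) + 1) + m := by
        rw [hM]
        push_cast
        ring
      have hMle : (M : ℝ) ≤ (A + 1) * ((p + 1) * m + 1) := by
        rw [hMr]
        nlinarith [mul_nonneg hmr hpr]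
      have h4 : (M : ℝ) * (1 - δ₁ P) ≤ A * e := by
        by_cases h5 : 0 ≤ 1 - δ₁ P
        · have h6 : (M : ℝ) * (1 - δ₁ P) ≤ (A + 1) * ((p + 1) * m + 1) * (1 - δ₁ P) :=
            mul_le_mul_of_nonneg_right hMle h5
          have h7 : (A + 1) * ((p + 1) * m + 1) * (1 - δ₁ P) ≤ (A + 1) * (τ * e) := by
            have h8 : (A + 1 : ℝ) * ((1 - δ₁ P) * ((p + 1) * m + 1)) ≤ (A + 1) * (τ * e) :=
              mul_le_mul_of_nonneg_left hle (by linarith)
            linarith
          have h8 : (A + 1 : ℝ) * (τ * e) ≤ A * e := by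
            have h9 : (τ * (A + 1)) * (e : ℝ) ≤ A * e := mul_le_mul_of_nonneg_right hA her
            linarith
          linarith
        · push Not at h5
          have h6 : (M : ℝ) * (1 - δ₁ P) ≤ 0 :=
            mul_nonpos_of_nonneg_of_nonpos (Nat.cast_nonneg M) h5.le
          have h7 : (0 : ℝ) ≤ A * e := by positivity
          linarith
      linarith
  obtain ⟨ω, h1, D, h2, h3⟩ := Fr.pairs (κ := p) (w := w) hHz hxF hδ hm1
    (fun b => (hθ b).1) (fun P hPX hPd G hG b => (hθ b).2 P hPX hPd G hG) hne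
    (M := M) hM0 (f := (h ^ (p + 1) * κ0) ^ A * h)
    (mul_ne_zero (pow_ne_zero _ (mul_ne_zero (pow_ne_zero _ hh) hκ0')) hh) hw0
    (by
      have : (fun i : Fin p => w i.succ) = g := funext hws
      rw [this]
      exact hg) hwF hest
  exact ⟨M * m1, Nat.mul_pos hM0 hm1, ω, h1, D, h2, h3⟩

end Pool.Agent.D0H90.WA
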