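import Pool.Agent.Y191.Base
import Pool.Agent.Y172.Adic

/-!
Generalised Wronskian determinants of functions of a subfield at a place which is ramified over the
subfield.
-/

set_option autoImplicit false
set_option linter.unusedSectionVars false

open FF Pool.Agent.W602.GT Pool.Agent.W603.LV MvPolynomial

namespace Pool.Agent.D0H90.WA

section basics

theorem split_X {R : Type} [CommRing R] [IsDomain R] {Q : Polynomial R} (hQ : Q ≠ 0) :
    ∃ Q' : Polynomial R, Q = Polynomial.X ^ Q.natTrailingDegree * Q' ∧ Q'.coeff 0 ≠ 0 := by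
  obtain ⟨Q', hQ'⟩ := Polynomial.X_pow_dvd_iff.2 fun d hd =>
    Polynomial.coeff_eq_zero_of_lt_natTrailingDegree (p := Q) hd
  refine ⟨Q', hQ', ?_⟩
  have h1 := congrArg (fun q => Polynomial.coeff q Q.natTrailingDegree) hQ'
  have h2 : (Polynomial.X ^ Q.natTrailingDegree * Q').coeff Q.natTrailingDegree =
      Q'.coeff 0 := by
    have := Polynomial.coeff_X_pow_mul Q' Q.natTrailingDegree 0
    rwa [zero_add] at this
  rw [h2] at h1
  rw [← h1]
  exact Polynomial.trailingCoeff_nonzero_iff_nonzero.2 hQ

variable {k K : Type} [Field k] [Field K] [Algebra k K]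

theorem ge_prod_sub {P : Place k K} {e : ℤ} {ι : Type} (s : Finset ι) (a b : ι → K)
    (ha : ∀ i, Ge P 0 (a i)) (hb : ∀ i, Ge P 0 (b i)) (hab : ∀ i, Ge P e (a i - b i)) :
    Ge P 0 (∏ i ∈ s, a i) ∧ Ge P 0 (∏ i ∈ s, b i) ∧ Ge P e (∏ i ∈ s, a i - ∏ i ∈ s, b i) := by
  classical
  induction s using Finset.induction_on with
  | empty => exact ⟨by simpa using Ge.one, by simpa using Ge.one, by simpa using Ge.zero⟩
  | insert i s hi ih =>
    obtain ⟨h1, h2, h3⟩ := ih
    rw [Finset.prod_insert hi, Finset.prod_insert hi]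
    refine ⟨by simpa using (ha i).mul h1, by simpa using (hb i).mul h2, ?_⟩
    have e1 : a i * ∏ x ∈ s, a x - b i * ∏ x ∈ s, b x =
        (a i - b i) * ∏ x ∈ s, a x + b i * (∏ x ∈ s, a x - ∏ x ∈ s, b x) := by ring
    rw [e1]
    refine Ge.add ?_ ?_
    · simpa using (hab i).mul h1
    · simpa using (hb i).mul h3

/-- determinants of matrices which are congruent modulo `π ^ e` are congruent -/
theorem ge_det_sub {P : Place k K} {e : ℤ} {m : ℕ} (M M' : Matrix (Fin m) (Fin m) K)
    (h1 : ∀ i j, Ge P 0 (M i j)) (h2 : ∀ i j, Ge P 0 (M' i j))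
    (h3 : ∀ i j, Ge P e (M i j - M' i j)) : Ge P e (M.det - M'.det) := by
  rw [Matrix.det_apply', Matrix.det_apply', ← Finset.sum_sub_distrib]
  refine Ge.sum _ _ fun σ _ => ?_
  rw [← mul_sub]
  have h4 := (ge_prod_sub Finset.univ (fun i => M (σ i) i) (fun i => M' (σ i) i)
    (fun i => h1 _ _) (fun i => h2 _ _) fun i => h3 _ _).2.2
  simpa using (Ge.intCast (P := P) (Equiv.Perm.sign σ : ℤ)).mul h4

/-- the matrix with the rows `f` and `E i f` -/
def wmat {p : ℕ} (f : Fin (p + 1) → K) (E : Fin p → Derivation k K K) :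
    Matrix (Fin (p + 1)) (Fin (p + 1)) K :=
  Matrix.of (Fin.cons f fun i j => E i (f j))

@[simp] theorem wmat_zero {p : ℕ} (f : Fin (p + 1) → K) (E : Fin p → Derivation k K K)
    (j : Fin (p + 1)) : wmat f E 0 j = f j := rfl

@[simp] theorem wmat_succ {p : ℕ} (f : Fin (p + 1) → K) (E : Fin p → Derivation k K K)
    (i : Fin p) (j : Fin (p + 1)) : wmat f E i.succ j = E i (f j) := rfl

/-- a block matrix with a `1` -/
def bmat {p : ℕ} (M : Matrix (Fin p) (Fin p) K) : Matrix (Fin (p + 1)) (Fin (p + 1)) K :=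
  Matrix.of (Fin.cons (Fin.cons 1 fun _ => 0) fun i => Fin.cons 0 fun j => M i j)

theorem bmat_det {p : ℕ} (M : Matrix (Fin p) (Fin p) K) : (bmat M).det = M.det := by
  rw [Matrix.det_succ_row_zero, Fin.sum_univ_succ, Finset.sum_eq_zero, add_zero]
  · have h1 : bmat M 0 0 = 1 := rfl
    rw [h1]
    simp only [Fin.val_zero, pow_zero, one_mul]
    congr 1
  · intro i _
    have h1 : bmat M 0 i.succ = 0 := rfl
    rw [h1, mul_zero, zero_mul]

/-- a change of the vector fields -/
theorem wmat_change {p : ℕ} (f : Fin (p + 1) → K) (M : Matrix (Fin p) (Fin p) K)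
    (E : Fin p → Derivation k K K) :
    (wmat f fun i => ∑ j, M i j • E j).det = M.det * (wmat f E).det := by
  rw [← bmat_det M, ← Matrix.det_mul]
  congr 1
  ext i j
  rw [Matrix.mul_apply, Fin.sum_univ_succ]
  refine Fin.cases ?_ (fun i => ?_) i
  · rw [wmat_zero, wmat_zero, Finset.sum_eq_zero, add_zero]
    · have h1 : bmat M 0 0 = 1 := rfl
      rw [h1, one_mul]
    · intro l _
      have h1 : bmat M 0 l.succ = 0 := rfl
      rw [h1, zero_mul]
  · rw [wmat_succ]
    have h1 : bmat M i.succ 0 = 0 := rfl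
    rw [h1, zero_mul, zero_add]
    have h2 : (∑ j, M i j • E j) (f j) = ∑ l, M i l * E l (f j) := by
      have : ∀ s : Finset (Fin p), (∑ l ∈ s, M i l • E l) (f j) = ∑ l ∈ s, M i l * E l (f j) := by
        intro s
        classical
        induction s using Finset.induction_on with
        | empty => simp
        | insert a s ha ih =>
          rw [Finset.sum_insert ha, Finset.sum_insert ha, Derivation.add_apply, ih,
            Derivation.smul_apply, smul_eq_mul]
      exact this _
    rw [h2]
    refine Finset.sum_congr rfl fun l _ => ?_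
    rw [wmat_succ]
    rfl

/-- multiplication with a function -/
theorem wmat_smul {p : ℕ} (f : Fin (p + 1) → K) (c : K) (E : Fin p → Derivation k K K) :
    (wmat (fun j => c * f j) E).det = c ^ (p + 1) * (wmat f E).det := by
  obtain ⟨N, hN⟩ : ∃ N : Matrix (Fin (p + 1)) (Fin (p + 1)) K, N = Matrix.of
    (Fin.cons (Fin.cons c fun _ => 0) fun i => Fin.cons (E i c) fun j => if i = j then c else 0) :=
    ⟨_, rfl⟩
  have h0 : N.det = c ^ (p + 1) := by
    rw [Matrix.det_of_isLowerTriangular N]
    · rw [Fin.prod_univ_succ]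
      have h1 : N 0 0 = c := by rw [hN]; rfl
      have h2 : ∀ i : Fin p, N i.succ i.succ = c := fun i => by
        rw [hN]
        simp
      rw [h1, Finset.prod_congr rfl fun i _ => h2 i, Finset.prod_const, Finset.card_univ,
        Fintype.card_fin, pow_succ']
    · intro i j hij
      revert hij
      refine Fin.cases ?_ (fun i => ?_) i
      · refine Fin.cases ?_ (fun j => ?_) j
        · intro h
          exact absurd h (lt_irrefl _)
        · intro _
          rw [hN]
          rfl
      · refine Fin.cases ?_ (fun j => ?_) j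
        · intro h
          exact absurd h (not_lt.2 (Fin.zero_le _))
        · intro h
          rw [hN]
          have h1 : i ≠ j := by
            rintro rfl
            exact lt_irrefl _ h
          simp [h1]
  rw [← h0, ← Matrix.det_mul]
  congr 1
  ext i j
  rw [Matrix.mul_apply, Fin.sum_univ_succ]
  refine Fin.cases ?_ (fun i => ?_) i
  · have h1 : N 0 0 = c := by rw [hN]; rfl
    have h2 : ∀ l : Fin p, N 0 l.succ = 0 := fun l => by rw [hN]; rfl
    rw [wmat_zero, wmat_zero, h1, Finset.sum_eq_zero, add_zero]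
    intro l _
    rw [h2, zero_mul]
  · have h1 : N i.succ 0 = E i c := by rw [hN]; rfl
    have h2 : ∀ l : Fin p, N i.succ l.succ = if i = l then c else 0 := fun l => by
      rw [hN]
      simp
    rw [wmat_succ, wmat_zero, h1, Finset.sum_eq_single i]
    · rw [h2, if_pos rfl, wmat_succ, (E i).leibniz]
      simp only [smul_eq_mul]
      ring
    · intro l _ hl
      rw [h2, if_neg hl.symm, zero_mul]
    · intro h
      exact absurd (Finset.mem_univ _) h

/-- the first function is `1` -/
theorem wmat_one {p : ℕ} (g : Fin p → K) (E : Fin p → Derivation k K K) :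
    (wmat (Fin.cons 1 g) E).det = (Matrix.of fun i j => E i (g j)).det := by
  rw [Matrix.det_succ_column_zero, Fin.sum_univ_succ, Finset.sum_eq_zero, add_zero]
  · have h1 : wmat (Fin.cons 1 g) E 0 0 = 1 := rfl
    rw [h1]
    simp only [Fin.val_zero, pow_zero, one_mul]
    congr 1
  · intro i _
    have h1 : wmat (Fin.cons 1 g) E i.succ 0 = 0 := by
      rw [wmat_succ]
      change E i 1 = 0
      exact (E i).map_one_eq_zero
    rw [h1, mul_zero, zero_mul]

theorem wmat_ge {P : Place k K} {p : ℕ} {f : Fin (p + 1) → K} (hf : ∀ j, P.Reg (f j))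
    {E : Fin p → Derivation k K K} (hE : ∀ i, DerReg P (E i)) : Ge P 0 (wmat f E).det := by
  refine ge_det P _ 0 (fun _ _ => 0) (fun i j => ?_) fun σ => by simp
  refine Fin.cases ?_ (fun i => ?_) i
  · exact hf j
  · exact hE i _ (hf j)

end basics

section ram

variable {k K : Type} [Field k] [CharZero k] [Field K] [Algebra k K]

/-- the residues of the `u i` are algebraically independent -/
def Res (P : Place k K) {r : ℕ} (u : Fin r → K) : Prop :=
  ∀ G : MvPolynomial (Fin r) k, G ≠ 0 → aeval u G ≠ 0 ∧ P.ord (aeval u G) = 0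

omit [CharZero k] in
theorem Res.reg {P : Place k K} {r : ℕ} {u : Fin r → K} (h : Res P u) (i : Fin r) :
    P.ord (u i) = 0 ∧ u i ≠ 0 := by
  have h1 := h (X i) (X_ne_zero i)
  rw [aeval_X] at h1
  exact ⟨h1.2, h1.1⟩

omit [CharZero k] in
theorem reg_aeval {P : Place k K} {r : ℕ} {u : Fin r → K} (h : ∀ i, P.Reg (u i))
    (G : MvPolynomial (Fin r) k) : P.Reg (aeval u G) := by
  induction G using MvPolynomial.induction_on with
  | C a => rw [aeval_C]; exact P.reg_const a
  | add p q hp hq => rw [map_add]; exact P.reg_add hp hq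
  | mul_X p i hp => rw [map_mul, aeval_X]; exact P.reg_mul hp (h i)

omit [CharZero k] in
/-- a family with independent residues and a function of positive order are independent -/
theorem Res.indep {P : Place k K} {r : ℕ} {u : Fin r → K} (h : Res P u) {π : K} (hπ : π ≠ 0)
    (hπ1 : 0 < P.ord π) : AlgebraicIndependent k (Fin.cons π u : Fin (r + 1) → K) := by
  classical
  rw [algebraicIndependent_iff]
  intro H hH
  by_contra hH0
  -- as a polynomial in the first variable
  have e1 : ∀ G : MvPolynomial (Fin (r + 1)) k, aeval (Fin.cons π u : Fin (r + 1) → K) G =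
      Polynomial.eval₂ ((aeval u : MvPolynomial (Fin r) k →ₐ[k] K) : MvPolynomial (Fin r) k →+* K) π
        (finSuccEquiv k r G) := by
    intro G
    induction G using MvPolynomial.induction_on with
    | C a =>
      rw [aeval_C]
      have : finSuccEquiv k r (C a) = Polynomial.C (C a) := by
        rw [finSuccEquiv_apply]
        simp
      rw [this, Polynomial.eval₂_C]
      simp
    | add p q hp hq => rw [map_add, hp, hq, map_add, Polynomial.eval₂_add]
    | mul_X p i hp =>
      rw [map_mul, hp, map_mul, Polynomial.eval₂_mul, aeval_X]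
      congr 1
      refine Fin.cases ?_ (fun j => ?_) i
      · rw [finSuccEquiv_X_zero, Polynomial.eval₂_X]
        rfl
      · rw [finSuccEquiv_X_succ, Polynomial.eval₂_C]
        simp
  rw [e1] at hH
  obtain ⟨Q, hQ⟩ : ∃ Q, Q = finSuccEquiv k r H := ⟨_, rfl⟩
  rw [← hQ] at hH
  have hQ0 : Q ≠ 0 := by
    rw [hQ]
    intro h0
    exact hH0 ((finSuccEquiv k r).injective (by rw [h0, map_zero]))
  -- the term of lowest degree
  obtain ⟨Q', hQ', hQ'0⟩ : ∃ Q' : Polynomial (MvPolynomial (Fin r) k),
      Q = Polynomial.X ^ Q.natTrailingDegree * Q' ∧ Q'.coeff 0 ≠ 0 := by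
    exact split_X hQ0
  rw [hQ', Polynomial.eval₂_mul, Polynomial.eval₂_pow, Polynomial.eval₂_X] at hH
  have h3 := (mul_eq_zero.1 hH).resolve_left (pow_ne_zero _ hπ)
  -- the value of `Q'`
  have h4 : Q' = Polynomial.X * Q'.divX + Polynomial.C (Q'.coeff 0) :=
    (Polynomial.X_mul_divX_add Q').symm
  rw [h4, Polynomial.eval₂_add, Polynomial.eval₂_mul, Polynomial.eval₂_X, Polynomial.eval₂_C] at h3
  obtain ⟨h5, h6⟩ := h _ hQ'0
  have hreg : ∀ R : Polynomial (MvPolynomial (Fin r) k), Ge P 0 (Polynomial.eval₂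
      ((aeval u : MvPolynomial (Fin r) k →ₐ[k] K) : MvPolynomial (Fin r) k →+* K) π R) := by
    intro R
    rw [Polynomial.eval₂_eq_sum_range]
    refine Ge.sum _ _ fun i _ => ?_
    have h7 : Ge P 0 (aeval u (R.coeff i)) := reg_aeval (fun i => Or.inr (h.reg i).1.ge) _
    have h8 : Ge P 0 (π ^ i) := by
      have : Ge P 0 π := Or.inr hπ1.le
      simpa using this.pow i
    simpa using h7.mul h8
  have h7 : Ge P 1 (π * Polynomial.eval₂
      ((aeval u : MvPolynomial (Fin r) k →ₐ[k] K) : MvPolynomial (Fin r) k →+* K) π Q'.divX) := by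
    have h8 : Ge P 1 π := Or.inr hπ1
    simpa using h8.mul (hreg Q'.divX)
  have h8 : Ge P 1 (aeval u (Q'.coeff 0)) := by
    have h9 : aeval u (Q'.coeff 0) = -(π * Polynomial.eval₂
      ((aeval u : MvPolynomial (Fin r) k →ₐ[k] K) : MvPolynomial (Fin r) k →+* K) π Q'.divX) :=
      eq_neg_of_add_eq_zero_right h3
    rw [h9]
    exact h7.neg
  rcases h8 with h8 | h8
  · exact h5 h8
  · rw [h6] at h8
    omega

end ram

end Pool.Agent.D0H90.WA
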