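import Pool.Agent.D0H90.WA.Upp

/-!
Pairs with very affine interior: the horizontal divisors along which the logarithmic forms of the
fibres have poles.
-/

set_option autoImplicit false
set_option linter.unusedSectionVars false

open FF Pool.Agent.W602.GT Pool.Agent.W603.LV Pool.Agent.TH122.AB
open Pool.Agent.Y172 Filter

namespace Pool.Agent.D0H90.WA

section

variable {k K : Type} [Field k] [CharZero k] [Field K] [Algebra k K]
variable {F M : IntermediateField k K} {r l : ℕ} {z m : Fin r → K} {u : Fin l → K}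
  {H : Fin l → Derivation k K K} {c : Fin r → Fin l → ℤ} {aa : Fin r → Fin r → ℤ}
  {bb : Fin l → Fin r → ℤ}

/-- the exponents of a Laurent polynomial, at a place where the torus fields are logarithmic -/
theorem lau_ord (hind : AlgebraicIndependent M u) (hHM : ∀ j, Kills (H j) M)
    (hHu : ∀ i j, H i (u j) = if i = j then u j else 0) {P : Place k K}
    (hPM : ∀ f ∈ M, f ≠ 0 → P.ord f = 0) (hlog : ∀ j, DerLog P (H j))
    {c : (Fin l → ℤ) →₀ M} {f : K} (hf : f = c.sum fun a m => (m : K) * mono u a) {N : ℤ}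
    (hN : Ge P N f) {a : Fin l → ℤ} (ha : a ∈ c.support) : N ≤ P.ord (mono u a) := by
  classical
  have hu0 : ∀ i, u i ≠ 0 := fun i => hind.ne_zero i
  let W : Submodule k K :=
    { carrier := {f | Ge P N f}
      add_mem' := fun h h' => Ge.add h h'
      zero_mem' := Ge.zero
      smul_mem' := by
        intro c f hf
        change Ge P N (c • f)
        rw [Algebra.smul_def]
        simpa using (Ge.const (P := P) c).mul hf }
  have h1 := vand W H (fun i x hx => Y172.DerLog.ge (hlog i) hx) c.support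
    (fun a i => ((a i : ℤ) : k)) (fun a => (c a : K) * mono u a) (fun a _ i => by
      rw [(H i).leibniz, hHM i _ (Subtype.coe_prop _), smul_zero, add_zero, logd_mono (H i) hu0,
        Finset.sum_eq_single i]
      · rw [hHu, if_pos rfl, div_self (hu0 i), smul_eq_mul, map_intCast]
        ring
      · intro b _ hb
        rw [hHu, if_neg (Ne.symm hb), zero_div, mul_zero]
      · intro h
        exact absurd (Finset.mem_univ i) h) (fun a _ b _ h => by
      funext i
      exact_mod_cast h i) (by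
      change Ge P N _
      rw [Finsupp.sum] at hf
      rw [← hf]
      exact hN) a ha
  have h2 : Ge P N ((c a : K) * mono u a) := h1
  have hca : (c a : K) ≠ 0 := fun h => Finsupp.mem_support_iff.1 ha (Subtype.ext h)
  have h3 := h2.resolve_left (mul_ne_zero hca (mono_ne hu0 a))
  rwa [P.ord_mul hca (mono_ne hu0 a), hPM _ (Subtype.coe_prop _) hca, zero_add] at h3

/-- derivations which preserve the subfield are logarithmic -/
theorem frame_log (hG : Gens (k := M) u) (hHM : ∀ j, Kills (H j) M)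
    (hHu : ∀ i j, H i (u j) = if i = j then u j else 0) {P : Place k K}
    (hPM : ∀ f ∈ M, f ≠ 0 → P.ord f = 0) (hlog : ∀ j, DerLog P (H j))
    {D : Derivation k K K} (hDM : ∀ x ∈ M, D x ∈ M)
    (hDu : ∀ j, ∃ γ ∈ M, D (u j) = γ * u j) : DerLog P D := by
  classical
  have hv0 : ∀ j, u j ≠ 0 := fun j => hG.ind.ne_zero j
  have hM : ∀ m ∈ M, Ge P 0 m := by
    intro m hm
    by_cases h : m = 0
    · exact Or.inl h
    · exact Or.inr (hPM m hm h).ge
  -- the terms are eigenvectors
  have htrm : ∀ (g : MvPolynomial (Fin l) M) (b : Fin l →₀ ℕ), b ∈ g.support →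
      ∃ γ ∈ M, D (trm u g b) = γ * trm u g b := by
    intro g b hb
    choose γ hγM hγ using hDu
    have hc : ((MvPolynomial.coeff b g : M) : K) ≠ 0 := fun h =>
      MvPolynomial.mem_support_iff.1 hb (Subtype.ext h)
    refine ⟨D ((MvPolynomial.coeff b g : M) : K) / ((MvPolynomial.coeff b g : M) : K) +
      ∑ i, ((b i : ℤ) : K) * γ i, add_mem (div_mem (hDM _ (Subtype.coe_prop _))
        (Subtype.coe_prop _)) (sum_mem fun i _ => mul_mem (by
          have := M.algebraMap_mem ((b i : ℤ) : k)
          rwa [map_intCast] at this) (hγM i)), ?_⟩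
    rw [trm, D.leibniz, logd_mono D hv0]
    simp only [hγ, smul_eq_mul]
    have h1 : ∀ i, γ i * u i / u i = γ i := fun i => mul_div_cancel_right₀ _ (hv0 i)
    simp only [h1]
    field_simp
    ring
  have hpoly : ∀ g : MvPolynomial (Fin l) M, g ≠ 0 →
      Ge P 0 (D (MvPolynomial.aeval u g) / MvPolynomial.aeval u g) := by
    intro g hg
    have hg0 := hG.ne hg
    have h1 : Ge P (P.ord (MvPolynomial.aeval u g)) (D (MvPolynomial.aeval u g)) := by
      conv_rhs => rw [aeval_eq, map_sum]
      refine Ge.sum _ _ fun b hb => ?_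
      obtain ⟨γ, hγ, h2⟩ := htrm g b hb
      rw [h2]
      have h3 : Ge P (P.ord (MvPolynomial.aeval u g)) (trm u g b) :=
        ge_trm hv0 hHM hHu hlog g hb (ge_ord P (MvPolynomial.aeval u g))
      have h4 := (hM γ hγ).mul h3
      rwa [zero_add] at h4
    have h2 := ge_div hg0 h1
    rwa [sub_self] at h2
  intro f
  by_cases hf : f = 0
  · rw [hf, map_zero, zero_div]
    exact P.reg_zero
  obtain ⟨A, C, hC, rfl⟩ := hG.gen f
  have hA : A ≠ 0 := by
    rintro rfl
    rw [map_zero, zero_div] at hf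
    exact hf rfl
  have hA0 := hG.ne hA
  have hC0 := hG.ne hC
  have h1 : D (MvPolynomial.aeval u A / MvPolynomial.aeval u C) /
      (MvPolynomial.aeval u A / MvPolynomial.aeval u C) =
      D (MvPolynomial.aeval u A) / MvPolynomial.aeval u A -
        D (MvPolynomial.aeval u C) / MvPolynomial.aeval u C := by
    rw [Derivation.leibniz_div]
    simp only [smul_eq_mul]
    field_simp
  rw [h1]
  exact (hpoly A hA).sub (hpoly C hC)

/-- The forms `dlog w_1 ∧ ... ∧ dlog w_s`, for monomials `w_j` in the `z j`, are regular along `P` on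
the fibres over `F`. -/
def LogReg (F : IntermediateField k K) (s : ℕ) (z : Fin r → K) (P : Place k K) : Prop :=
  ∀ (T : Fin s → Fin r → ℤ) (G : Fin s → Derivation k K K), (∀ i, ∀ f ∈ F, G i f = 0) →
    (∀ i, DerReg P (G i)) →
    P.Reg (Matrix.of fun i j => G i (mono z (T j)) / mono z (T j) : Matrix (Fin s) (Fin s) K).det

theorem Str.trivM (st : Str F M z m u H c aa bb) {P : Place k K}
    (hPF : ∀ f ∈ F, f ≠ 0 → P.ord f = 0) : ∀ f ∈ M, f ≠ 0 → P.ord f = 0 := by
  have h1 : IntermediateField.adjoin k (Set.range m) ≤ F := by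
    rw [IntermediateField.adjoin_le_iff]
    rintro _ ⟨i, rfl⟩
    exact st.mF i
  exact triv_alg (L := IntermediateField.adjoin k (Set.range m)) (fun f hf => hPF f (h1 hf))
    fun f hf => mem_acl.1 (st.ML hf)

theorem Str.u0 (st : Str F M z m u H c aa bb) (j : Fin l) : u j ≠ 0 := st.ind.ne_zero j

theorem Str.kills (st : Str F M z m u H c aa bb) {G : Derivation k K K}
    (hG : ∀ f ∈ F, G f = 0) : Kills G M := by
  have h1 : Kills G (acl k (Set.range m)) := kills_acl (by
    rintro _ ⟨i, rfl⟩
    exact hG _ (st.mF i))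
  exact fun f hf => h1 f (st.ML hf)

theorem Str.logd (st : Str F M z m u H c aa bb) (hz : ∀ j, z j ≠ 0) {G : Derivation k K K}
    (hG : Kills G M) (a : Fin r → ℤ) : G (mono z a) / mono z a =
      ∑ b, (G (u b) / u b) * ((∑ i, a i * c i b : ℤ) : K) := by
  have h1 : ∀ i, G (z i) / z i = ∑ b, ((c i b : ℤ) : K) * (G (u b) / u b) := by
    intro i
    have h2 : G (z i) = (∑ b, ((c i b : ℤ) : K) * (G (u b) / u b)) * z i := by
      conv_lhs => rw [st.zc i]
      rw [G.leibniz, hG _ (st.mM i), smul_zero, add_zero, logd_mono G st.u0, smul_eq_mul]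
      conv_rhs => rw [st.zc i]
      ring
    rw [h2, mul_div_cancel_right₀ _ (hz i)]
  rw [logd_mono G hz, mul_div_cancel_right₀ _ (mono_ne hz a)]
  simp only [h1, Finset.mul_sum]
  rw [Finset.sum_comm]
  refine Finset.sum_congr rfl fun b _ => ?_
  push_cast
  rw [Finset.mul_sum]
  exact Finset.sum_congr rfl fun i _ => by ring

/-- a horizontal divisor along which the logarithmic forms of the fibres have a pole -/
theorem Str.log_of_pole (st : Str F M z m u H c aa bb) (hz : ∀ j, z j ≠ 0) {P : Place k K}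
    (h : ¬ LogReg F l z P) (j : Fin l) : DerLog P (H j) := by
  classical
  unfold LogReg at h
  push Not at h
  obtain ⟨T, G, hGF, hGr, hdet⟩ := h
  have hGM : ∀ i, Kills (G i) M := fun i => st.kills (hGF i)
  have h1 : (Matrix.of fun i j => G i (mono z (T j)) / mono z (T j) : Matrix (Fin l) (Fin l) K) =
      lmat u G * (Int.castRingHom K).mapMatrix (Matrix.of fun b j => ∑ i, T j i * c i b) := by
    ext i j
    rw [Matrix.mul_apply, Matrix.of_apply, st.logd hz (hGM i)]
    rfl
  rw [h1, Matrix.det_mul, ← RingHom.map_det] at hdet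
  have h2 : ¬ Ge P 0 (lmat u G).det := by
    intro h3
    apply hdet
    have h4 := h3.mul (Ge.intCast (P := P)
      (Matrix.of fun b j => ∑ i, T j i * c i b : Matrix (Fin l) (Fin l) ℤ).det)
    rw [add_zero] at h4
    exact h4
  have h3 : Ge P (-1) (lmat u G).det := det_log G hGr _ fun _ => st.u0 _
  have hT0 : (lmat u G).det ≠ 0 := fun h => h2 (Or.inl h)
  have hT1 : P.ord (lmat u G).det = -1 := by
    have h4 := h3.resolve_left hT0
    have h5 : ¬ 0 ≤ P.ord (lmat u G).det := fun h => h2 (Or.inr h)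
    omega
  have hcon : ∀ f, (lmat u G).det * H j f = con u (Pi.single j 1) G f := by
    have h4 : (lmat u G).det • H j - con u (Pi.single j 1) G = 0 := by
      have h5 : IntermediateField.adjoin k ((M : Set K) ∪ Set.range u) ≤
          consts ((lmat u G).det • H j - con u (Pi.single j 1) G) := by
        rw [IntermediateField.adjoin_le_iff]
        rintro f (hf | ⟨b, rfl⟩)
        · change ((lmat u G).det • H j - con u (Pi.single j 1) G) f = 0
          rw [Derivation.sub_apply, Derivation.smul_apply, st.hk j f hf, smul_zero, zero_sub,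
            neg_eq_zero, con, sum_smul_apply]
          exact Finset.sum_eq_zero fun i _ => by rw [hGM i f hf, mul_zero]
        · change ((lmat u G).det • H j - con u (Pi.single j 1) G) (u b) = 0
          rw [Derivation.sub_apply, Derivation.smul_apply, st.hu, con_t _ _ _ st.u0 b, smul_eq_mul]
          by_cases hjb : j = b
          · rw [if_pos hjb, hjb, Pi.single_eq_same, map_one]
            ring
          · rw [if_neg hjb, Pi.single_eq_of_ne (Ne.symm hjb), map_zero]
            ring
      rw [st.top] at h5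
      ext f
      exact h5 (x := f) trivial
    intro f
    have h5 := congrArg (fun E : Derivation k K K => E f) h4
    simp only [Derivation.sub_apply, Derivation.smul_apply, smul_eq_mul,
      Derivation.zero_apply] at h5
    exact sub_eq_zero.1 h5
  intro f
  by_cases hf : f = 0
  · rw [hf, map_zero, zero_div]
    exact P.reg_zero
  have h4 := con_pole (t := u) (lam := Pi.single j 1) (D := G) (P := P) hGr st.u0 hf
  have h5 : Ge P 1 ((lmat u G).det⁻¹) := Or.inr (by rw [P.ord_inv, hT1]; simp)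
  have h6 := h5.mul h4
  rw [← hcon f, mul_div_assoc, ← mul_assoc, inv_mul_cancel₀ hT0, one_mul, add_neg_cancel] at h6
  exact h6

end

section

variable {K : Type} [Field K] [Algebra ℂ K] {N : ℕ} {y : Fin (N + 1) → K} {n : ℕ}

/-- **The order of a section on logarithmic vector fields** along a prime divisor. -/
theorem sec_log (hy : NormalModel y) (hn : Algebra.trdeg ℂ K = n) {Δ A : Place ℂ K → ℚ}
    {P : Place ℂ K} (hP : IsPrimeDivisor y P) {m : ℕ} {ω : (Fin n → Derivation ℂ K K) → K}
    (hω : IsSection y n m (m • Δ + A) ω) {D : Fin n → Derivation ℂ K K}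
    (hD : ∀ i, DerLog P (D i)) :
    ω D = 0 ∨ (m : ℚ) * (1 - Δ P) - A P ≤ P.ord (ω D) := by
  classical
  have hess := hy.ess
  obtain ⟨x, E, i0, hx, hE, hxi, hxr, hEr⟩ := Pool.Agent.W619.Y.pFRAME.{0, 0} ℂ K n hn
    (fun x hx => fd_basis hx) P (hP.divisorial hy hn)
  have hexp : D = fun i => ∑ j, (Matrix.of fun i j => D i (x j)) i j • E j := by
    funext i
    refine der_ext x hx fun a => ?_
    rw [sum_smul_apply, Finset.sum_eq_single a]
    · rw [hE, if_pos rfl, mul_one]
      rfl
    · intro b _ hb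
      rw [hE, if_neg hb, mul_zero]
    · intro h
      exact absurd (Finset.mem_univ a) h
  have h1 : ω D = (Matrix.of fun i j => D i (x j)).det ^ m * ω E := by
    conv_lhs => rw [hexp]
    exact hω.1 _ _
  have h2 : Ge P 1 (Matrix.of fun i j => D i (x j)).det := by
    rw [← Matrix.det_transpose]
    refine ge_det P _ 1 (fun a _ => if a = i0 then 1 else 0) (fun a b => ?_) fun σ => ?_
    · change Ge P (if a = i0 then 1 else 0) (D b (x a))
      split_ifs with ha
      · rw [ha]
        exact Y172.DerLog.ge (hD b) (Or.inr (by rw [hxi]))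
      · exact Y172.DerLog.ge (hD b) (hxr a)
    · have h3 : ∑ i, (if σ i = i0 then (1 : ℤ) else 0) = 1 := by
        rw [Finset.sum_eq_single (σ.symm i0)]
        · simp
        · intro i _ hi
          rw [if_neg]
          intro h
          exact hi (by rw [← h]; simp)
        · intro h
          exact absurd (Finset.mem_univ _) h
      exact h3.ge
  by_cases hωD : ω D = 0
  · exact Or.inl hωD
  right
  rw [h1] at hωD
  have h3 := left_ne_zero_of_mul hωD
  have h4 := right_ne_zero_of_mul hωD
  have h5 := (hω.2 P hP E fun i => hEr i).resolve_left h4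
  have h6 := (h2.pow m).resolve_left h3
  rw [h1, P.ord_mul h3 h4]
  have e : (m • Δ + A) P = m * Δ P + A P := by
    rw [Pi.add_apply, Pi.smul_apply, nsmul_eq_mul]
  rw [e] at h5
  have h7 : ((m * 1 : ℤ) : ℚ) ≤ ((P.ord ((Matrix.of fun i j => D i (x j)).det ^ m) : ℤ) : ℚ) := by
    exact_mod_cast h6
  push_cast at h7 ⊢
  linarith

/-- **`K_X + Δ` is not pseudo-effective** if some horizontal divisor along which the logarithmic
forms of the fibres have a pole has coefficient less than `1`. -/
theorem not_psef (hy : NormalModel y) (hn : Algebra.trdeg ℂ K = n) {Δ : Place ℂ K → ℚ}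
    (hLC : LogCanonical y n Δ)
    {F M : IntermediateField ℂ K} {r l : ℕ} {z m : Fin r → K} {u : Fin l → K}
    {H : Fin l → Derivation ℂ K K} {c : Fin r → Fin l → ℤ} {aa : Fin r → Fin r → ℤ}
    {bb : Fin l → Fin r → ℤ} (hz : ∀ j, z j ≠ 0) (st : Str F M z m u H c aa bb)
    (hQ : ∀ g : MvPolynomial (Fin l) M, Irreducible g → ¬ IsVar g →
      ∃ Q, Adic Q u g ∧ NonnegDisc y n Δ Q)
    {P : Place ℂ K} (hP : IsPrimeDivisor y P) (hPF : ∀ f ∈ F, f ≠ 0 → P.ord f = 0)
    (hpole : ¬ LogReg F l z P) (hlt : Δ P < 1) {A : Place ℂ K → ℚ} (hA : Effective y A) :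
    ∃ m0 : ℕ, ∀ m, m0 ≤ m → 1 ≤ m → ∀ ω, IsSection y n m (m • Δ + A) ω → ω = 0 := by
  classical
  obtain ⟨D, hD, hDM, hDu⟩ := exists_adapted hn st.closed st.ind st.top
  obtain ⟨p0, b, hp0, hlau⟩ := lau_bound hy hn hLC st.closed st.ind st.top hQ hD hDM hDu hA
  have hG := gens_of_top st.ind st.top
  have hPM := st.trivM hPF
  have hlog := st.log_of_pole hz hpole
  have hDlog : ∀ i, DerLog P (D i) := fun i => frame_log hG st.hk st.hu hPM hlog (hDM i) (hDu i)
  have hp0u := hG.ne hp0
  obtain ⟨R, hR⟩ : ∃ R : ℚ, R = A P + (∑ j, (b : ℚ) * |(P.ord (u j) : ℚ)|) +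
      |(P.ord (MvPolynomial.aeval u p0) : ℚ)| := ⟨_, rfl⟩
  obtain ⟨m0, hm0⟩ := exists_nat_gt (R / (1 - Δ P))
  have h1Δ : 0 < 1 - Δ P := by linarith
  rw [div_lt_iff₀ h1Δ] at hm0
  refine ⟨m0, fun m' hm hm1 ω hω => ?_⟩
  refine pluri_zero hD hω.1 ?_
  by_contra hωD
  have h1 := (sec_log hy hn hP hω hDlog).resolve_left hωD
  obtain ⟨c', hc', hcb⟩ := hlau m' hm1 ω hω
  have h2 : ω D * MvPolynomial.aeval u p0 ≠ 0 := mul_ne_zero hωD hp0u
  obtain ⟨a, ha⟩ : ∃ a, a ∈ c'.support := by
    by_contra hcon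
    push Not at hcon
    have h3 : c' = 0 := by
      ext a
      have := hcon a
      rw [Finsupp.notMem_support_iff] at this
      rw [this]
      rfl
    rw [h3, Finsupp.sum_zero_index] at hc'
    exact h2 hc'
  have h3 := lau_ord st.ind st.hk st.hu hPM hlog hc'
    (ge_ord P (ω D * MvPolynomial.aeval u p0)) ha
  rw [P.ord_mul hωD hp0u, mono, Pool.Agent.W619.PQ.ord_prod _ P _ fun i _ =>
    zpow_ne_zero _ (st.u0 i)] at h3
  have h4 : ((∑ i, P.ord (u i ^ a i) : ℤ) : ℚ) ≤ ∑ j, (b : ℚ) * |(P.ord (u j) : ℚ)| := by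
    push_cast
    refine Finset.sum_le_sum fun j _ => ?_
    rw [P.ord_zpow]
    push_cast
    have h5 := hcb a ha j
    have h6 : |((a j : ℤ) : ℚ)| ≤ b := by
      rw [abs_le]
      constructor
      · have : ((-(b : ℤ) : ℤ) : ℚ) ≤ ((a j : ℤ) : ℚ) := by exact_mod_cast h5.1
        push_cast at this
        exact this
      · exact_mod_cast h5.2
    calc ((a j : ℤ) : ℚ) * (P.ord (u j) : ℚ) ≤ |((a j : ℤ) : ℚ) * (P.ord (u j) : ℚ)| :=
          le_abs_self _
      _ = |((a j : ℤ) : ℚ)| * |(P.ord (u j) : ℚ)| := abs_mul _ _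
      _ ≤ b * |(P.ord (u j) : ℚ)| := mul_le_mul_of_nonneg_right h6 (abs_nonneg _)
  have h5 : ((P.ord (ω D) + P.ord (MvPolynomial.aeval u p0) : ℤ) : ℚ) ≤
      ((∑ i, P.ord (u i ^ a i) : ℤ) : ℚ) := by exact_mod_cast h3
  push_cast at h5 h4
  have h6 := neg_abs_le (P.ord (MvPolynomial.aeval u p0) : ℚ)
  have h7 : (m' : ℚ) * (1 - Δ P) ≤ R := by
    rw [hR]
    linarith
  have h8 : (m0 : ℚ) * (1 - Δ P) ≤ m' * (1 - Δ P) :=
    mul_le_mul_of_nonneg_right (by exact_mod_cast hm) h1Δ.le
  linarith

/-- **The dimensions of a divisor which is not pseudo-effective.** -/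
theorem dims_bot {Δ : Place ℂ K → ℚ}
    (h : ∀ A, Effective y A → ∃ m0 : ℕ, ∀ m, m0 ≤ m → 1 ≤ m → ∀ ω : (Fin n → Derivation ℂ K K) → K,
      IsSection y n m (m • Δ + A) ω → ω = 0) :
    kodairaDim y n Δ = ⊥ ∧ ∀ A, Effective y A → Integral y A → numericalDim y n Δ A = ⊥ := by
  classical
  have hz : ∀ (m : ℕ) (D : Place ℂ K → ℚ), (∀ ω : (Fin n → Derivation ℂ K K) → K,
      IsSection y n m D ω → ω = 0) → h0 y n m D = 0 := by
    intro m D hD
    unfold h0
    have h1 : Submodule.span ℂ {ω : (Fin n → Derivation ℂ K K) → K | IsSection y n m D ω} = ⊥ := by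
      rw [Submodule.span_eq_bot]
      exact hD
    rw [h1]
    exact finrank_bot ℂ _
  constructor
  · unfold kodairaDim
    rw [if_pos]
    intro m hm _
    refine hz _ _ fun ω hω => ?_
    obtain ⟨m0, hm0⟩ := h 0 ⟨fun P _ => le_rfl, by simp⟩
    -- a power of the section
    have h1 := IsSection.pow hω (m0 + 1)
    by_contra hω0
    have h2 := hm0 ((m0 + 1) * m) (by nlinarith) (by nlinarith) (fun E => ω E ^ (m0 + 1)) (by
      have e : ((m0 + 1) * m) • Δ + (0 : Place ℂ K → ℚ) = (m0 + 1) • (m • Δ) := by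
        rw [add_zero, mul_smul]
      rw [e]
      exact h1)
    apply hω0
    funext E
    have h3 := congrFun h2 E
    exact (pow_eq_zero_iff (Nat.succ_ne_zero m0)).1 h3
  · intro A hA _
    obtain ⟨m0, hm0⟩ := h A hA
    unfold numericalDim
    have h1 : (fun m : ℕ => ENNReal.log (h0 y n m (m • Δ + A) : ENNReal) / (Real.log m : EReal))
        =ᶠ[atTop ⊓ 𝓟 {m : ℕ | 1 ≤ m ∧ Integral y (m • Δ + A)}] fun _ => (⊥ : EReal) := by
      refine Filter.Eventually.filter_mono inf_le_left ?_
      filter_upwards [eventually_ge_atTop (max m0 2)] with m hm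
      have hm0' : m0 ≤ m := (le_max_left _ _).trans hm
      have hm2 : 2 ≤ m := (le_max_right _ _).trans hm
      rw [hz m _ (hm0 m hm0' (by omega))]
      simp only [Nat.cast_zero, ENNReal.log_zero]
      have h3 : (0 : ℝ) < Real.log m := Real.log_pos (by exact_mod_cast hm2)
      exact EReal.bot_div_of_pos_ne_top (by exact_mod_cast h3) (EReal.coe_ne_top _)
    rw [Filter.limsup_congr h1]
    exact Filter.limsup_const_bot

end

end Pool.Agent.D0H90.WA
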