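import Pool.Agent.Y172.Bas
import Pool.Agent.Y191.Base

/-!
Derivations of subfields, one-parameter subgroups of the stabiliser of a very affine variety.
-/

set_option autoImplicit false
set_option linter.unusedSectionVars false

open FF Pool.Agent.W602.GT Pool.Agent.W603.LV Pool.Agent.TH122.AB Pool.Agent.Y172 Pool.Agent.Y191

namespace Pool.Agent.D0H90.WA

section

variable {k K : Type} [Field k] [CharZero k] [Field K] [Algebra k K]

/-- a derivation of a subfield with values in `K` vanishes if it vanishes on a transcendence basis -/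
theorem der_sub_zero {L : IntermediateField k K} (δ : Derivation k L K) {ι : Type} {x : ι → L}
    (hx : IsTranscendenceBasis k x) (h : ∀ i, δ (x i) = 0) (f : L) : δ f = 0 := by
  let C : IntermediateField k L :=
    { carrier := {f | δ f = 0}
      mul_mem' := by
        intro a b ha hb
        change δ (a * b) = 0
        rw [δ.leibniz, show δ a = 0 from ha, show δ b = 0 from hb, smul_zero, smul_zero, add_zero]
      add_mem' := by
        intro a b ha hb
        change δ (a + b) = 0
        rw [map_add, show δ a = 0 from ha, show δ b = 0 from hb, add_zero]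
      algebraMap_mem' := fun r => δ.map_algebraMap r
      inv_mem' := by
        intro a ha
        change δ a⁻¹ = 0
        rw [δ.leibniz_inv, show δ a = 0 from ha, smul_zero] }
  have hC : IntermediateField.adjoin k (Set.range x) ≤ C := by
    rw [IntermediateField.adjoin_le_iff]
    rintro _ ⟨i, rfl⟩
    exact h i
  have halg : IsAlgebraic C f := by
    have h1 := hx.isAlgebraic_field.isAlgebraic f
    let _ : Algebra (IntermediateField.adjoin k (Set.range x)) C :=
      (IntermediateField.inclusion hC).toRingHom.toAlgebra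
    have : IsScalarTower (IntermediateField.adjoin k (Set.range x)) C L :=
      IsScalarTower.of_algebraMap_eq fun _ => rfl
    exact h1.extendScalars (IntermediateField.inclusion hC).toRingHom.injective
  have key : ∀ p : Polynomial C, δ (Polynomial.aeval f p) =
      (Polynomial.aeval f (Polynomial.derivative p)) • δ f := by
    intro p
    induction p using Polynomial.induction_on' with
    | add p q hp hq => rw [map_add, map_add, hp, hq, Polynomial.derivative_add, map_add, add_smul]
    | monomial i a =>
      have ha : δ (algebraMap C L a) = 0 := a.2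
      rw [Polynomial.aeval_monomial, Polynomial.derivative_monomial, Polynomial.aeval_monomial,
        δ.leibniz, δ.leibniz_pow, ha, smul_zero, add_zero]
      rw [← Nat.cast_smul_eq_nsmul L i, smul_smul, smul_smul, map_mul, map_natCast]
  have h1 := key (minpoly C f)
  rw [minpoly.aeval, map_zero] at h1
  have h2 : Polynomial.aeval f (Polynomial.derivative (minpoly C f)) ≠ 0 :=
    (minpoly.irreducible halg.isIntegral).separable.aeval_derivative_ne_zero (minpoly.aeval _ _)
  exact (smul_eq_zero.1 h1.symm).resolve_left h2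

theorem basis_fin {L : IntermediateField k K} {p : ℕ} (hL : Algebra.trdeg k L = p) :
    ∃ x : Fin p → L, IsTranscendenceBasis k x := by
  obtain ⟨t, ht⟩ := exists_isTranscendenceBasis k L
  have h1 := ht.cardinalMk_eq_trdeg
  rw [hL] at h1
  obtain ⟨φ⟩ : Nonempty (Fin p ≃ t) := by
    rw [← Cardinal.eq, Cardinal.mk_fin]
    exact h1.symm
  exact ⟨fun i => (φ i : L), ht.comp_equiv φ⟩

/-- **Derivations of subfields extend.** -/
theorem exists_ext_der {L : IntermediateField k K} {p : ℕ} (hL : Algebra.trdeg k L = p)
    (D : Derivation k L L) : ∃ D' : Derivation k K K, ∀ f : L, D' f = D f := by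
  classical
  obtain ⟨x, hx⟩ := basis_fin hL
  have hxK : AlgebraicIndependent k (fun i => (x i : K)) :=
    hx.1.map' (f := L.val) L.val.toRingHom.injective
  obtain ⟨E, hE⟩ := Y191.exists_dual hxK
  obtain ⟨D', hD'⟩ : ∃ D' : Derivation k K K, D' = ∑ i, ((D (x i) : L) : K) • E i := ⟨_, rfl⟩
  have hD'x : ∀ i, D' (x i) = D (x i) := by
    intro i
    rw [hD', sum_smul_apply, Finset.sum_eq_single i]
    · rw [hE, if_pos rfl, mul_one]
    · intro j _ hj
      rw [hE, if_neg hj, mul_zero]
    · intro h
      exact absurd (Finset.mem_univ i) h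
  refine ⟨D', fun f => ?_⟩
  have h1 := der_sub_zero (D'.compAlgebraMap L - (Algebra.linearMap L K).compDer D) hx
    (fun i => by
      rw [Derivation.sub_apply]
      exact sub_eq_zero.2 (hD'x i)) f
  rw [Derivation.sub_apply] at h1
  exact sub_eq_zero.1 h1

/-- sums of eigenvectors -/
theorem eig_zero (H : Derivation k K K) (S : Finset ℤ) : ∀ v : ℤ → K,
    (∀ w ∈ S, H (v w) = (w : K) * v w) → ∑ w ∈ S, v w = 0 → ∀ w ∈ S, v w = 0 := by
  classical
  have : CharZero K := charZero_of_injective_algebraMap (algebraMap k K).injective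
  induction S using Finset.induction_on with
  | empty => simp
  | insert w0 S hw0 ih =>
    intro v hv hs
    have h1 : ∀ w ∈ S, v w = 0 := by
      have h2 := ih (fun w => ((w - w0 : ℤ) : K) * v w) (fun w hw => by
        have h3 : H ((w - w0 : ℤ) : K) = 0 := H.map_intCast _
        rw [H.leibniz, h3, hv w (Finset.mem_insert_of_mem hw), smul_zero, add_zero, smul_eq_mul]
        ring) (by
        have h3 := congrArg H hs
        rw [map_zero, map_sum, Finset.sum_congr rfl hv, Finset.sum_insert hw0] at h3
        rw [Finset.sum_insert hw0] at hs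
        have h4 : ∑ w ∈ S, ((w - w0 : ℤ) : K) * v w =
            ∑ w ∈ S, (w : K) * v w - (w0 : K) * ∑ w ∈ S, v w := by
          rw [Finset.mul_sum, ← Finset.sum_sub_distrib]
          exact Finset.sum_congr rfl fun w _ => by push_cast; ring
        rw [h4]
        linear_combination h3 - (w0 : K) * hs)
      intro w hw
      have h3 := h2 w hw
      refine (mul_eq_zero.1 h3).resolve_left ?_
      have h4 : w - w0 ≠ 0 := by
        rw [sub_ne_zero]
        rintro rfl
        exact hw0 hw
      exact_mod_cast h4
    intro w hw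
    rcases Finset.mem_insert.1 hw with rfl | hw
    · rw [Finset.sum_insert hw0, Finset.sum_eq_zero h1, add_zero] at hs
      exact hs
    · exact h1 w hw

/-- **Vector fields and one-parameter subgroups**: if the vector field `∑ b j z j ∂/∂z j` is tangent
to the very affine variety with generic point `z`, the variety is stable under the one-parameter
subgroup `c ↦ (c ^ b j)`. -/
theorem onePS {r : ℕ} {z : Fin r → K} (hz : ∀ j, z j ≠ 0) (H : Derivation k K K) {b : Fin r → ℤ}
    (hH : ∀ j, H (z j) = (b j : K) * z j) {c : k} (hc : c ≠ 0) {G : MvPolynomial (Fin r) k}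
    (hG : MvPolynomial.aeval z G = 0) :
    MvPolynomial.aeval (fun j => algebraMap k K (c ^ b j) * z j) G = 0 := by
  classical
  -- the terms
  obtain ⟨T, hT⟩ : ∃ T : (Fin r →₀ ℕ) → K, ∀ a, T a = algebraMap k K (G.coeff a) *
      ∏ j, z j ^ a j := ⟨_, fun _ => rfl⟩
  obtain ⟨wt, hwt⟩ : ∃ wt : (Fin r →₀ ℕ) → ℤ, ∀ a, wt a = ∑ j, (a j : ℤ) * b j :=
    ⟨_, fun _ => rfl⟩
  have hmono : ∀ a : Fin r →₀ ℕ, ∏ j, z j ^ a j = mono z (fun j => (a j : ℤ)) := by
    intro a
    rw [mono]
    exact Finset.prod_congr rfl fun j _ => (zpow_natCast _ _).symm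
  have hHT : ∀ a, H (T a) = (wt a : K) * T a := by
    intro a
    rw [hT, H.leibniz, H.map_algebraMap, smul_zero, add_zero, hmono, logd_mono H hz, hwt,
      smul_eq_mul]
    have h1 : ∑ i, ((a i : ℤ) : K) * (H (z i) / z i) = ((∑ j, (a j : ℤ) * b j : ℤ) : K) := by
      push_cast
      refine Finset.sum_congr rfl fun i _ => ?_
      rw [hH, mul_div_cancel_right₀ _ (hz i)]
    rw [h1]
    ring
  obtain ⟨S, hS⟩ : ∃ S : Finset ℤ, S = G.support.image wt := ⟨_, rfl⟩
  obtain ⟨v, hv⟩ : ∃ v : ℤ → K, ∀ w, v w = ∑ a ∈ G.support.filter fun a => wt a = w, T a :=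
    ⟨_, fun _ => rfl⟩
  have hsum : ∀ f : ℤ → K, ∑ w ∈ S, f w * v w = ∑ a ∈ G.support, f (wt a) * T a := by
    intro f
    rw [← Finset.sum_fiberwise_of_maps_to (s := G.support) (t := S) (g := wt) (fun a ha => by
      rw [hS]
      exact Finset.mem_image_of_mem _ ha)]
    refine Finset.sum_congr rfl fun w _ => ?_
    rw [hv, Finset.mul_sum]
    refine Finset.sum_congr rfl fun a ha => ?_
    rw [(Finset.mem_filter.1 ha).2]
  have hvS : ∀ w ∈ S, v w = 0 := by
    refine eig_zero H S v (fun w _ => ?_) ?_
    · rw [hv, map_sum, Finset.mul_sum]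
      refine Finset.sum_congr rfl fun a ha => ?_
      rw [hHT, (Finset.mem_filter.1 ha).2]
    · have h1 := hsum fun _ => 1
      simp only [one_mul] at h1
      rw [h1, ← hG, MvPolynomial.aeval_def, MvPolynomial.eval₂_eq']
      exact Finset.sum_congr rfl fun a _ => hT a
  rw [MvPolynomial.aeval_def, MvPolynomial.eval₂_eq']
  have h1 : ∀ a ∈ G.support, algebraMap k K (G.coeff a) *
      ∏ j, (algebraMap k K (c ^ b j) * z j) ^ a j = algebraMap k K (c ^ wt a) * T a := by
    intro a _
    have h2 : ∏ j, (algebraMap k K (c ^ b j) * z j) ^ a j =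
        algebraMap k K (c ^ wt a) * ∏ j, z j ^ a j := by
      simp only [mul_pow]
      rw [Finset.prod_mul_distrib]
      congr 1
      rw [hwt]
      have h3 : ∀ s : Finset (Fin r), ∏ x ∈ s, (algebraMap k K (c ^ b x)) ^ a x =
          algebraMap k K (c ^ ∑ j ∈ s, (a j : ℤ) * b j) := by
        intro s
        induction s using Finset.induction_on with
        | empty => simp
        | insert i s hi ih =>
          rw [Finset.prod_insert hi, Finset.sum_insert hi, ih, zpow_add₀ hc, map_mul, ← map_pow,
            mul_comm (a i : ℤ), zpow_mul, zpow_natCast]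
      exact h3 _
    rw [h2, hT]
    ring
  rw [Finset.sum_congr rfl h1]
  have h2 := hsum fun w => algebraMap k K (c ^ w)
  rw [← h2]
  exact Finset.sum_eq_zero fun w hw => by rw [hvS w hw, mul_zero]

end

end Pool.Agent.D0H90.WA
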