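import Pool.Agent.D0H90.WA.Ext

/-!
The Gauss map of a very affine variety whose stabiliser is finite.
-/

set_option autoImplicit false
set_option linter.unusedSectionVars false

open FF Pool.Agent.W602.GT Pool.Agent.W603.LV Pool.Agent.TH122.AB Pool.Agent.Y172 Pool.Agent.Y191

namespace Pool.Agent.D0H90.WA

section

variable {k : Type} [Field k] [CharZero k]

theorem trdeg_bot (L : Type) [Field L] [Algebra k L] :
    Algebra.trdeg k (⊥ : IntermediateField k L) = 0 := by
  have : Algebra.IsAlgebraic k (⊥ : IntermediateField k L) := inferInstance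
  exact trdeg_eq_zero

/-- **The Gauss map of a very affine variety with finite stabiliser** is generically finite. -/
theorem gauss_basis {L : Type} [Field L] [Algebra k L] {p r : ℕ} (hn : Algebra.trdeg k L = p)
    {z : Fin r → L} (hz : ∀ j, z j ≠ 0) (htop : IntermediateField.adjoin k (Set.range z) = ⊤)
    (hNT : ∀ (H : Derivation k L L) (b : Fin r → ℤ), (∀ j, H (z j) = (b j : L) * z j) → b = 0) :
    ∃ (J : Fin p → Fin r) (D : Fin p → Derivation k L L) (J' : Fin p → Fin p → Fin r)
      (g : Fin p → L), IsTranscendenceBasis k (fun a => z (J a)) ∧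
      (∀ a b, D a (z (J b)) = if a = b then z (J b) else 0) ∧ AlgebraicIndependent k g ∧
      ∀ b, (lmat (fun a => z (J' b a)) D).det = g b := by
  classical
  have hgen : IntermediateField.adjoin k
      ((acl k ((⊥ : IntermediateField k L) : Set L) : Set L) ∪ Set.range z) = ⊤ := by
    rw [← top_le_iff, ← htop]
    exact IntermediateField.adjoin.mono k _ _ Set.subset_union_right
  obtain ⟨e, l, M, J, D, u, H, gs⟩ := exists_gs (F := ⊥) hn hz hgen
  have hl : IsEmpty (Fin l) := by
    by_contra hcon
    rw [not_isEmpty_iff] at hcon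
    obtain ⟨j0⟩ := hcon
    obtain ⟨c, hc⟩ := gs.ht_eq
    have h1 := hNT (H j0) (fun i => c i j0) fun i => hc i j0
    obtain ⟨b, hb⟩ := gs.ub j0
    have h2 : H j0 (u j0) = u j0 := by rw [gs.hu, if_pos rfl]
    have h3 : H j0 (u j0) = 0 := by
      rw [hb, logd_mono (H j0) hz]
      have : ∑ i, ((b i : ℤ) : L) * (H j0 (z i) / z i) = 0 :=
        Finset.sum_eq_zero fun i _ => by
          rw [hc i j0, show c i j0 = 0 from congrFun h1 i]
          simp
      rw [this, zero_mul]
    exact gs.u_ne j0 (h2.symm.trans h3)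
  have hM : M = ⊤ := by
    have h1 := gs.top
    rw [← top_le_iff] at h1 ⊢
    refine h1.trans ?_
    rw [IntermediateField.adjoin_le_iff]
    rintro x (hx | ⟨j, rfl⟩)
    · exact hx
    · exact hl.elim j
  obtain ⟨μ, c, hcΛ, hci, hck⟩ := pick hn (⊥ : IntermediateField k L)
    (Set.range fun q : Fin e × Fin r => D q.1 (z q.2) / z q.2)
  have hbas : IsTranscendenceBasis (⊥ : IntermediateField k L) c :=
    basis_of_kill hci fun E hE hEc => by
      have h1 : Kills E M := by
        rw [gs.gen]
        refine kills_acl ?_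
        rintro x (hx | hx)
        · exact hE x hx
        · exact hck E hE hEc x hx
      ext x
      exact h1 x (by rw [hM]; trivial)
  have hbot : Algebra.trdeg (⊥ : IntermediateField k L) L = p := by
    have h1 := trdeg_add_eq k (⊥ : IntermediateField k L) (A := L)
    rw [trdeg_bot, hn, zero_add] at h1
    exact h1
  obtain rfl : e = p := by
    have h1 := gs.bas.cardinalMk_eq_trdeg
    rw [Cardinal.mk_fin, hbot] at h1
    exact_mod_cast h1
  obtain rfl : μ = e := by
    have h1 := hbas.cardinalMk_eq_trdeg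
    rw [Cardinal.mk_fin, hbot] at h1
    exact_mod_cast h1
  choose q hq using hcΛ
  refine ⟨J, D, fun b => Function.update J (q b).1 (q b).2, c, ?_, gs.dual, ?_, fun b => ?_⟩
  · have h1 : AlgebraicIndependent k fun a => z (J a) :=
      gs.bas.1.restrictScalars (R := k) (algebraMap k (⊥ : IntermediateField k L)).injective
    refine h1.isTranscendenceBasis_of_trdeg_le ?_ ?_
    · rw [hn]
      exact Cardinal.natCast_lt_aleph0
    · rw [hn, Cardinal.mk_fin]
  · exact hci.restrictScalars (R := k) (algebraMap k (⊥ : IntermediateField k L)).injective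
  · rw [gs.det_update, ← hq b]

end

section

variable {k K : Type} [Field k] [CharZero k] [Field K] [Algebra k K]

/-- the expansion of derivations along a subfield -/
theorem der_expand {L : IntermediateField k K} {p : ℕ} (hL : Algebra.trdeg k L = p)
    {x : Fin p → L} (hx : IsTranscendenceBasis k x) {D : Fin p → Derivation k L L}
    (hD : ∀ a b, D a (x b) = if a = b then x b else 0) (E : Derivation k K K) (f : L) :
    E f = ∑ s, (E (x s) / x s) * ((D s f : L) : K) := by
  classical
  choose D' hD' using fun s => exists_ext_der hL (D s)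
  have hx0 : ∀ s, ((x s : L) : K) ≠ 0 := fun s h => hx.1.ne_zero s (Subtype.ext h)
  have h1 := der_sub_zero ((E - ∑ s, (E (x s) / x s) • D' s).compAlgebraMap L) hx
    (fun i => by
      change (E - ∑ s, (E (x s) / x s) • D' s) ((x i : L) : K) = 0
      rw [Derivation.sub_apply, sum_smul_apply, Finset.sum_eq_single i]
      · rw [hD', hD, if_pos rfl, div_mul_cancel₀ _ (hx0 i), sub_self]
      · intro j _ hj
        rw [hD', hD, if_neg hj, ZeroMemClass.coe_zero, mul_zero]
      · intro h
        exact absurd (Finset.mem_univ i) h) f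
  have h2 : (E - ∑ s, (E (x s) / x s) • D' s) (f : K) = 0 := h1
  rw [Derivation.sub_apply, sum_smul_apply] at h2
  rw [sub_eq_zero.1 h2]
  exact Finset.sum_congr rfl fun s _ => by rw [hD']

/-- **The logarithmic forms of a very affine variety with finite stabiliser.** -/
theorem gauss_forms {p r : ℕ} {z : Fin r → K} (hz : ∀ j, z j ≠ 0)
    (hL : Algebra.trdeg k (IntermediateField.adjoin k (Set.range z)) = p)
    (hNT : ∀ (H : Derivation k (IntermediateField.adjoin k (Set.range z))
      (IntermediateField.adjoin k (Set.range z))) (b : Fin r → ℤ),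
      (∀ j (w : IntermediateField.adjoin k (Set.range z)), (w : K) = z j →
        H w = (b j : IntermediateField.adjoin k (Set.range z)) * w) → b = 0) :
    ∃ (J : Fin p → Fin r) (g : Fin p → K), AlgebraicIndependent k (fun a => z (J a)) ∧
      AlgebraicIndependent k g ∧ (∀ b, g b ∈ IntermediateField.adjoin k (Set.range z)) ∧
      ∀ b, ∃ J' : Fin p → Fin r, ∀ E : Fin p → Derivation k K K,
        (lmat (fun a => z (J' a)) E).det = g b * (lmat (fun a => z (J a)) E).det := by
  classical
  obtain ⟨L, hLdef⟩ : ∃ L, L = IntermediateField.adjoin k (Set.range z) := ⟨_, rfl⟩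
  rw [← hLdef] at hL hNT ⊢
  have hzL : ∀ j, z j ∈ L := fun j => by
    rw [hLdef]
    exact IntermediateField.subset_adjoin k _ ⟨j, rfl⟩
  obtain ⟨zL, hzL'⟩ : ∃ zL : Fin r → L, ∀ j, (zL j : K) = z j := ⟨fun j => ⟨_, hzL j⟩, fun _ => rfl⟩
  have hzL0 : ∀ j, zL j ≠ 0 := fun j h => hz j (by rw [← hzL', h]; rfl)
  have htop : IntermediateField.adjoin k (Set.range zL) = ⊤ := by
    rw [← top_le_iff]
    rintro w -
    have h1 : (IntermediateField.adjoin k (Set.range zL)).map L.val = L := by
      rw [IntermediateField.adjoin_map]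
      conv_rhs => rw [hLdef]
      congr 1
      ext w
      constructor
      · rintro ⟨_, ⟨j, rfl⟩, rfl⟩
        exact ⟨j, (hzL' j).symm⟩
      · rintro ⟨j, rfl⟩
        exact ⟨_, ⟨j, rfl⟩, hzL' j⟩
    have h2 : (w : K) ∈ (IntermediateField.adjoin k (Set.range zL)).map L.val := by
      rw [h1]
      exact w.2
    obtain ⟨w', hw', h3⟩ := h2
    have : w' = w := Subtype.ext h3
    rw [← this]
    exact hw'
  obtain ⟨J, D, J', g, hJ, hD, hg, hdet⟩ := gauss_basis hL hzL0 htop fun H b hH =>
    hNT H b fun j w hw => by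
      have : w = zL j := Subtype.ext (by rw [hw, hzL'])
      rw [this]
      exact hH j
  refine ⟨J, fun b => g b, ?_, hg.map' (f := L.val) L.val.toRingHom.injective, fun b => (g b).2,
    fun b => ⟨J' b, fun E => ?_⟩⟩
  · have h1 := hJ.1.map' (f := L.val) L.val.toRingHom.injective
    have h2 : (L.val ∘ fun a => zL (J a)) = fun a => z (J a) := funext fun a => hzL' (J a)
    rw [h2] at h1
    exact h1
  · have h1 : lmat (fun a => z (J' b a)) E = lmat (fun a => z (J a)) E *
        (algebraMap L K).mapMatrix (lmat (fun a => zL (J' b a)) D) := by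
      ext i j
      rw [Matrix.mul_apply]
      simp only [lmat, Matrix.of_apply, RingHom.mapMatrix_apply, Matrix.map_apply]
      rw [← hzL' (J' b j), der_expand hL hJ hD (E i) (zL (J' b j)), Finset.sum_div]
      refine Finset.sum_congr rfl fun s _ => ?_
      rw [map_div₀, hzL' (J s), mul_div_assoc]
      rfl
    rw [h1, Matrix.det_mul, ← RingHom.map_det, hdet, mul_comm]
    rfl

/-- the stabiliser of the closed subvariety of the torus with generic point `z` -/
def stab (k : Type) {K : Type} [Field k] [Field K] [Algebra k K] {r : ℕ} (z : Fin r → K) :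
    Set (Fin r → kˣ) :=
  {c | ∀ G : MvPolynomial (Fin r) k, MvPolynomial.aeval z G = 0 →
    MvPolynomial.aeval (fun j => algebraMap k K (c j) * z j) G = 0}

theorem noTangent {r : ℕ} {z : Fin r → K} (hz : ∀ j, z j ≠ 0) (hfin : (stab k z).Finite)
    {L : IntermediateField k K} (hLdef : L = IntermediateField.adjoin k (Set.range z))
    (H : Derivation k L L) (b : Fin r → ℤ)
    (hH : ∀ j (w : L), (w : K) = z j → H w = (b j : L) * w) : b = 0 := by
  classical
  by_contra hb
  obtain ⟨j0, hj0⟩ : ∃ j, b j ≠ 0 := by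
    by_contra hcon
    push Not at hcon
    exact hb (funext hcon)
  have hzL : ∀ j, z j ∈ L := fun j => by
    rw [hLdef]
    exact IntermediateField.subset_adjoin k _ ⟨j, rfl⟩
  obtain ⟨zL, hzL'⟩ : ∃ zL : Fin r → L, ∀ j, (zL j : K) = z j := ⟨fun j => ⟨_, hzL j⟩, fun _ => rfl⟩
  have hzL0 : ∀ j, zL j ≠ 0 := fun j h => hz j (by rw [← hzL', h]; rfl)
  have hHL : ∀ j, H (zL j) = (b j : L) * zL j := fun j => hH j _ (hzL' j)
  have hcoe : ∀ (v : Fin r → L) (G : MvPolynomial (Fin r) k),
      ((MvPolynomial.aeval v G : L) : K) = MvPolynomial.aeval (fun j => (v j : K)) G := by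
    intro v G
    exact (MvPolynomial.aeval_algebraMap_apply K v G).symm
  have hmem : ∀ c : kˣ, (fun j => c ^ b j) ∈ stab k z := by
    intro c G hG
    have h1 : MvPolynomial.aeval zL G = 0 := by
      apply Subtype.ext
      rw [hcoe]
      have : (fun j => (zL j : K)) = z := funext hzL'
      rw [this, hG]
      rfl
    have h2 := onePS hzL0 H hHL c.ne_zero h1
    have h3 := congrArg (fun w : L => (w : K)) h2
    simp only [hcoe] at h3
    rw [ZeroMemClass.coe_zero] at h3
    rw [← h3]
    congr 2
    funext j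
    rw [← hzL' j, Units.val_zpow_eq_zpow_val]
    rfl
  -- infinitely many
  let two : kˣ := Units.mk0 2 two_ne_zero
  have htwo : ¬ IsOfFinOrder two := by
    rw [isOfFinOrder_iff_pow_eq_one]
    rintro ⟨n, hn, h⟩
    have h1 := congrArg (fun c : kˣ => (c : k)) h
    simp only [Units.val_pow_eq_pow_val, Units.val_mk0, Units.val_one, two] at h1
    have h2 : (2 : ℕ) ^ n = 1 := by exact_mod_cast h1
    have h3 := Nat.one_lt_two_pow hn.ne'
    omega
  have hinj := injective_zpow_iff_not_isOfFinOrder.2 htwo
  refine Set.infinite_of_injective_forall_mem (f := fun n : ℕ => fun j => (two ^ n) ^ b j)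
    (fun n m hnm => ?_) (fun n => hmem (two ^ n)) hfin
  have h1 := congrFun hnm j0
  simp only at h1
  rw [← zpow_natCast, ← zpow_natCast, ← zpow_mul, ← zpow_mul] at h1
  have h2 := hinj h1
  have h3 := mul_right_cancel₀ hj0 h2
  exact_mod_cast h3

end

end Pool.Agent.D0H90.WA
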