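import Pool.Agent.D0H90.WA.Weak
import Pool.Agent.D0H90.WA.Torus

/-!
Weak abundance for pairs with very affine fibres over bases of logarithmic general type, over
subvarieties of tori with finite stabiliser, and for pairs with very affine interior.
-/

set_option autoImplicit false
set_option linter.unusedSectionVars false

open FF Pool.Agent.W602.GT Pool.Agent.W603.LV Pool.Agent.TH122.AB Pool.Agent.TH585.SV
open Pool.Agent.Y172 Pool.Agent.Y191

namespace Pool.Agent.D0H90.WA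

section

variable {K : Type} [Field K] [Algebra ℂ K] {N : ℕ} {y : Fin (N + 1) → K} {n : ℕ}

/-- **Sections** over bases with logarithmic pluricanonical forms. -/
theorem base_hb {Δ : Place ℂ K → ℚ} {p s m : ℕ}
    (hn : Algebra.trdeg ℂ K = n) (hΔ : Effective y Δ) {F : IntermediateField ℂ K}
    (hd : Algebra.trdeg ℂ F = p) (hs : n = p + s)
    {x : Fin p → K} (hx : AlgebraicIndependent ℂ x) (hxF : ∀ j, x j ∈ F)
    {g : Fin p → K} (hg : AlgebraicIndependent ℂ g) (hgF : ∀ j, g j ∈ F)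
    {h : K} (hh : h ≠ 0) (hhF : h ∈ F)
    (hver : ∀ P, IsPrimeDivisor y P → (¬ ∀ f ∈ F, f ≠ 0 → P.ord f = 0) →
      (∀ E : Fin p → Derivation ℂ K K, (∀ i, DerReg P (E i)) →
        Ge P 0 (h * (mtx x E).det ^ m) ∧ ∀ j, Ge P 0 (g j * (h * (mtx x E).det ^ m))) ∨
      ((∀ E : Fin p → Derivation ℂ K K, (∀ i, DerReg P (E i)) →
        Ge P (-(m : ℤ)) (h * (mtx x E).det ^ m) ∧
          ∀ j, Ge P (-(m : ℤ)) (g j * (h * (mtx x E).det ^ m))) ∧
        ∃ e : ℕ, (∀ f ∈ IntermediateField.adjoin ℂ (Set.range g), f ≠ 0 → (e : ℤ) ∣ P.ord f) ∧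
          (1 - Δ P) * ((p + 1) * m + 1) < e))
    {δ₁ δ₂ : Place ℂ K → ℝ} {lam : ℕ}
    (hδ : ∀ P ∈ {P | IsPrimeDivisor y P}, δ₁ P + δ₂ P ≤ Δ P)
    (hδ1 : ∀ P ∈ {P | IsPrimeDivisor y P}, (¬ ∀ f ∈ F, f ≠ 0 → P.ord f = 0) → δ₁ P = Δ P)
    (hδ0 : ∀ P ∈ {P | IsPrimeDivisor y P}, 0 ≤ δ₁ P)
    {m1 : ℕ} (hm1 : 0 < m1) {θ : Fin (lam + 1) → (Fin s → Derivation F K K) → K}
    (hθ : ∀ j, FibSec n m1 {P | IsPrimeDivisor y P} δ₂ F (θ j))
    (hne : ∃ G, θ 0 G ≠ 0 ∧
      AlgebraicIndependent F (fun i : Fin lam => θ i.succ G / θ 0 G)) :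
    KodairaGe n {P | IsPrimeDivisor y P} (fun P => (Δ P : ℝ)) (p + lam) := by
  classical
  subst hs
  obtain ⟨V, hV⟩ : ∃ V : Finset ℝ, V = insert 1 (hΔ.2.toFinset.image fun P => 1 - (Δ P : ℝ)) :=
    ⟨_, rfl⟩
  have hVm : ∀ P, IsPrimeDivisor y P → 1 - (Δ P : ℝ) ∈ V := by
    intro P hP
    rw [hV, Finset.mem_insert]
    by_cases h0 : Δ P = 0
    · left
      rw [h0]
      simp
    · right
      exact Finset.mem_image.2 ⟨P, by
        rw [Set.Finite.mem_toFinset]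
        exact ⟨hP, h0⟩, rfl⟩
  obtain ⟨τ, -, hτ1, hτ⟩ := exists_tau V ((p + 1) * m + 1)
  -- algebraicity over the ratios
  have halg : ∀ f ∈ F, IsAlgebraic (IntermediateField.adjoin ℂ (Set.range g)) f := by
    obtain ⟨gF, hgF'⟩ : ∃ gF : Fin p → F, ∀ j, (gF j : K) = g j := ⟨fun j => ⟨_, hgF j⟩, fun _ => rfl⟩
    have h3 : AlgebraicIndependent ℂ gF := by
      refine AlgebraicIndependent.of_comp F.val ?_
      have : (F.val ∘ gF) = g := funext hgF'
      rw [this]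
      exact hg
    have h4 : IsTranscendenceBasis ℂ gF := by
      refine h3.isTranscendenceBasis_of_trdeg_le ?_ ?_
      · rw [hd]
        exact Cardinal.natCast_lt_aleph0
      · rw [hd, Cardinal.mk_fin]
    intro f hf
    have h5 := h4.isAlgebraic_field.isAlgebraic (⟨f, hf⟩ : F)
    have h6 : ∀ w ∈ IntermediateField.adjoin ℂ (Set.range gF),
        (w : K) ∈ IntermediateField.adjoin ℂ (Set.range g) := by
      have h7 : IntermediateField.adjoin ℂ (Set.range gF) ≤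
          (IntermediateField.adjoin ℂ (Set.range g)).comap F.val := by
        rw [IntermediateField.adjoin_le_iff]
        rintro _ ⟨j, rfl⟩
        change (gF j : K) ∈ IntermediateField.adjoin ℂ (Set.range g)
        rw [hgF']
        exact IntermediateField.subset_adjoin ℂ _ ⟨j, rfl⟩
      exact fun w hw => h7 hw
    obtain ⟨q, hq0, hq⟩ := h5
    let φ : IntermediateField.adjoin ℂ (Set.range gF) →+*
        IntermediateField.adjoin ℂ (Set.range g) :=
      { toFun := fun w => ⟨(w : F), h6 w w.2⟩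
        map_one' := rfl
        map_mul' := fun _ _ => rfl
        map_zero' := rfl
        map_add' := fun _ _ => rfl }
    refine ⟨q.map φ, ?_, ?_⟩
    · rwa [Ne, Polynomial.map_eq_zero]
    · have h8 : Polynomial.eval₂ (algebraMap (IntermediateField.adjoin ℂ (Set.range g)) K) f
          (q.map φ) = F.val (Polynomial.aeval (⟨f, hf⟩ : F) q) := by
        rw [Polynomial.eval₂_map, Polynomial.aeval_def]
        change _ = (F.val : F →+* K) (Polynomial.eval₂ _ _ _)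
        rw [Polynomial.hom_eval₂]
        rfl
      rw [Polynomial.aeval_def, h8, hq, map_zero]
  refine base_kod hn hd hx hxF hg hgF hh (m := m) (τ := τ) hτ1
    (X := {P | IsPrimeDivisor y P}) (δ₁ := δ₁) (δ₂ := δ₂) hδ hδ0 (fun P hP hPd => ?_) hm1 hθ hne
  by_cases htriv : ∀ f ∈ F, f ≠ 0 → P.ord f = 0
  · left
    intro E hE
    have h3 : Ge P 0 (mtx x E).det := by
      refine ge_det P _ 0 (fun _ _ => 0) (fun i j => ?_) fun σ => by simp
      change Ge P 0 (E i (x j))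
      exact hE i _ (Or.inr (htriv _ (hxF j) (hx.ne_zero j)).ge)
    have h4 : Ge P 0 (h * (mtx x E).det ^ m) := by
      have h5 : Ge P 0 h := Or.inr (htriv _ hhF hh).ge
      simpa using h5.mul (h3.pow m)
    refine ⟨h4, fun j => ?_⟩
    have h5 : Ge P 0 (g j) := Or.inr (htriv _ (hgF j) (hg.ne_zero j)).ge
    simpa using h5.mul h4
  · rcases hver P hP htriv with h3 | ⟨h3, e, he, hlt⟩
    · exact Or.inl h3
    · right
      refine ⟨h3, ?_, e, he, ?_⟩
      · by_contra hcon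
        push Not at hcon
        exact htriv (triv_alg hcon halg)
      · rw [hδ1 P hP htriv]
        refine hτ _ (hVm P hP) e ?_
        have : (((1 - Δ P) * ((p + 1) * m + 1) : ℚ) : ℝ) < ((e : ℚ) : ℝ) := by exact_mod_cast hlt
        push_cast at this
        exact this

/-- **Weak abundance** over bases with logarithmic pluricanonical forms. -/
theorem base_weak {Δ : Place ℂ K → ℚ} {p s r m : ℕ}
    (hy : NormalModel y) (hn : Algebra.trdeg ℂ K = n) (hΔ : Effective y Δ)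
    (hLC : LogCanonical y n Δ) {F : IntermediateField ℂ K}
    (hd : Algebra.trdeg ℂ F = p) (hs : n = p + s)
    {x : Fin p → K} (hx : AlgebraicIndependent ℂ x) (hxF : ∀ j, x j ∈ F)
    {g : Fin p → K} (hg : AlgebraicIndependent ℂ g) (hgF : ∀ j, g j ∈ F)
    {h : K} (hh : h ≠ 0) (hhF : h ∈ F)
    (hver : ∀ P, IsPrimeDivisor y P → (¬ ∀ f ∈ F, f ≠ 0 → P.ord f = 0) →
      (∀ E : Fin p → Derivation ℂ K K, (∀ i, DerReg P (E i)) →
        Ge P 0 (h * (mtx x E).det ^ m) ∧ ∀ j, Ge P 0 (g j * (h * (mtx x E).det ^ m))) ∨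
      ((∀ E : Fin p → Derivation ℂ K K, (∀ i, DerReg P (E i)) →
        Ge P (-(m : ℤ)) (h * (mtx x E).det ^ m) ∧
          ∀ j, Ge P (-(m : ℤ)) (g j * (h * (mtx x E).det ^ m))) ∧
        ∃ e : ℕ, (∀ f ∈ IntermediateField.adjoin ℂ (Set.range g), f ≠ 0 → (e : ℤ) ∣ P.ord f) ∧
          (1 - Δ P) * ((p + 1) * m + 1) < e))
    {t : Fin r → K} (ht : ∀ j, t j ≠ 0)
    (hgen : IntermediateField.adjoin ℂ ({x : K | IsAlgebraic F x} ∪ Set.range t) = ⊤)
    (h2 : ∀ P, IsPrimeDivisor y P → (∀ f ∈ F, f ≠ 0 → P.ord f = 0) →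
      (∃ j, P.ord (t j) ≠ 0) → 1 ≤ Δ P ∨ (0 < Δ P ∧ Soft F s t P)) :
    ∃ κ : ℕ, p ≤ κ ∧ kodairaDim y n Δ = (κ : WithBot ℕ) ∧
      ∀ A, Effective y A → Integral y A → numericalDim y n Δ A = (κ : EReal) := by
  exact weak_main2 hy hn hΔ hLC hd hs (fun δ₁ δ₂ lam hδ hδ1 hδ0 m1 hm1 θ hθ hne =>
    base_hb hn hΔ hd hs hx hxF hg hgF hh hhF hver hδ hδ1 hδ0 hm1 hθ hne) ht hgen h2

theorem lmat_det {p : ℕ} (x : Fin p → K) (E : Fin p → Derivation ℂ K K) :
    (lmat x E).det = (∏ a, x a)⁻¹ * (mtx x E).det ^ 1 := by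
  have h1 : lmat x E = Matrix.of fun i j => (x j)⁻¹ * mtx x E i j := by
    ext i j
    simp only [lmat, Matrix.of_apply]
    rw [div_eq_inv_mul]
    rfl
  rw [h1, Matrix.det_mul_row, Finset.prod_inv_distrib, pow_one]

/-- **Sections** over very affine bases with finite stabiliser. -/
theorem torus_hb {Δ : Place ℂ K → ℚ} {p s r' : ℕ}
    (hn : Algebra.trdeg ℂ K = n) (hΔ : Effective y Δ) {F : IntermediateField ℂ K}
    (hd : Algebra.trdeg ℂ F = p) (hs : n = p + s)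
    {z : Fin r' → K} (hz : ∀ j, z j ≠ 0) (hzF : ∀ j, z j ∈ F)
    (htr : Algebra.trdeg ℂ (IntermediateField.adjoin ℂ (Set.range z)) = p)
    (hNT : ∀ (H : Derivation ℂ (IntermediateField.adjoin ℂ (Set.range z))
      (IntermediateField.adjoin ℂ (Set.range z))) (b : Fin r' → ℤ),
      (∀ j (w : IntermediateField.adjoin ℂ (Set.range z)), (w : K) = z j →
        H w = (b j : IntermediateField.adjoin ℂ (Set.range z)) * w) → b = 0)
    (hver : ∀ P, IsPrimeDivisor y P → (∃ j, P.ord (z j) ≠ 0) →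
      ∃ e : ℕ, (∀ f ∈ IntermediateField.adjoin ℂ (Set.range z), f ≠ 0 → (e : ℤ) ∣ P.ord f) ∧
        (1 - Δ P) * (p + 2) < e)
    {δ₁ δ₂ : Place ℂ K → ℝ} {lam : ℕ}
    (hδ : ∀ P ∈ {P | IsPrimeDivisor y P}, δ₁ P + δ₂ P ≤ Δ P)
    (hδ1 : ∀ P ∈ {P | IsPrimeDivisor y P}, (¬ ∀ f ∈ F, f ≠ 0 → P.ord f = 0) → δ₁ P = Δ P)
    (hδ0 : ∀ P ∈ {P | IsPrimeDivisor y P}, 0 ≤ δ₁ P)
    {m1 : ℕ} (hm1 : 0 < m1) {θ : Fin (lam + 1) → (Fin s → Derivation F K K) → K}
    (hθ : ∀ j, FibSec n m1 {P | IsPrimeDivisor y P} δ₂ F (θ j))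
    (hne : ∃ G, θ 0 G ≠ 0 ∧
      AlgebraicIndependent F (fun i : Fin lam => θ i.succ G / θ 0 G)) :
    KodairaGe n {P | IsPrimeDivisor y P} (fun P => (Δ P : ℝ)) (p + lam) := by
  classical
  obtain ⟨J, g, hJ, hg, hgL, hJ'⟩ := gauss_forms hz htr hNT
  have hLF : IntermediateField.adjoin ℂ (Set.range z) ≤ F := by
    rw [IntermediateField.adjoin_le_iff]
    rintro _ ⟨j, rfl⟩
    exact hzF j
  have hh : (∏ a, z (J a))⁻¹ ≠ 0 := inv_ne_zero (Finset.prod_ne_zero_iff.2 fun a _ => hz _)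
  refine base_hb (m := 1) hn hΔ hd hs hJ (fun a => hzF _) hg (fun j => hLF (hgL j)) hh
    (F.inv_mem (prod_mem fun a _ => hzF _)) (fun P hP hnt => ?_) hδ hδ1 hδ0 hm1 hθ hne
  by_cases hun : ∀ j, P.ord (z j) = 0
  · left
    intro E hE
    have h3 : ∀ T : Fin p → Fin r', Ge P 0 (lmat (fun a => z (T a)) E).det := by
      intro T
      refine ge_det P _ 0 (fun _ _ => 0) (fun i j => ?_) fun σ => by simp
      exact ge_logder_reg (hE i) (hz _) (hun _)
    rw [← lmat_det]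
    refine ⟨h3 J, fun j => ?_⟩
    obtain ⟨J', h4⟩ := hJ' j
    rw [← h4 E]
    exact h3 J'
  · right
    push Not at hun
    obtain ⟨e, he, hlt⟩ := hver P hP hun
    refine ⟨fun E hE => ?_, e, fun f hf hf0 => he f ?_ hf0, ?_⟩
    · have h3 : ∀ T : Fin p → Fin r', Ge P (-1) (lmat (fun a => z (T a)) E).det := fun T =>
        det_log E hE _ fun _ => hz _
      rw [← lmat_det]
      refine ⟨h3 J, fun j => ?_⟩
      obtain ⟨J', h4⟩ := hJ' j
      rw [← h4 E]
      exact h3 J'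
    · have h4 : IntermediateField.adjoin ℂ (Set.range g) ≤
          IntermediateField.adjoin ℂ (Set.range z) := by
        rw [IntermediateField.adjoin_le_iff]
        rintro _ ⟨j, rfl⟩
        exact hgL j
      exact h4 hf
    · have h4 : (1 - Δ P) * ((p + 1) * ((1 : ℕ) : ℚ) + 1) = (1 - Δ P) * (p + 2) := by
        push_cast
        ring
      rw [h4]
      exact hlt

/-- **Weak abundance** over very affine bases with finite stabiliser. -/
theorem torus_weak {Δ : Place ℂ K → ℚ} {p s r r' : ℕ}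
    (hy : NormalModel y) (hn : Algebra.trdeg ℂ K = n) (hΔ : Effective y Δ)
    (hLC : LogCanonical y n Δ) {F : IntermediateField ℂ K}
    (hd : Algebra.trdeg ℂ F = p) (hs : n = p + s)
    {z : Fin r' → K} (hz : ∀ j, z j ≠ 0) (hzF : ∀ j, z j ∈ F)
    (htr : Algebra.trdeg ℂ (IntermediateField.adjoin ℂ (Set.range z)) = p)
    (hNT : ∀ (H : Derivation ℂ (IntermediateField.adjoin ℂ (Set.range z))
      (IntermediateField.adjoin ℂ (Set.range z))) (b : Fin r' → ℤ),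
      (∀ j (w : IntermediateField.adjoin ℂ (Set.range z)), (w : K) = z j →
        H w = (b j : IntermediateField.adjoin ℂ (Set.range z)) * w) → b = 0)
    (hver : ∀ P, IsPrimeDivisor y P → (∃ j, P.ord (z j) ≠ 0) →
      ∃ e : ℕ, (∀ f ∈ IntermediateField.adjoin ℂ (Set.range z), f ≠ 0 → (e : ℤ) ∣ P.ord f) ∧
        (1 - Δ P) * (p + 2) < e)
    {t : Fin r → K} (ht : ∀ j, t j ≠ 0)
    (hgen : IntermediateField.adjoin ℂ ({x : K | IsAlgebraic F x} ∪ Set.range t) = ⊤)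
    (h2 : ∀ P, IsPrimeDivisor y P → (∀ f ∈ F, f ≠ 0 → P.ord f = 0) →
      (∃ j, P.ord (t j) ≠ 0) → 1 ≤ Δ P ∨ (0 < Δ P ∧ Soft F s t P)) :
    ∃ κ : ℕ, p ≤ κ ∧ kodairaDim y n Δ = (κ : WithBot ℕ) ∧
      ∀ A, Effective y A → Integral y A → numericalDim y n Δ A = (κ : EReal) := by
  exact weak_main2 hy hn hΔ hLC hd hs (fun δ₁ δ₂ lam hδ hδ1 hδ0 m1 hm1 θ hθ hne =>
    torus_hb hn hΔ hd hs hz hzF htr hNT hver hδ hδ1 hδ0 hm1 hθ hne) ht hgen h2

end

end Pool.Agent.D0H90.WA
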