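import Pool.Agent.D0H90.WA.Det

/-!
Generalised Wronskian determinants of functions of a subfield at a place which is ramified over the
subfield: the order is at least the ramification index minus one.
-/

set_option autoImplicit false
set_option linter.unusedSectionVars false

open FF Pool.Agent.W602.GT Pool.Agent.W603.LV MvPolynomial

namespace Pool.Agent.D0H90.WA

variable {k K : Type} [Field k] [CharZero k] [Field K] [Algebra k K]

/-- the value of a polynomial with polynomial coefficients -/
noncomputable def ev2 {r : ℕ} (u : Fin r → K) (f : K) (G : Polynomial (MvPolynomial (Fin r) k)) : K :=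
  Polynomial.eval₂ ((aeval u : MvPolynomial (Fin r) k →ₐ[k] K) : MvPolynomial (Fin r) k →+* K) f G

omit [CharZero k] in
theorem ev2_eq {r : ℕ} (u : Fin r → K) (f : K) (G : Polynomial (MvPolynomial (Fin r) k)) :
    ev2 u f G = ∑ i ∈ Finset.range (G.natDegree + 1), aeval u (G.coeff i) * f ^ i := by
  unfold ev2
  rw [Polynomial.eval₂_eq_sum_range]
  rfl

omit [CharZero k] in
theorem ev2_reg {P : Place k K} {r : ℕ} {u : Fin r → K} (h : ∀ i, P.Reg (u i)) {f : K}
    (hf : P.Reg f) (G : Polynomial (MvPolynomial (Fin r) k)) : Ge P 0 (ev2 u f G) := by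
  rw [ev2_eq]
  refine Ge.sum _ _ fun i _ => ?_
  have h7 : Ge P 0 (aeval u (G.coeff i)) := reg_aeval h _
  have h8 : Ge P 0 (f ^ i) := by
    have : Ge P 0 f := hf
    simpa using this.pow i
  simpa using h7.mul h8

omit [CharZero k] in
theorem ev2_mem {L : IntermediateField k K} {r : ℕ} {u : Fin r → K} (h : ∀ i, u i ∈ L) {f : K}
    (hf : f ∈ L) (G : Polynomial (MvPolynomial (Fin r) k)) : ev2 u f G ∈ L := by
  rw [ev2_eq]
  refine sum_mem fun i _ => mul_mem ?_ (pow_mem hf i)
  have : ∀ Q : MvPolynomial (Fin r) k, aeval u Q ∈ L := by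
    intro Q
    induction Q using MvPolynomial.induction_on with
    | C a => rw [aeval_C]; exact L.algebraMap_mem a
    | add p q hp hq => rw [map_add]; exact add_mem hp hq
    | mul_X p i hp => rw [map_mul, aeval_X]; exact mul_mem hp (h i)
  exact this _

omit [CharZero k] in
/-- **Residues**: a maximal family of functions of `L` with algebraically independent residues. -/
theorem exists_res (P : Place k K) (L : IntermediateField k K) {p : ℕ}
    (hL : Algebra.trdeg k L = p) (hP : ∃ f ∈ L, f ≠ 0 ∧ P.ord f ≠ 0) :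
    ∃ (r : ℕ) (u : Fin r → K), r < p ∧ (∀ i, u i ∈ L) ∧ Res P u ∧
      ∀ f ∈ L, P.Reg f → ∃ G : Polynomial (MvPolynomial (Fin r) k), G ≠ 0 ∧ Ge P 1 (ev2 u f G) := by
  classical
  obtain ⟨π, hπL, hπ0, hπ1⟩ : ∃ π ∈ L, π ≠ 0 ∧ 0 < P.ord π := by
    obtain ⟨f, h1, h2, h3⟩ := hP
    rcases lt_or_gt_of_ne h3 with h4 | h4
    · exact ⟨f⁻¹, L.inv_mem h1, inv_ne_zero h2, by rw [P.ord_inv]; omega⟩
    · exact ⟨f, h1, h2, h4⟩
  have hbd : ∀ (r : ℕ) (u : Fin r → K), (∀ i, u i ∈ L) → Res P u → r < p := by
    intro r u huL hu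
    have h1 := hu.indep hπ0 hπ1
    obtain ⟨v, hv⟩ : ∃ v : Fin (r + 1) → L, ∀ i, (v i : K) = (Fin.cons π u : Fin (r + 1) → K) i := by
      have : ∀ i, (Fin.cons π u : Fin (r + 1) → K) i ∈ L := by
        intro i
        refine Fin.cases hπL (fun j => huL j) i
      exact ⟨fun i => ⟨_, this i⟩, fun i => rfl⟩
    have h2 : AlgebraicIndependent k v := by
      refine AlgebraicIndependent.of_comp L.val ?_
      have : (L.val ∘ v) = (Fin.cons π u : Fin (r + 1) → K) := funext hv
      rw [this]
      exact h1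
    have h3 := h2.cardinalMk_le_trdeg
    rw [hL, Cardinal.mk_fin] at h3
    have h4 : r + 1 ≤ p := by exact_mod_cast h3
    omega
  -- maximal `r`
  obtain ⟨r, ⟨u, huL, hu⟩, hmax⟩ : ∃ r : ℕ, (∃ u : Fin r → K, (∀ i, u i ∈ L) ∧ Res P u) ∧
      ∀ r', (∃ u : Fin r' → K, (∀ i, u i ∈ L) ∧ Res P u) → r' ≤ r := by
    have hne : ∃ r : ℕ, ∃ u : Fin r → K, (∀ i, u i ∈ L) ∧ Res P u := by
      refine ⟨0, Fin.elim0, fun i => i.elim0, fun G hG => ?_⟩
      obtain ⟨c, rfl⟩ : ∃ c : k, G = C c := ⟨_, eq_C_of_isEmpty G⟩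
      have hc : c ≠ 0 := by
        rintro rfl
        exact hG (map_zero _)
      rw [aeval_C]
      exact ⟨fun h0 => hc ((algebraMap k K).injective (by rw [h0, map_zero])), P.ord_const hc⟩
    have hb : ∀ r, (∃ u : Fin r → K, (∀ i, u i ∈ L) ∧ Res P u) → r ≤ p := by
      rintro r ⟨u, h1, h2⟩
      exact (hbd r u h1 h2).le
    obtain ⟨Pr, hPr⟩ : ∃ Pr : ℕ → Prop, ∀ r, Pr r ↔ ∃ u : Fin r → K, (∀ i, u i ∈ L) ∧ Res P u :=
      ⟨_, fun _ => Iff.rfl⟩
    simp only [← hPr] at hne hb ⊢
    obtain ⟨r0, hr0⟩ := hne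
    exact ⟨Nat.findGreatest Pr p, Nat.findGreatest_spec (hb _ hr0) hr0,
      fun r' h => Nat.le_findGreatest (hb r' h) h⟩
  refine ⟨r, u, hbd r u huL hu, huL, hu, fun f hfL hf => ?_⟩
  by_contra hcon
  push Not at hcon
  -- `f` can be added
  have h1 : Res P (Fin.cons f u : Fin (r + 1) → K) := by
    intro H hH
    have e1 : ∀ G : MvPolynomial (Fin (r + 1)) k, aeval (Fin.cons f u : Fin (r + 1) → K) G =
        ev2 u f (finSuccEquiv k r G) := by
      intro G
      unfold ev2
      induction G using MvPolynomial.induction_on with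
      | C a =>
        rw [aeval_C]
        have : finSuccEquiv k r (C a) = Polynomial.C (C a) := by
          rw [finSuccEquiv_apply]
          simp
        rw [this, Polynomial.eval₂_C]
        simp
      | add p q hp hq => rw [map_add, hp, hq, map_add, Polynomial.eval₂_add]
      | mul_X p i hp =>
        rw [map_mul, hp, map_mul, Polynomial.eval₂_mul, aeval_X]
        congr 1
        refine Fin.cases ?_ (fun j => ?_) i
        · rw [finSuccEquiv_X_zero, Polynomial.eval₂_X]
          rfl
        · rw [finSuccEquiv_X_succ, Polynomial.eval₂_C]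
          simp
    rw [e1]
    have h2 : finSuccEquiv k r H ≠ 0 := by
      intro h0
      exact hH ((finSuccEquiv k r).injective (by rw [h0, map_zero]))
    have h3 := hcon _ h2
    have h4 := ev2_reg (P := P) (fun i => Or.inr (hu.reg i).1.ge) hf (finSuccEquiv k r H)
    have h5 : ev2 u f (finSuccEquiv k r H) ≠ 0 := fun h0 => h3 (Or.inl h0)
    refine ⟨h5, ?_⟩
    have h6 := h4.resolve_left h5
    by_contra h7
    exact h3 (Or.inr (by omega))
  have h2 := hmax (r + 1) ⟨_, fun i => Fin.cases hfL (fun j => huL j) i, h1⟩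
  omega

/-- a derivation on the value of a polynomial -/
theorem der_aevalW {r : ℕ} (u : Fin r → K) (c : MvPolynomial (Fin r) k) (E : Derivation k K K) :
    E (aeval u c) = ∑ l, aeval u (pderiv l c) * E (u l) := by
  induction c using MvPolynomial.induction_on with
  | C a =>
    rw [aeval_C, E.map_algebraMap]
    refine (Finset.sum_eq_zero fun l _ => ?_).symm
    rw [pderiv_C, map_zero, zero_mul]
  | add p q hp hq =>
    rw [map_add, map_add, hp, hq, ← Finset.sum_add_distrib]
    refine Finset.sum_congr rfl fun l _ => ?_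
    rw [map_add, map_add]
    ring
  | mul_X p i hp =>
    rw [map_mul, aeval_X, E.leibniz, hp]
    have h1 : ∀ l, aeval u (pderiv l (p * X i)) =
        aeval u (pderiv l p) * u i + (if l = i then aeval u p else 0) := by
      intro l
      rw [pderiv_mul, map_add, map_mul, map_mul, aeval_X, pderiv_X]
      congr 1
      by_cases h : l = i
      · subst h
        simp
      · rw [if_neg h, Pi.single_eq_of_ne (Ne.symm h), map_zero, mul_zero]
    simp only [h1, add_mul, Finset.sum_add_distrib, smul_eq_mul, ite_mul, zero_mul]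
    rw [Finset.sum_ite_eq' Finset.univ i, if_pos (Finset.mem_univ _), Finset.mul_sum]
    rw [add_comm]
    congr 1
    exact Finset.sum_congr rfl fun l _ => by ring

/-- the derivative of the coefficients -/
noncomputable def dco {r : ℕ} (u : Fin r → K) (f : K) (l : Fin r)
    (G : Polynomial (MvPolynomial (Fin r) k)) : K :=
  G.sum fun i c => aeval u (pderiv l c) * f ^ i

/-- a derivation on the value of a polynomial -/
theorem der_ev2 {r : ℕ} (u : Fin r → K) (f : K) (G : Polynomial (MvPolynomial (Fin r) k))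
    (E : Derivation k K K) :
    E (ev2 u f G) = ∑ l, dco u f l G * E (u l) + ev2 u f (Polynomial.derivative G) * E f := by
  induction G using Polynomial.induction_on' with
  | add p q hp hq =>
    have h1 : ∀ l, dco u f l (p + q) = dco u f l p + dco u f l q := by
      intro l
      unfold dco
      refine Polynomial.sum_add_index _ _ _ (fun i => ?_) fun i a b => ?_
      · rw [map_zero, map_zero, zero_mul]
      · rw [map_add, map_add, add_mul]
    have h2 : ∀ p q : Polynomial (MvPolynomial (Fin r) k),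
        ev2 u f (p + q) = ev2 u f p + ev2 u f q := fun p q => Polynomial.eval₂_add _ _
    rw [h2, map_add, hp, hq, Polynomial.derivative_add, h2]
    simp only [h1, add_mul, Finset.sum_add_distrib]
    ring
  | monomial n c =>
    have h1 : ∀ l, dco u f l (Polynomial.monomial n c) = aeval u (pderiv l c) * f ^ n := by
      intro l
      unfold dco
      refine Polynomial.sum_monomial_index _ _ ?_
      rw [map_zero, map_zero, zero_mul]
    have h2 : ev2 u f (Polynomial.monomial n c) = aeval u c * f ^ n :=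
      Polynomial.eval₂_monomial _ _
    have h3 : ev2 u f (Polynomial.derivative (Polynomial.monomial n c)) =
        aeval u c * (n * f ^ (n - 1)) := by
      rw [Polynomial.derivative_monomial]
      have : ev2 u f (Polynomial.monomial (n - 1) (c * (n : MvPolynomial (Fin r) k))) =
          aeval u (c * (n : MvPolynomial (Fin r) k)) * f ^ (n - 1) :=
        Polynomial.eval₂_monomial _ _
      rw [this, map_mul, map_natCast]
      ring
    rw [h2, h3, E.leibniz, E.leibniz_pow, der_aevalW u c E]
    simp only [h1, smul_eq_mul, nsmul_eq_mul]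
    rw [Finset.mul_sum, add_comm]
    congr 1
    · exact Finset.sum_congr rfl fun l _ => by ring
    · ring

omit [CharZero k] in
theorem dco_reg {P : Place k K} {r : ℕ} {u : Fin r → K} (h : ∀ i, P.Reg (u i)) {f : K}
    (hf : P.Reg f) (l : Fin r) (G : Polynomial (MvPolynomial (Fin r) k)) :
    Ge P 0 (dco u f l G) := by
  unfold dco
  rw [Polynomial.sum_def]
  refine Ge.sum _ _ fun i _ => ?_
  have h7 : Ge P 0 (aeval u (pderiv l (G.coeff i))) := reg_aeval h _
  have h8 : Ge P 0 (f ^ i) := by
    have : Ge P 0 f := hf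
    simpa using this.pow i
  simpa using h7.mul h8

/-- **The derivatives of a function of the subfield**, modulo the ramification index. -/
theorem exists_coeff {P : Place k K} {L : IntermediateField k K} {e : ℕ}
    (he : ∀ f ∈ L, f ≠ 0 → (e : ℤ) ∣ P.ord f) {r : ℕ} {u : Fin r → K} (huL : ∀ i, u i ∈ L)
    (hu : Res P u) {f : K} (hfL : f ∈ L) (hf : P.Reg f)
    (hG : ∃ G : Polynomial (MvPolynomial (Fin r) k), G ≠ 0 ∧ Ge P 1 (ev2 u f G)) :
    ∃ B : Fin r → K, (∀ l, Ge P 0 (B l)) ∧
      ∀ E : Derivation k K K, DerLog P E → Ge P e (E f - ∑ l, B l * E (u l)) := by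
  classical
  have hur : ∀ i, P.Reg (u i) := fun i => Or.inr (hu.reg i).1.ge
  -- minimal degree
  obtain ⟨G, ⟨hG0, hG1⟩, hmin⟩ : ∃ G : Polynomial (MvPolynomial (Fin r) k),
      (G ≠ 0 ∧ Ge P 1 (ev2 u f G)) ∧
      ∀ G' : Polynomial (MvPolynomial (Fin r) k), G' ≠ 0 → Ge P 1 (ev2 u f G') →
        G.natDegree ≤ G'.natDegree := by
    obtain ⟨n, hn, hmin⟩ := WellFounded.has_min (wellFounded_lt (α := ℕ))
      {n | ∃ G : Polynomial (MvPolynomial (Fin r) k), (G ≠ 0 ∧ Ge P 1 (ev2 u f G)) ∧
        G.natDegree = n} ⟨_, hG.choose, hG.choose_spec, rfl⟩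
    obtain ⟨G, h1, h2⟩ := hn
    exact ⟨G, h1, fun G' h3 h4 => by
      rw [h2]
      exact not_lt.1 (hmin _ ⟨G', ⟨h3, h4⟩, rfl⟩)⟩
  have hdeg : 0 < G.natDegree := by
    by_contra h0
    have h1 : G.natDegree = 0 := by omega
    rw [Polynomial.eq_C_of_natDegree_eq_zero h1] at hG1 hG0
    have h2 : ev2 u f (Polynomial.C (G.coeff 0)) = aeval u (G.coeff 0) := Polynomial.eval₂_C _ _
    rw [h2] at hG1
    have h3 : G.coeff 0 ≠ 0 := fun h => hG0 (by rw [h, map_zero])
    obtain ⟨h4, h5⟩ := hu _ h3
    rcases hG1 with h6 | h6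
    · exact h4 h6
    · rw [h5] at h6
      omega
  have hd0 : Polynomial.derivative G ≠ 0 := by
    intro h0
    have h1 := Polynomial.derivative_eq_zero.1 h0
    omega
  have hd1 : ¬ Ge P 1 (ev2 u f (Polynomial.derivative G)) := by
    intro h1
    have h2 := hmin _ hd0 h1
    have h3 := Polynomial.natDegree_derivative_lt hdeg.ne'
    omega
  obtain ⟨b, hb⟩ : ∃ b, b = ev2 u f (Polynomial.derivative G) := ⟨_, rfl⟩
  rw [← hb] at hd1
  have hb0 : b ≠ 0 := fun h => hd1 (Or.inl h)
  have hbo : P.ord b = 0 := by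
    have h1 := (ev2_reg hur hf (Polynomial.derivative G)).resolve_left (by rw [← hb]; exact hb0)
    rw [← hb] at h1
    by_contra h2
    exact hd1 (Or.inr (by omega))
  refine ⟨fun l => -(dco u f l G / b), fun l => ?_, fun E hE => ?_⟩
  · have := ge_div hb0 (dco_reg (P := P) hur hf l G)
    rw [hbo, sub_zero] at this
    exact this.neg
  · have h1 : E f - ∑ l, -(dco u f l G / b) * E (u l) = E (ev2 u f G) / b := by
      rw [der_ev2, ← hb, add_div, Finset.sum_div, mul_div_cancel_left₀ _ hb0, sub_eq_add_neg,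
        ← Finset.sum_neg_distrib, add_comm]
      congr 1
      exact Finset.sum_congr rfl fun l _ => by ring
    rw [h1]
    have h2 : Ge P e (ev2 u f G) := by
      rcases hG1 with h3 | h3
      · exact Or.inl h3
      · by_cases h4 : ev2 u f G = 0
        · exact Or.inl h4
        · right
          exact Int.le_of_dvd (by omega) (he _ (ev2_mem huL hfL G) h4)
    have h3 := ge_div hb0 (Pool.Agent.Y172.DerLog.ge hE h2)
    rwa [hbo, sub_zero] at h3

/-- logarithmic vector fields -/
theorem wmat_log {P : Place k K} {L : IntermediateField k K} {p : ℕ}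
    (hL : Algebra.trdeg k L = p) (hP : ∃ f ∈ L, f ≠ 0 ∧ P.ord f ≠ 0) {e : ℕ}
    (he : ∀ f ∈ L, f ≠ 0 → (e : ℤ) ∣ P.ord f) {f : Fin (p + 1) → K} (hfL : ∀ j, f j ∈ L)
    (hf : ∀ j, P.Reg (f j)) {E : Fin p → Derivation k K K} (hE : ∀ i, DerLog P (E i)) :
    Ge P e (wmat f E).det := by
  classical
  obtain ⟨r, u, hr, huL, hu, hmax⟩ := exists_res P L hL hP
  have hur : ∀ i, P.Reg (u i) := fun i => Or.inr (hu.reg i).1.ge
  choose B hB0 hB using fun j => exists_coeff he huL hu (hfL j) (hf j) (hmax _ (hfL j) (hf j))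
  have hER : ∀ i, ∀ x, P.Reg x → Ge P 0 (E i x) := fun i x hx =>
    Pool.Agent.Y172.DerLog.ge (hE i) hx
  -- the approximation
  let M' : Matrix (Fin (p + 1)) (Fin (p + 1)) K :=
    Matrix.of (Fin.cons f fun i j => ∑ l, B j l * E i (u l))
  have hM'0 : ∀ j, M' 0 j = f j := fun j => rfl
  have hM's : ∀ (i : Fin p) j, M' i.succ j = ∑ l, B j l * E i (u l) := fun i j => rfl
  have hdet : M'.det = 0 := by
    -- a relation between the rows
    obtain ⟨v, hv0, hv⟩ : ∃ v : Fin p → K, v ≠ 0 ∧ ∀ l, ∑ i, v i * E i (u l) = 0 := by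
      have h1 : ∃ v : Fin p → K, v ≠ 0 ∧
          (Matrix.of fun (l : Fin r) (i : Fin p) => E i (u l)).mulVec v = 0 := by
        have h3 : ¬ Function.Injective
            (Matrix.toLin' (Matrix.of fun (l : Fin r) (i : Fin p) => E i (u l))) := by
          intro h4
          have h5 := LinearMap.finrank_le_finrank_of_injective h4
          rw [Module.finrank_fintype_fun_eq_card, Module.finrank_fintype_fun_eq_card,
            Fintype.card_fin, Fintype.card_fin] at h5
          omega
        rw [← LinearMap.ker_eq_bot, Submodule.eq_bot_iff] at h3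
        push Not at h3
        obtain ⟨v, hv, hv0⟩ := h3
        exact ⟨v, hv0, by simpa using hv⟩
      obtain ⟨v, hv0, hv⟩ := h1
      refine ⟨v, hv0, fun l => ?_⟩
      have h2 := congrFun hv l
      rw [Matrix.mulVec, dotProduct, Pi.zero_apply] at h2
      rw [← h2]
      exact Finset.sum_congr rfl fun i _ => by rw [Matrix.of_apply]; ring
    refine Matrix.exists_vecMul_eq_zero_iff.1 ⟨Fin.cons 0 v, ?_, ?_⟩
    · intro h0
      apply hv0
      funext i
      have := congrFun h0 i.succ
      simpa using this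
    · funext j
      rw [Matrix.vecMul, dotProduct, Fin.sum_univ_succ]
      simp only [Fin.cons_zero, zero_mul, zero_add, Fin.cons_succ, hM's, Pi.zero_apply]
      have h1 : ∀ i, v i * ∑ l, B j l * E i (u l) = ∑ l, B j l * (v i * E i (u l)) := by
        intro i
        rw [Finset.mul_sum]
        exact Finset.sum_congr rfl fun l _ => by ring
      rw [Finset.sum_congr rfl fun i _ => h1 i, Finset.sum_comm]
      refine Finset.sum_eq_zero fun l _ => ?_
      rw [← Finset.mul_sum, hv l, mul_zero]
  have h1 := ge_det_sub (P := P) (e := (e : ℤ)) (wmat f E) M' (fun i j => ?_)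
    (fun i j => ?_) fun i j => ?_
  · rwa [hdet, sub_zero] at h1
  · refine Fin.cases ?_ (fun i => ?_) i
    · exact hf j
    · exact hER i _ (hf j)
  · refine Fin.cases ?_ (fun i => ?_) i
    · exact hf j
    · rw [hM's]
      refine Ge.sum _ _ fun l _ => ?_
      simpa using (hB0 j l).mul (hER i _ (hur l))
  · refine Fin.cases ?_ (fun i => ?_) i
    · rw [wmat_zero, hM'0, sub_self]
      exact Ge.zero
    · rw [wmat_succ, hM's]
      exact hB j (E i) (hE i)

/-- **Regular vector fields.** -/
theorem wmat_ram {P : Place k K} {L : IntermediateField k K} {p : ℕ}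
    (hL : Algebra.trdeg k L = p) (hP : ∃ f ∈ L, f ≠ 0 ∧ P.ord f ≠ 0) {e : ℕ}
    (he : ∀ f ∈ L, f ≠ 0 → (e : ℤ) ∣ P.ord f) {f : Fin (p + 1) → K} (hfL : ∀ j, f j ∈ L)
    (hf : ∀ j, P.Reg (f j)) {D : Fin p → Derivation k K K} (hD : ∀ i, DerReg P (D i)) :
    Ge P (e - 1) (wmat f D).det := by
  obtain ⟨M, E, hE, hDE, hM⟩ := Pool.Agent.Y191.reg_to_log hD
  have h1 : D = fun i => ∑ j, M i j • E j := funext hDE
  rw [h1, wmat_change]
  have h2 := hM.mul (wmat_log hL hP he hfL hf hE)
  exact h2.mono (by omega)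

end Pool.Agent.D0H90.WA
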