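import Pool.Agent.D0H90.WA.Main

/-!
Weak abundance for pairs whose interior is very affine: the quotient by the stabiliser.
-/

set_option autoImplicit false
set_option linter.unusedSectionVars false

open FF Pool.Agent.W602.GT Pool.Agent.W603.LV Pool.Agent.TH122.AB Pool.Agent.TH585.SV
open Pool.Agent.Y172 Pool.Agent.Y191

namespace Pool.Agent.D0H90.WA

section

variable {k K : Type} [Field k] [CharZero k] [Field K] [Algebra k K]

/-- The vector field `∑ b j z j ∂/∂z j` is tangent to the subvariety of the torus with generic point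
`z`. -/
def Tangent (k : Type) {K : Type} [Field k] [Field K] [Algebra k K] {r : ℕ} (z : Fin r → K)
    (b : Fin r → ℤ) : Prop :=
  ∃ H : Derivation k K K, ∀ j, H (z j) = (b j : K) * z j

/-- The monomials which are killed by the tangent vector fields `∑ b j z j ∂/∂z j`. -/
def Invariant (k : Type) {K : Type} [Field k] [Field K] [Algebra k K] {r : ℕ} (z : Fin r → K)
    (a : Fin r → ℤ) : Prop :=
  ∀ b, Tangent k z b → ∑ j, a j * b j = 0

theorem trdeg_acl {L : IntermediateField k K} {S : Set K}
    (hL : L = IntermediateField.adjoin k S) : Algebra.trdeg k (acl k S) = Algebra.trdeg k L := by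
  subst hL
  let _ : Algebra (IntermediateField.adjoin k S) (acl k S) :=
    (IntermediateField.inclusion (adjoin_le_acl S)).toRingHom.toAlgebra
  have : IsScalarTower (IntermediateField.adjoin k S) (acl k S) K :=
    IsScalarTower.of_algebraMap_eq fun _ => rfl
  have : IsScalarTower k (IntermediateField.adjoin k S) (acl k S) :=
    IsScalarTower.of_algebraMap_eq fun _ => rfl
  have h1 : Algebra.IsAlgebraic (IntermediateField.adjoin k S) (acl k S) := by
    refine ⟨fun y => ?_⟩
    have h2 := mem_acl.1 y.2
    exact (isAlgebraic_algebraMap_iff (A := K) (algebraMap (acl k S) K).injective).1 h2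
  have h2 := trdeg_add_eq k (IntermediateField.adjoin k S) (A := acl k S)
  have h3 : Algebra.trdeg (IntermediateField.adjoin k S) (acl k S) = 0 := trdeg_eq_zero
  rw [h3, add_zero] at h2
  exact h2.symm

/-- **The quotient by the stabiliser** of a very affine variety has finite stabiliser. -/
theorem exists_quot {n r : ℕ} (hn : Algebra.trdeg k K = n) {z : Fin r → K} (hz : ∀ j, z j ≠ 0)
    (htop : IntermediateField.adjoin k (Set.range z) = ⊤) {F : IntermediateField k K}
    (hF : F = IntermediateField.adjoin k {w | ∃ a, Invariant k z a ∧ w = mono z a})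
    {p : ℕ} (hd : Algebra.trdeg k F = p) :
    ∃ m : Fin r → K, (∀ i, m i ≠ 0) ∧ (∀ i, ∃ a, Invariant k z a ∧ m i = mono z a) ∧
      Algebra.trdeg k (IntermediateField.adjoin k (Set.range m)) = p ∧
      ∀ (H : Derivation k (IntermediateField.adjoin k (Set.range m))
        (IntermediateField.adjoin k (Set.range m))) (b : Fin r → ℤ),
        (∀ j (w : IntermediateField.adjoin k (Set.range m)), (w : K) = m j →
          H w = (b j : IntermediateField.adjoin k (Set.range m)) * w) → b = 0 := by
  classical
  have hchar : CharZero K := charZero_of_injective_algebraMap (algebraMap k K).injective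
  have hgen : IntermediateField.adjoin k
      ((acl k ((⊥ : IntermediateField k K) : Set K) : Set K) ∪ Set.range z) = ⊤ := by
    rw [← top_le_iff, ← htop]
    exact IntermediateField.adjoin.mono k _ _ Set.subset_union_right
  obtain ⟨e, l, M, J, D, u, H, gs⟩ := exists_gs (F := ⊥) hn hz hgen
  have hu0 := gs.u_ne
  choose m hm c hc using gs.tc
  choose bb hbb using gs.ub
  have hm0 : ∀ i, m i ≠ 0 := by
    intro i h
    have h1 := hc i
    rw [h, zero_mul] at h1
    exact hz i h1
  -- derivations on the monomials in `u`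
  have hHu : ∀ (j : Fin l) (a : Fin l → ℤ), H j (mono u a) = (a j : K) * mono u a := by
    intro j a
    rw [logd_mono (H j) hu0, Finset.sum_eq_single j]
    · rw [gs.hu, if_pos rfl, div_self (hu0 j), mul_one]
    · intro i _ hi
      rw [gs.hu, if_neg (Ne.symm hi), zero_div, mul_zero]
    · intro h
      exact absurd (Finset.mem_univ j) h
  have hHz : ∀ i j, H j (z i) = (c i j : K) * z i := by
    intro i j
    rw [hc i, (H j).leibniz, gs.hk j _ (hm i), smul_zero, add_zero, hHu, smul_eq_mul]
    ring
  -- eigenderivations kill `M`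
  have hkill : ∀ (E : Derivation k K K) (b : Fin r → ℤ), (∀ j, E (z j) = (b j : K) * z j) →
      Kills E M := by
    intro E b hE
    have hcomm : ∀ a y, E (D a y) = D a (E y) := by
      intro a y
      have h1 : ⁅E, D a⁆ = 0 := by
        refine ext_over gs.bas (fun w hw => ?_) (fun w _ => rfl) fun i => ?_
        · have h2 : E w = 0 := by
            obtain ⟨w', rfl⟩ := IntermediateField.mem_bot.1 hw
            exact E.map_algebraMap w'
          rw [Derivation.commutator_apply, gs.dk a w hw, h2, map_zero, map_zero, sub_zero]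
        · rw [Derivation.commutator_apply, gs.dual, hE, (D a).leibniz, gs.dual]
          have h3 : D a ((b (J i) : ℤ) : K) = 0 := (D a).map_intCast _
          rw [h3, smul_zero, add_zero]
          split_ifs with h2
          · rw [hE, smul_eq_mul, sub_self]
            rfl
          · rw [map_zero, smul_zero, sub_self]
            rfl
      have h2 := congrArg (fun E : Derivation k K K => E y) h1
      rw [Derivation.commutator_apply] at h2
      exact sub_eq_zero.1 h2
    rw [gs.gen]
    refine kills_acl ?_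
    rintro w (hw | ⟨⟨a, j⟩, rfl⟩)
    · obtain ⟨w', rfl⟩ := IntermediateField.mem_bot.1 hw
      exact E.map_algebraMap w'
    · change E (D a (z j) / z j) = 0
      have h3 : D a ((b j : ℤ) : K) = 0 := (D a).map_intCast _
      have h4 : E (D a (z j)) = (b j : K) * D a (z j) := by
        rw [hcomm, hE, (D a).leibniz, h3, smul_zero, add_zero, smul_eq_mul]
      rw [div_eq_mul_inv, E.leibniz, E.leibniz_inv, h4, hE]
      simp only [smul_eq_mul]
      field_simp
      ring
  -- the exponents of the `m i`
  obtain ⟨aa, haa⟩ : ∃ aa : Fin r → Fin r → ℤ, ∀ i, m i = mono z (aa i) := by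
    have h1 : ∀ i, ∃ a : Fin r → ℤ, m i = mono z a := by
      intro i
      refine ⟨Pi.single i 1 - ∑ j, c i j • bb j, ?_⟩
      rw [mono_sub hz, mono_single, mono_sum hz]
      have h2 : mono u (c i) = ∏ j, mono z (c i j • bb j) := by
        rw [mono]
        refine Finset.prod_congr rfl fun j _ => ?_
        rw [hbb j, mono_smul]
      rw [← h2, eq_div_iff (mono_ne hu0 _), ← hc i]
    choose aa haa using h1
    exact ⟨aa, haa⟩
  have hmono : ∀ (E : Derivation k K K) (b : Fin r → ℤ), (∀ j, E (z j) = (b j : K) * z j) →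
      ∀ a : Fin r → ℤ, E (mono z a) = ((∑ j, a j * b j : ℤ) : K) * mono z a := by
    intro E b hE a
    rw [logd_mono E hz]
    congr 1
    push_cast
    refine Finset.sum_congr rfl fun i _ => ?_
    rw [hE, mul_div_cancel_right₀ _ (hz i)]
  have hinv : ∀ i, Invariant k z (aa i) := by
    rintro i b ⟨E, hE⟩
    have h1 := hkill E b hE (m i) (hm i)
    rw [haa i, hmono E b hE, ← haa i] at h1
    have h2 := (mul_eq_zero.1 h1).resolve_right (hm0 i)
    exact_mod_cast h2
  -- the fields
  obtain ⟨L, hL⟩ : ∃ L, L = IntermediateField.adjoin k (Set.range m) := ⟨_, rfl⟩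
  have hLF : L ≤ F := by
    rw [hL, hF, IntermediateField.adjoin_le_iff]
    rintro _ ⟨i, rfl⟩
    exact IntermediateField.subset_adjoin k _ ⟨aa i, hinv i, haa i⟩
  have hFM : F ≤ M := by
    rw [hF, IntermediateField.adjoin_le_iff]
    rintro _ ⟨a, ha, rfl⟩
    have h1 : mono z a = mono m a * mono u (∑ i, a i • c i) := by
      rw [mono_sum hu0, mono, mono, ← Finset.prod_mul_distrib]
      refine Finset.prod_congr rfl fun i _ => ?_
      rw [mono_smul, hc i, mul_zpow]
    have h2 : ∑ i, a i • c i = 0 := by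
      funext j
      have h3 := ha (fun i => c i j) ⟨H j, fun i => hHz i j⟩
      rw [Finset.sum_apply]
      simpa [Pi.smul_apply, smul_eq_mul] using h3
    rw [h1, h2, mono_zero, mul_one]
    exact mono_mem hm a
  -- corrections along the torus
  have hcorr : ∀ E : Derivation k K K, ∃ E' : Derivation k K K, (∀ w ∈ M, E' w = E w) ∧
      ∀ j, E' (u j) = 0 := by
    intro E
    refine ⟨E - ∑ j, (E (u j) / u j) • H j, fun w hw => ?_, fun i => ?_⟩
    · rw [Derivation.sub_apply, sum_smul_apply, Finset.sum_eq_zero, sub_zero]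
      intro j _
      rw [gs.hk j w hw, mul_zero]
    · rw [Derivation.sub_apply, sum_smul_apply, Finset.sum_eq_single i]
      · rw [gs.hu, if_pos rfl, div_mul_cancel₀ _ (hu0 i), sub_self]
      · intro j _ hj
        rw [gs.hu, if_neg hj, mul_zero]
      · intro h
        exact absurd (Finset.mem_univ i) h
  have hEz : ∀ E' : Derivation k K K, (∀ j, E' (u j) = 0) → ∀ i,
      E' (z i) = E' (m i) * mono u (c i) := by
    intro E' h1 i
    have h2 : E' (mono u (c i)) = 0 := by
      rw [logd_mono E' hu0, Finset.sum_eq_zero, zero_mul]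
      intro j _
      rw [h1, zero_div, mul_zero]
    conv_lhs => rw [hc i]
    rw [E'.leibniz, h2, smul_zero, zero_add, smul_eq_mul, mul_comm]
  have hML : M ≤ acl k (Set.range m) := by
    intro w hw
    by_contra hcon
    obtain ⟨E, hE1, hE2⟩ := exists_der_ne (acl_closed (Set.range m)) hcon
    obtain ⟨E', h1, h2⟩ := hcorr E
    have h3 : ∀ i, E' (z i) = 0 := fun i => by
      rw [hEz E' h2, h1 _ (hm i), hE1 _ (subset_acl _ ⟨i, rfl⟩), zero_mul]
    have h4 : IntermediateField.adjoin k (Set.range z) ≤ consts E' := by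
      rw [IntermediateField.adjoin_le_iff]
      rintro _ ⟨i, rfl⟩
      exact h3 i
    rw [htop] at h4
    have h5 : E' w = 0 := h4 (x := w) trivial
    rw [h1 w hw, hE2] at h5
    exact one_ne_zero h5
  have hLtr : Algebra.trdeg k L = p := by
    apply le_antisymm
    · rw [← hd]
      exact trdeg_le_of_injective (IntermediateField.inclusion hLF)
        (IntermediateField.inclusion hLF).toRingHom.injective
    · rw [← trdeg_acl hL, ← hd]
      exact trdeg_le_of_injective (IntermediateField.inclusion (hFM.trans hML))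
        (IntermediateField.inclusion (hFM.trans hML)).toRingHom.injective
  refine ⟨m, hm0, fun i => ⟨aa i, hinv i, haa i⟩, by rw [← hL]; exact hLtr, ?_⟩
  rw [← hL]
  intro H0 b hH0
  obtain ⟨E, hE⟩ := exists_ext_der hLtr H0
  obtain ⟨E', h1, h2⟩ := hcorr E
  have hmL : ∀ i, m i ∈ L := fun i => by
    rw [hL]
    exact IntermediateField.subset_adjoin k _ ⟨i, rfl⟩
  have hEm : ∀ i, E' (m i) = (b i : K) * m i := by
    intro i
    rw [h1 _ (hm i)]
    have h3 := hE ⟨m i, hmL i⟩
    rw [hH0 i ⟨m i, hmL i⟩ rfl] at h3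
    rw [h3]
    push_cast
    rfl
  have hEz' : ∀ i, E' (z i) = (b i : K) * z i := by
    intro i
    rw [hEz E' h2, hEm, mul_assoc, ← hc i]
  funext i
  have h3 := hkill E' b hEz' (m i) (hm i)
  rw [hEm] at h3
  have h4 := (mul_eq_zero.1 h3).resolve_right (hm0 i)
  exact_mod_cast h4

end

section

variable {K : Type} [Field K] [Algebra ℂ K] {N : ℕ} {y : Fin (N + 1) → K} {n : ℕ}

/-- **Weak abundance** for pairs with very affine interior. -/
theorem va_weak {Δ : Place ℂ K → ℚ} {p s r : ℕ}
    (hy : NormalModel y) (hn : Algebra.trdeg ℂ K = n) (hΔ : Effective y Δ)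
    (hLC : LogCanonical y n Δ) {z : Fin r → K} (hz : ∀ j, z j ≠ 0)
    (htop : IntermediateField.adjoin ℂ (Set.range z) = ⊤) {F : IntermediateField ℂ K}
    (hF : F = IntermediateField.adjoin ℂ {w | ∃ a, Invariant ℂ z a ∧ w = mono z a})
    (hd : Algebra.trdeg ℂ F = p) (hs : n = p + s)
    (hver : ∀ P, IsPrimeDivisor y P → (∃ a, Invariant ℂ z a ∧ P.ord (mono z a) ≠ 0) →
      ∃ e : ℕ, (∀ f ∈ F, f ≠ 0 → (e : ℤ) ∣ P.ord f) ∧ (1 - Δ P) * (p + 2) < e)
    (hhor : ∀ P, IsPrimeDivisor y P → (∀ f ∈ F, f ≠ 0 → P.ord f = 0) →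
      (∃ j, P.ord (z j) ≠ 0) → 1 ≤ Δ P ∨ (0 < Δ P ∧ Soft F s z P)) :
    ∃ κ : ℕ, p ≤ κ ∧ kodairaDim y n Δ = (κ : WithBot ℕ) ∧
      ∀ A, Effective y A → Integral y A → numericalDim y n Δ A = (κ : EReal) := by
  classical
  obtain ⟨m, hm0, hma, hmtr, hmNT⟩ := exists_quot hn hz htop hF hd
  have hmF : ∀ i, m i ∈ F := by
    intro i
    obtain ⟨a, ha, h1⟩ := hma i
    rw [hF]
    exact IntermediateField.subset_adjoin ℂ _ ⟨a, ha, h1⟩
  refine torus_weak hy hn hΔ hLC hd hs hm0 hmF hmtr hmNT (fun P hP => ?_) hz ?_ hhor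
  · rintro ⟨i, hi⟩
    obtain ⟨a, ha, h1⟩ := hma i
    obtain ⟨e, he, hlt⟩ := hver P hP ⟨a, ha, by rw [← h1]; exact hi⟩
    refine ⟨e, fun f hf hf0 => he f ?_ hf0, hlt⟩
    have h2 : IntermediateField.adjoin ℂ (Set.range m) ≤ F := by
      rw [IntermediateField.adjoin_le_iff]
      rintro _ ⟨j, rfl⟩
      exact hmF j
    exact h2 hf
  · rw [← top_le_iff, ← htop]
    exact IntermediateField.adjoin.mono ℂ _ _ Set.subset_union_right

end

end Pool.Agent.D0H90.WA
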