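import Pool.Agent.Y191.Weak
import Pool.Agent.D0H90.WA.Base
import Pool.Agent.D0H90.WA.Low

/-!
Weak abundance for pairs with very affine fibres (with boundary divisors along which the logarithmic
forms are regular) over bases of logarithmic general type.
-/

set_option autoImplicit false
set_option linter.unusedSectionVars false

open FF Pool.Agent.W602.GT Pool.Agent.W603.LV Pool.Agent.TH122.AB Pool.Agent.TH585.SV
open Pool.Agent.Y172 Pool.Agent.Y191

namespace Pool.Agent.D0H90.WA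

section

variable {K : Type} [Field K] [Algebra ℂ K] {N : ℕ} {y : Fin (N + 1) → K} {n : ℕ}

/-- **Weak abundance** from sections of the base: abstract form. -/
theorem weak_main2 {Δ : Place ℂ K → ℚ} {p s r : ℕ}
    (hy : NormalModel y) (hn : Algebra.trdeg ℂ K = n) (hΔ : Effective y Δ)
    (hLC : LogCanonical y n Δ) {F : IntermediateField ℂ K}
    (hd : Algebra.trdeg ℂ F = p) (hs : n = p + s)
    (hbase : ∀ δ₁ δ₂ : Place ℂ K → ℝ, ∀ lam : ℕ,
      (∀ P ∈ {P | IsPrimeDivisor y P}, δ₁ P + δ₂ P ≤ Δ P) →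
      (∀ P ∈ {P | IsPrimeDivisor y P}, (¬ ∀ f ∈ F, f ≠ 0 → P.ord f = 0) → δ₁ P = Δ P) →
      (∀ P ∈ {P | IsPrimeDivisor y P}, 0 ≤ δ₁ P) →
      ∀ m : ℕ, 0 < m → ∀ θ : Fin (lam + 1) → (Fin s → Derivation F K K) → K,
      (∀ j, FibSec n m {P | IsPrimeDivisor y P} δ₂ F (θ j)) →
      (∃ G, θ 0 G ≠ 0 ∧
        AlgebraicIndependent F (fun i : Fin lam => θ i.succ G / θ 0 G)) →
      KodairaGe n {P | IsPrimeDivisor y P} (fun P => (Δ P : ℝ)) (p + lam))
    {t : Fin r → K} (ht : ∀ j, t j ≠ 0)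
    (hgen : IntermediateField.adjoin ℂ ({x : K | IsAlgebraic F x} ∪ Set.range t) = ⊤)
    (h2 : ∀ P, IsPrimeDivisor y P → (∀ f ∈ F, f ≠ 0 → P.ord f = 0) →
      (∃ j, P.ord (t j) ≠ 0) → 1 ≤ Δ P ∨ (0 < Δ P ∧ Soft F s t P)) :
    ∃ κ : ℕ, p ≤ κ ∧ kodairaDim y n Δ = (κ : WithBot ℕ) ∧
      ∀ A, Effective y A → Integral y A → numericalDim y n Δ A = (κ : EReal) := by
  classical
  have hess := hy.ess
  -- the fibres
  have hgen' : IntermediateField.adjoin ℂ ((acl ℂ (F : Set K) : Set K) ∪ Set.range t) = ⊤ := by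
    rw [← top_le_iff, ← hgen, IntermediateField.adjoin_le_iff]
    rintro x (hx | hx)
    · exact IntermediateField.subset_adjoin _ _ (Or.inl ((acl_closed (F : Set K)).mem_of_le
        (fun y hy => subset_acl _ hy) hx))
    · exact IntermediateField.subset_adjoin _ _ (Or.inr hx)
  obtain ⟨e, l, M, J, D, u, H, gs⟩ := exists_gs hn ht hgen'
  obtain ⟨B, hB⟩ : ∃ B : MvPolynomial (Fin l) M → Prop, ∀ g, B g ↔ (Irreducible g ∧
      ∀ P, IsPrimeDivisor y P → Adic P u g → 0 < Δ P) := ⟨_, fun _ => Iff.rfl⟩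
  obtain ⟨M1, l', ρ, x, u', fb⟩ := exists_fb hn gs B
  obtain ⟨μ, c, hc, hbas⟩ := full_basis hn gs fb
  -- the dimensions
  have hFe : Algebra.trdeg F K = e := by
    have h3 := gs.bas.cardinalMk_eq_trdeg
    rw [Cardinal.mk_fin] at h3
    exact h3.symm
  have hne : n = p + e := by
    have h3 := trdeg_add_eq ℂ F (A := K)
    rw [hd, hFe, hn] at h3
    exact_mod_cast h3.symm
  obtain rfl : e = s := by omega
  have hel : e = l' + (ρ + μ) := by
    have h3 := hbas.cardinalMk_eq_trdeg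
    rw [hFe, Cardinal.mk_sum, Cardinal.mk_sum, Cardinal.mk_fin, Cardinal.mk_fin, Cardinal.mk_fin,
      Cardinal.lift_natCast, Cardinal.lift_natCast, Cardinal.lift_natCast, ← Nat.cast_add,
      Cardinal.lift_natCast, ← Nat.cast_add] at h3
    exact_mod_cast h3.symm
  -- the upper bound
  obtain ⟨E, hE, hEM, hEu⟩ := exists_adapted hn gs.closed gs.ind gs.top
  have hup : ∀ A, Effective y A → ∃ C : ℕ, ∀ m : ℕ, 1 ≤ m → ∀ (r : ℕ) (f : Fin r → K),
      LinearIndependent ℂ f → (∀ i, ∃ ω, Y172.IsSection y n m (m • Δ + A) ω ∧ ω E = f i) →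
      r ≤ C * m ^ (p + (ρ + μ)) := by
    intro A hA
    refine upper hy hn hΔ hLC gs.ind gs.top fb (fun g hg hBg => ?_) hE hEM hEu (by omega) hA
    rw [hB] at hBg
    push Not at hBg
    obtain ⟨P, hP, hPg, hPΔ⟩ := hBg hg
    exact ⟨P, hP, hPg, hPΔ⟩
  -- the coefficients
  let X : Set (Place ℂ K) := {P | IsPrimeDivisor y P}
  have hX : ∀ P, P ∈ X ↔ IsPrimeDivisor y P := fun _ => Iff.rfl
  obtain ⟨tr, htr⟩ : ∃ tr : Place ℂ K → Prop, ∀ P, tr P ↔
      ∀ f ∈ F, f ≠ 0 → P.ord f = 0 := ⟨_, fun _ => Iff.rfl⟩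
  let δ₁ : Place ℂ K → ℝ := fun P => if tr P then 0 else (Δ P : ℝ)
  let δ₂ : Place ℂ K → ℝ := fun P => if tr P then (Δ P : ℝ) else 0
  have hΔ0 : ∀ P ∈ X, (0 : ℝ) ≤ Δ P := fun P hP => by exact_mod_cast hΔ.1 P hP
  have hδ₁ : ∀ P ∈ X, 0 ≤ δ₁ P := by
    intro P hP
    change 0 ≤ if tr P then 0 else (Δ P : ℝ)
    split_ifs
    · exact le_rfl
    · exact hΔ0 P hP
  have hδ₂ : ∀ P ∈ X, 0 ≤ δ₂ P := by
    intro P hP
    change 0 ≤ if tr P then (Δ P : ℝ) else 0
    split_ifs
    · exact hΔ0 P hP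
    · exact le_rfl
  have hδ : ∀ P ∈ X, δ₁ P + δ₂ P ≤ Δ P := by
    intro P _
    change (if tr P then 0 else (Δ P : ℝ)) + (if tr P then (Δ P : ℝ) else 0) ≤ Δ P
    split_ifs <;> simp
  have hδ₂' : ∀ P, (∀ f ∈ F, f ≠ 0 → P.ord f = 0) → δ₂ P = Δ P := fun P hP =>
    if_pos ((htr P).2 hP)
  -- the lower bound
  obtain ⟨m, hm, θ, hθ1, hθ2, hθ3, hθ4⟩ := lower2 gs fb (X := X) (δ := δ₂) hδ₂
    (by
      rintro P hP ⟨hPF, hPt⟩
      rw [hδ₂' P hPF]
      rcases h2 P hP hPF hPt with h | ⟨h, h'⟩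
      · left
        exact_mod_cast h
      · right
        exact ⟨by exact_mod_cast h, h'⟩)
    (by
      intro g hg
      rw [hB] at hg
      refine ⟨hg.1, fun P hP hPg => ?_⟩
      rw [hδ₂' P fun f hf hf0 => hPg.triv f (gs.le hf) hf0]
      exact_mod_cast hg.2 P hP hPg)
    (fun f hf => finite_ord hy hf) hc (by
      have h3 := hbas.1.comp (Sum.inr : Fin ρ ⊕ Fin μ → Fin l' ⊕ (Fin ρ ⊕ Fin μ))
        Sum.inr_injective
      exact h3)
  have hGD : ∀ i, ((Y172.liftD (D i) F (gs.dk i)).restrictScalars ℂ) = D i := by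
    intro i
    ext f
    rfl
  -- the sections
  obtain ⟨m0, hm0, ω, hω, E', h4, h5⟩ := hbase δ₁ δ₂ (ρ + μ) hδ
    (fun P _ hP => if_neg fun h => hP ((htr P).1 h)) hδ₁ m hm
    (fun b G => θ b fun i => (G i).restrictScalars ℂ)
    (by
      intro b
      refine ⟨pluri_restrict (hθ1 b) _, fun P hP _ G hG => ?_⟩
      exact hθ2 b P hP _ (fun i f hf => by
        have : (G i) f = 0 := (G i).map_algebraMap (⟨f, hf⟩ : F)
        exact this) (fun i f hf => hG i f hf))
    (by
      refine ⟨fun i => Y172.liftD (D i) F (gs.dk i), ?_, ?_⟩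
      · simp only [hGD]
        exact hθ3
      · simp only [hGD]
        exact hθ4)
  obtain ⟨h6, h7⟩ := dims hΔ hE hup hm0 (ω := ω) (fun j => ⟨(hω j).1, fun P hP G hG => by
    rcases (hω j).2 P hP (hP.divisorial hy hn) G hG with h6 | h6
    · exact Or.inl h6
    · right
      have e1 : (m0 • Δ) P = m0 * Δ P := by rw [Pi.smul_apply, nsmul_eq_mul]
      rw [e1]
      have h7 : ((-(m0 * Δ P) : ℚ) : ℝ) ≤ ((P.ord (ω j G) : ℚ) : ℝ) := by
        push_cast
        exact h6
      exact_mod_cast h7⟩) h4 h5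
  exact ⟨p + (ρ + μ), Nat.le_add_right _ _, h6, h7⟩

/-- a bound for the ratios -/
theorem exists_tau (V : Finset ℝ) (c : ℝ) : ∃ τ : ℝ, 0 ≤ τ ∧ τ < 1 ∧
    ∀ v ∈ V, ∀ e : ℕ, v * c < e → v * c ≤ τ * e := by
  classical
  induction V using Finset.induction_on with
  | empty => exact ⟨0, le_rfl, one_pos, by simp⟩
  | insert v V hv ih =>
    obtain ⟨τ, h0, h1, h2⟩ := ih
    by_cases hvc : v * c ≤ 0
    · refine ⟨τ, h0, h1, fun w hw e he => ?_⟩
      rcases Finset.mem_insert.1 hw with rfl | hw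
      · exact hvc.trans (by positivity)
      · exact h2 w hw e he
    · push Not at hvc
      obtain ⟨q, hq⟩ : ∃ q : ℕ, q = ⌊v * c⌋₊ := ⟨_, rfl⟩
      have h3 : v * c < q + 1 := by
        rw [hq]
        exact Nat.lt_floor_add_one _
      have hq1 : (0 : ℝ) < q + 1 := by positivity
      refine ⟨max τ (v * c / (q + 1)), le_max_of_le_left h0, max_lt h1 ?_, fun w hw e he => ?_⟩
      · rw [div_lt_one hq1]
        exact h3
      · have he0 : (0 : ℝ) ≤ e := Nat.cast_nonneg e
        rcases Finset.mem_insert.1 hw with rfl | hw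
        · have h4 : q + 1 ≤ e := by
            have : q < e := by
              rw [hq, Nat.floor_lt' (by
                rintro rfl
                simp only [Nat.cast_zero] at he
                linarith)]
              exact he
            omega
          have h5 : ((q : ℝ) + 1) ≤ e := by exact_mod_cast h4
          have h6 : w * c = w * c / (q + 1) * (q + 1) := by
            rw [div_mul_cancel₀ _ hq1.ne']
          have h7 : 0 ≤ w * c / (q + 1) := by positivity
          calc w * c = w * c / (q + 1) * (q + 1) := h6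
            _ ≤ w * c / (q + 1) * e := mul_le_mul_of_nonneg_left h5 h7
            _ ≤ max τ (w * c / (q + 1)) * e :=
              mul_le_mul_of_nonneg_right (le_max_right _ _) he0
        · exact (h2 w hw e he).trans (mul_le_mul_of_nonneg_right (le_max_left _ _) he0)

omit [Algebra ℂ K] in
theorem triv_alg {k : Type} [Field k] [Algebra k K] {L F : IntermediateField k K} {P : Place k K}
    (h : ∀ f ∈ L, f ≠ 0 → P.ord f = 0) (hF : ∀ f ∈ F, IsAlgebraic L f) :
    ∀ f ∈ F, f ≠ 0 → P.ord f = 0 := by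
  -- elements of positive order are not algebraic
  have key : ∀ f ∈ F, f ≠ 0 → ¬ 0 < P.ord f := by
    intro f hf hf0 hpos
    obtain ⟨q, hq0, hq⟩ := hF f hf
    obtain ⟨q', hq', hq'0⟩ := split_X hq0
    rw [hq', map_mul, map_pow, Polynomial.aeval_X] at hq
    have h3 := (mul_eq_zero.1 hq).resolve_left (pow_ne_zero _ hf0)
    have hreg : ∀ R : Polynomial L, Ge P 0 (Polynomial.aeval f R) := by
      intro R
      rw [Polynomial.aeval_eq_sum_range]
      refine Ge.sum _ _ fun i _ => ?_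
      rw [Algebra.smul_def]
      have h7 : Ge P 0 (algebraMap L K (R.coeff i)) := by
        by_cases h8 : algebraMap L K (R.coeff i) = 0
        · exact Or.inl h8
        · exact Or.inr (h _ (R.coeff i).2 h8).ge
      have h8 : Ge P 0 (f ^ i) := by
        have : Ge P 0 f := Or.inr hpos.le
        simpa using this.pow i
      simpa using h7.mul h8
    have h4 : q' = Polynomial.X * q'.divX + Polynomial.C (q'.coeff 0) :=
      (Polynomial.X_mul_divX_add q').symm
    rw [h4, map_add, map_mul, Polynomial.aeval_X, Polynomial.aeval_C] at h3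
    have h7 : Ge P 1 (f * Polynomial.aeval f q'.divX) := by
      have h8 : Ge P 1 f := Or.inr hpos
      simpa using h8.mul (hreg q'.divX)
    have h8 : Ge P 1 (algebraMap L K (q'.coeff 0)) := by
      have h9 : algebraMap L K (q'.coeff 0) = -(f * Polynomial.aeval f q'.divX) :=
        eq_neg_of_add_eq_zero_right h3
      rw [h9]
      exact h7.neg
    have h9 : algebraMap L K (q'.coeff 0) ≠ 0 := fun h0 =>
      hq'0 ((algebraMap L K).injective (by rw [h0, map_zero]))
    rcases h8 with h8 | h8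
    · exact h9 h8
    · have h10 : P.ord (algebraMap L K (q'.coeff 0)) = 0 := h _ (q'.coeff 0).2 h9
      rw [h10] at h8
      omega
  intro f hf hf0
  by_contra hcon
  rcases lt_or_gt_of_ne hcon with h1 | h1
  · exact key f⁻¹ (inv_mem hf) (inv_ne_zero hf0) (by rw [P.ord_inv]; omega)
  · exact key f hf hf0 h1

end

end Pool.Agent.D0H90.WA
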